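import Pool.Agent.Helper1.LL.Profile

/-!
# The three class profiles
-/

open MeasureTheory Filter Topology
open scoped ENNReal

noncomputable section

namespace Pool.Agent.Helper1.LL

section algebra

variable {L : ℕ}

/-- slab index: class and label number -/
abbrev Slab (L : ℕ) := Fin 3 × Fin (L + 1)

/-- at most one of the numbers `u p` differs from `1` -/
def AtMostOne (u : Slab L → ℝ) : Prop := ∀ p q, p ≠ q → u p = 1 ∨ u q = 1

theorem AtMostOne.cases {u : Slab L → ℝ} (h : AtMostOne u) :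
    (∀ p, u p = 1) ∨ ∃ p, ∀ q, q ≠ p → u q = 1 := by
  by_cases h0 : ∀ p, u p = 1
  · exact Or.inl h0
  · push Not at h0
    obtain ⟨p, hp⟩ := h0
    exact Or.inr ⟨p, fun q hq => (h p q (Ne.symm hq)).resolve_left hp⟩

/-- class weight -/
def clW (A : Fin 3 → ℝ) (u : Slab L → ℝ) (m : Fin 3) : ℝ :=
  A m * (∏ p, u p) ^ 2 + ∑ p : Slab L, if p.1 = m + 1 then 1 - u p ^ 2 else 0

/-- square root of the class weight, product formula -/
def clS (A : Fin 3 → ℝ) (u : Slab L → ℝ) (m : Fin 3) : ℝ :=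
  Real.sqrt (A m) * ∏ p : Slab L,
    if p.1 = m + 1 then Real.sqrt (u p ^ 2 + (1 - u p ^ 2) / A m) else u p

theorem prod_eq_single' {u : Slab L → ℝ} {p : Slab L} (h : ∀ q, q ≠ p → u q = 1) :
    ∏ q, u q = u p := by
  rw [Finset.prod_eq_single p (fun q _ hq => h q hq) (by simp)]

theorem clS_sq (A : Fin 3 → ℝ) (hA : ∀ m, 0 < A m) (hA1 : ∀ m, A m ≤ 1) (u : Slab L → ℝ)
    (hu : AtMostOne u) (hu1 : ∀ p, 0 ≤ u p ∧ u p ≤ 1) (m : Fin 3) :
    clS A u m ^ 2 = clW A u m := by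
  unfold clS clW
  rw [mul_pow, Real.sq_sqrt (hA m).le]
  rcases hu.cases with h | ⟨p, h⟩
  · have h1 : ∏ p : Slab L, (if p.1 = m + 1 then Real.sqrt (u p ^ 2 + (1 - u p ^ 2) / A m)
        else u p) = 1 := by
      refine Finset.prod_eq_one fun p _ => ?_
      rw [h p]; simp
    rw [h1, Finset.prod_congr rfl fun p _ => h p]
    simp [h]
  · have h1 : ∏ p : Slab L, (if p.1 = m + 1 then Real.sqrt (u p ^ 2 + (1 - u p ^ 2) / A m)
        else u p) = if p.1 = m + 1 then Real.sqrt (u p ^ 2 + (1 - u p ^ 2) / A m)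
        else u p := by
      refine Finset.prod_eq_single p (fun q _ hq => ?_) (by simp)
      rw [h q hq]; simp
    have h2 : (∑ q : Slab L, if q.1 = m + 1 then 1 - u q ^ 2 else 0)
        = if p.1 = m + 1 then 1 - u p ^ 2 else 0 := by
      refine Finset.sum_eq_single p (fun q _ hq => ?_) (by simp)
      rw [h q hq]; simp
    rw [h1, h2, prod_eq_single' h]
    have hA0 := hA m
    have hup := hu1 p
    split_ifs with hp
    · rw [Real.sq_sqrt]
      · field_simp
      · have : 0 ≤ 1 - u p ^ 2 := by nlinarith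
        positivity
    · ring

theorem sum_clW (A : Fin 3 → ℝ) (hA : ∑ m, A m = 1) (u : Slab L → ℝ) (hu : AtMostOne u) :
    ∑ m, clW A u m = 1 := by
  unfold clW
  rw [Finset.sum_add_distrib, ← Finset.sum_mul, hA, one_mul, Finset.sum_comm]
  have h0 : ∀ p : Slab L, (∑ m : Fin 3, if p.1 = m + 1 then 1 - u p ^ 2 else 0) = 1 - u p ^ 2 := by
    rintro ⟨m, s⟩
    fin_cases m <;> simp [Fin.sum_univ_three] 
  simp_rw [h0]
  rcases hu.cases with h | ⟨p, h⟩
  · rw [Finset.prod_congr rfl fun p _ => h p]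
    simp [h]
  · rw [prod_eq_single' h, Finset.sum_eq_single p (fun q _ hq => by rw [h q hq]; ring) (by simp)]
    ring

theorem clW_nonneg (A : Fin 3 → ℝ) (hA : ∀ m, 0 < A m) (u : Slab L → ℝ)
    (hu1 : ∀ p, 0 ≤ u p ∧ u p ≤ 1) (m : Fin 3) : 0 ≤ clW A u m := by
  unfold clW
  have h1 : 0 ≤ ∑ p : Slab L, (if p.1 = m + 1 then 1 - u p ^ 2 else 0) := by
    refine Finset.sum_nonneg fun p _ => ?_
    have := hu1 p
    split_ifs
    · nlinarith
    · exact le_rfl
  have := hA m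
  positivity

theorem clW_le_one (A : Fin 3 → ℝ) (hA : ∀ m, 0 < A m) (hA1 : ∑ m, A m = 1) (u : Slab L → ℝ)
    (hu : AtMostOne u) (hu1 : ∀ p, 0 ≤ u p ∧ u p ≤ 1) (m : Fin 3) : clW A u m ≤ 1 := by
  rw [← sum_clW A hA1 u hu]
  exact Finset.single_le_sum (f := clW A u) (fun m _ => clW_nonneg A hA u hu1 m) (Finset.mem_univ m)

/-- on the core of slab `p` (where `u p = 0`): class `p.1` and class `p.1 + 1` vanish,
class `p.1 + 2` has weight one. -/
theorem clW_core (A : Fin 3 → ℝ) (u : Slab L → ℝ) {p : Slab L} (hp : u p = 0)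
    (h : ∀ q, q ≠ p → u q = 1) (m : Fin 3) :
    clW A u m = if p.1 = m + 1 then 1 else 0 := by
  unfold clW
  rw [prod_eq_single' h, hp, Finset.sum_eq_single p (fun q _ hq => by rw [h q hq]; simp) (by simp),
    hp]
  simp

theorem clW_far (A : Fin 3 → ℝ) (u : Slab L → ℝ) (h : ∀ p, u p = 1) (m : Fin 3) :
    clW A u m = A m := by
  unfold clW
  rw [Finset.prod_congr rfl fun p _ => h p]
  simp [h]

end algebra

section profiles

variable {L : ℕ} (τ : ℕ → ℝ)

/-- position number of a slab -/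
def sidx (p : Slab L) : ℕ := p.1 * (L + 1) + p.2

theorem sidx_injective : Function.Injective (sidx (L := L)) := by
  rintro ⟨m, s⟩ ⟨m', s'⟩ h
  unfold sidx at h
  simp only at h
  have hs := s.2
  have hs' := s'.2
  have h1 : (m : ℕ) = m' := by
    by_contra hne
    rcases Nat.lt_or_gt_of_ne hne with h2 | h2
    · nlinarith
    · nlinarith
  have h2 : (s : ℕ) = s' := by
    rw [h1] at h; omega
  exact Prod.ext (Fin.ext h1) (Fin.ext h2)

theorem sidx_lt (p : Slab L) : sidx p < 3 * (L + 1) := by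
  unfold sidx
  have h1 := p.1.2
  have h2 := p.2.2
  nlinarith

/-- outer cut-off of slab `p` -/
def omP (p : Slab L) (t : ℝ) : ℝ :=
  om (τ (3 * sidx p)) (τ (3 * sidx p + 1)) (τ (3 * sidx p + 2)) (τ (3 * sidx p + 3)) t

/-- label bump of slab `p` -/
def zeP (p : Slab L) (t : ℝ) : ℝ := ze (τ (3 * sidx p + 1)) (τ (3 * sidx p + 2)) t

variable {τ} (hτ : StrictMono τ)
include hτ

theorem omP_BC1 (p : Slab L) : BC1 (omP τ p) :=
  om_BC1 (hτ (by omega)) (hτ (by omega))

theorem omP_mem (p : Slab L) (t : ℝ) : 0 ≤ omP τ p t ∧ omP τ p t ≤ 1 :=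
  ⟨om_nonneg t, om_le_one t⟩

theorem omP_ne_one {p : Slab L} {t : ℝ} (h : omP τ p t ≠ 1) :
    τ (3 * sidx p) < t ∧ t < τ (3 * sidx p + 3) := by
  by_contra hcon
  rw [not_and_or, not_lt, not_lt] at hcon
  exact h (om_eq_one (hτ (by omega)) (hτ (by omega)) hcon)

theorem omP_atMostOne (t : ℝ) : AtMostOne fun p : Slab L => omP τ p t := by
  intro p q hpq
  by_contra hcon
  rw [not_or] at hcon
  obtain ⟨h1, h2⟩ := omP_ne_one hτ hcon.1
  obtain ⟨h3, h4⟩ := omP_ne_one hτ hcon.2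
  have hne : sidx p ≠ sidx q := fun h => hpq (sidx_injective h)
  rcases Nat.lt_or_gt_of_ne hne with h | h
  · have : τ (3 * sidx p + 3) ≤ τ (3 * sidx q) := hτ.monotone (by omega)
    linarith
  · have : τ (3 * sidx q + 3) ≤ τ (3 * sidx p) := hτ.monotone (by omega)
    linarith

theorem zeP_ne_zero {p : Slab L} {t : ℝ} (h : zeP τ p t ≠ 0) :
    τ (3 * sidx p + 1) < t ∧ t < τ (3 * sidx p + 2) := by
  by_contra hcon
  rw [not_and_or, not_lt, not_lt] at hcon
  exact h (ze_eq_zero hcon)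

theorem omP_core {p : Slab L} {t : ℝ} (h1 : τ (3 * sidx p + 1) < t)
    (h2 : t < τ (3 * sidx p + 2)) : omP τ p t = 0 ∧ ∀ q, q ≠ p → omP τ q t = 1 := by
  have h0 : omP τ p t = 0 := om_eq_zero (hτ (by omega)) (hτ (by omega)) h1.le h2.le
  refine ⟨h0, fun q hq => ?_⟩
  rcases omP_atMostOne hτ t q p hq with h | h
  · exact h
  · exact absurd (h0.symm.trans h) (by norm_num)

/-- the slab region `τ 0 < t < τ (9(L+1))` -/
theorem omP_far {t : ℝ} (h : t ≤ τ 0 ∨ τ (9 * (L + 1)) ≤ t) (p : Slab L) : omP τ p t = 1 := by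
  by_contra hcon
  obtain ⟨h1, h2⟩ := omP_ne_one hτ hcon
  have h3 : τ 0 ≤ τ (3 * sidx p) := hτ.monotone (Nat.zero_le _)
  have h4 : τ (3 * sidx p + 3) ≤ τ (9 * (L + 1)) := hτ.monotone (by have := sidx_lt p; omega)
  rcases h with h | h <;> linarith

omit hτ in
theorem zeP_BC1 (p : Slab L) : BC1 (zeP τ p) := ze_BC1

omit hτ in
theorem zeP_mem (p : Slab L) (t : ℝ) : 0 ≤ zeP τ p t ∧ zeP τ p t ≤ 1 :=
  ⟨ze_nonneg t, ze_le_one t⟩

/-- class profile (square root of the weight) is `BC1`. -/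
theorem clS_BC1 (A : Fin 3 → ℝ) (hA : ∀ m, 0 < A m) (hA1 : ∀ m, A m ≤ 1) (m : Fin 3) :
    BC1 fun t => clS (L := L) A (fun p => omP τ p t) m := by
  unfold clS
  refine (BC1.prod Finset.univ fun p _ => ?_).const_mul _
  by_cases hp : p.1 = m + 1
  · simp only [if_pos hp]
    have h1 : BC1 fun t => omP τ p t ^ 2 := by
      have := (omP_BC1 hτ p).mul (omP_BC1 hτ p)
      simpa only [← sq] using this
    have h2 : BC1 fun t => omP τ p t ^ 2 + (1 - omP τ p t ^ 2) / A m := by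
      have := h1.add ((((BC1.const 1).sub h1)).const_mul (A m)⁻¹)
      refine (congrArg BC1 ?_).mpr this
      funext t
      rw [div_eq_inv_mul]
    refine h2.sqrt 1 one_pos fun t => ?_
    have h3 := omP_mem hτ p t
    have h4 : 0 ≤ 1 - omP τ p t ^ 2 := by nlinarith
    have h5 : 1 - omP τ p t ^ 2 ≤ (1 - omP τ p t ^ 2) / A m := by
      rw [le_div_iff₀ (hA m)]
      nlinarith [hA1 m]
    linarith
  · simp only [if_neg hp]
    exact omP_BC1 hτ p

end profiles

end Pool.Agent.Helper1.LL
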