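import Mathlib

/-!
# Label codes
-/

noncomputable section

namespace Pool.Agent.Helper1.LL

/-- average occupation of label slab `s` (the last one is the reservoir) -/
def avgOcc (L c : ℕ) (s : Fin (L + 1)) : ℕ := Fin.lastCases (L * (c + 1)) (fun _ => c + 1) s

theorem sum_avgOcc (L c : ℕ) : ∑ s, avgOcc L c s = 2 * L * (c + 1) := by
  rw [Fin.sum_univ_castSucc]
  simp [avgOcc]
  ring

theorem codes {S : Type*} [Fintype S] (L c : ℕ) (hL : 1 ≤ L) (hcard : Fintype.card S ≤ c ^ L) :
    ∃ occ : S × Bool → Fin (L + 1) → ℕ,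
      (∀ z s, occ (z, true) s + occ (z, false) s = 2 * avgOcc L c s) ∧
      (∀ α, ∑ s, occ α s = 2 * L * (c + 1)) ∧
      (∀ α β, α ≠ β → ∃ s, occ α s ≠ occ β s) ∧
      (∀ α, ∃ s, 1 ≤ occ α s) := by
  classical
  have hcard' : Fintype.card S ≤ Fintype.card (Fin L → Fin c) := by
    simpa using hcard
  obtain ⟨e⟩ := Function.Embedding.nonempty_of_card_le hcard'
  have hlt : ∀ z i, (e z i : ℕ) + 1 ≤ c := fun z i => (e z i).2
  set T : S → ℕ := fun z => ∑ i, ((e z i : ℕ) + 1) with hT
  have hTle : ∀ z, T z ≤ L * (c + 1) := by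
    intro z
    calc T z ≤ ∑ _i : Fin L, (c + 1) := Finset.sum_le_sum fun i _ => by have := hlt z i; omega
      _ = L * (c + 1) := by simp
  refine ⟨fun α s => Fin.lastCases (if α.2 then L * (c + 1) - T α.1 else L * (c + 1) + T α.1)
    (fun i => if α.2 then c + 1 + ((e α.1 i : ℕ) + 1) else c + 1 - ((e α.1 i : ℕ) + 1)) s,
    ?_, ?_, ?_, ?_⟩
  · intro z s
    refine Fin.lastCases ?_ (fun i => ?_) s
    · simp only [Fin.lastCases_last, avgOcc, if_true, Bool.false_eq_true, if_false]
      have := hTle z
      omega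
    · simp only [Fin.lastCases_castSucc, avgOcc, if_true, Bool.false_eq_true, if_false]
      have := hlt z i
      omega
  · rintro ⟨z, b⟩
    rw [Fin.sum_univ_castSucc]
    simp only [Fin.lastCases_last, Fin.lastCases_castSucc]
    cases b
    · simp only [Bool.false_eq_true, if_false]
      have h1 : ∑ i : Fin L, (c + 1 - ((e z i : ℕ) + 1)) + T z = L * (c + 1) := by
        rw [hT, ← Finset.sum_add_distrib]
        calc ∑ i : Fin L, (c + 1 - ((e z i : ℕ) + 1) + ((e z i : ℕ) + 1)) = ∑ _i : Fin L, (c + 1) :=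
              Finset.sum_congr rfl fun i _ => by have := hlt z i; omega
          _ = L * (c + 1) := by simp
      have h2 : 2 * L * (c + 1) = L * (c + 1) + L * (c + 1) := by ring
      omega
    · simp only [if_true]
      have h1 : ∑ i : Fin L, (c + 1 + ((e z i : ℕ) + 1)) = L * (c + 1) + T z := by
        rw [Finset.sum_add_distrib]
        simp [hT]
      have h2 : 2 * L * (c + 1) = L * (c + 1) + L * (c + 1) := by ring
      have := hTle z
      omega
  · rintro ⟨z, b⟩ ⟨z', b'⟩ hne
    by_cases hb : b = b'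
    · subst hb
      have hz : z ≠ z' := fun h => hne (by rw [h])
      have hez : e z ≠ e z' := fun h => hz (e.injective h)
      obtain ⟨i, hi⟩ := Function.ne_iff.1 hez
      refine ⟨i.castSucc, ?_⟩
      simp only [Fin.lastCases_castSucc]
      have hi' : (e z i : ℕ) ≠ e z' i := fun h => hi (Fin.ext h)
      have := hlt z i
      have := hlt z' i
      cases b
      · simp only [Bool.false_eq_true, if_false]
        omega
      · simp only [if_true]
        omega
    · refine ⟨Fin.castSucc ⟨0, hL⟩, ?_⟩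
      simp only [Fin.lastCases_castSucc]
      have := hlt z ⟨0, hL⟩
      have := hlt z' ⟨0, hL⟩
      cases b <;> cases b' <;> simp only [Bool.false_eq_true, if_true, if_false] <;> first | exact absurd rfl hb | omega
  · rintro ⟨z, b⟩
    refine ⟨Fin.castSucc ⟨0, hL⟩, ?_⟩
    simp only [Fin.lastCases_castSucc]
    have := hlt z ⟨0, hL⟩
    cases b <;> simp only [Bool.false_eq_true, if_true, if_false] <;> omega

end Pool.Agent.Helper1.LL
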