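import Pool.Agent.Helper1.LL.State
import Pool.Agent.Helper1.LL.Codes

/-!
# The family of Slater states of one class
-/

open MeasureTheory Filter Topology
open scoped ENNReal

noncomputable section

namespace Pool.Agent.Helper1.LL

theorem sum_lintegral_le {X ι : Type*} [MeasurableSpace X] (μ : Measure X) (s : Finset ι)
    (f : ι → X → ℝ≥0∞) : ∑ i ∈ s, ∫⁻ x, f i x ∂μ ≤ ∫⁻ x, ∑ i ∈ s, f i x ∂μ := by
  classical
  induction s using Finset.induction_on with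
  | empty => simp
  | insert i s hi ih =>
    rw [Finset.sum_insert hi]
    simp_rw [Finset.sum_insert hi]
    exact (add_le_add le_rfl ih).trans (le_lintegral_add _ _)

/-- pair density of a two-block family, split into blocks -/
theorem pairDens_sum {X A B : Type*} [Fintype A] [Fintype B] (f : A → X → ℂ) (g : B → X → ℂ)
    (x y : X) :
    pairDens (Sum.elim f g) x y ≤ pairDens f x y
      + 2 * ((∑ k, ‖f k x‖ ^ 2) * (∑ j, ‖g j y‖ ^ 2) + (∑ j, ‖g j x‖ ^ 2) * (∑ k, ‖f k y‖ ^ 2))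
      + (∑ j, ‖g j x‖ ^ 2) * (∑ j, ‖g j y‖ ^ 2) := by
  have h1 : pairDens (Sum.elim f g) x y = pairDens f x y
      + (∑ k, ∑ j, ‖f k x * g j y - g j x * f k y‖ ^ 2) + pairDens g x y := by
    unfold pairDens
    rw [Fintype.sum_sum_type]
    simp_rw [Fintype.sum_sum_type]
    simp only [Sum.elim_inl, Sum.elim_inr]
    rw [Finset.sum_add_distrib, Finset.sum_add_distrib]
    have h2 : ∑ j, ∑ k, ‖g j x * f k y - f k x * g j y‖ ^ 2
        = ∑ k, ∑ j, ‖f k x * g j y - g j x * f k y‖ ^ 2 := by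
      rw [Finset.sum_comm]
      refine Finset.sum_congr rfl fun k _ => Finset.sum_congr rfl fun j _ => ?_
      rw [norm_sub_rev]
    rw [h2]
    ring
  have h3 : pairDens g x y ≤ (∑ j, ‖g j x‖ ^ 2) * (∑ j, ‖g j y‖ ^ 2) := by
    have := pair_le (fun _ : B => (1 : ℝ)) (fun j => g j x) (fun j => g j y)
    simpa [pairDens] using this
  have h4 : (∑ k, ∑ j, ‖f k x * g j y - g j x * f k y‖ ^ 2) ≤
      2 * ((∑ k, ‖f k x‖ ^ 2) * (∑ j, ‖g j y‖ ^ 2) + (∑ j, ‖g j x‖ ^ 2) * (∑ k, ‖f k y‖ ^ 2)) := by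
    calc (∑ k, ∑ j, ‖f k x * g j y - g j x * f k y‖ ^ 2)
        ≤ ∑ k, ∑ j, 2 * (‖f k x‖ ^ 2 * ‖g j y‖ ^ 2 + ‖g j x‖ ^ 2 * ‖f k y‖ ^ 2) := by
          refine Finset.sum_le_sum fun k _ => Finset.sum_le_sum fun j _ => ?_
          have h := norm_sub_le (f k x * g j y) (g j x * f k y)
          rw [norm_mul, norm_mul] at h
          have h0 : 0 ≤ ‖f k x * g j y - g j x * f k y‖ := norm_nonneg _
          nlinarith [sq_nonneg (‖f k x‖ * ‖g j y‖ - ‖g j x‖ * ‖f k y‖),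
            mul_nonneg (norm_nonneg (f k x)) (norm_nonneg (g j y)),
            mul_nonneg (norm_nonneg (g j x)) (norm_nonneg (f k y))]
      _ = _ := by
          rw [Finset.sum_mul_sum, Finset.sum_mul_sum]
          rw [Finset.sum_comm (f := fun j k => ‖g j x‖ ^ 2 * ‖f k y‖ ^ 2)]
          rw [← Finset.sum_add_distrib, Finset.mul_sum]
          refine Finset.sum_congr rfl fun k _ => ?_
          rw [← Finset.sum_add_distrib, Finset.mul_sum]
  rw [h1]
  linarith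

/-- dependent rounding, over the support -/
theorem rounding {κ : Type} [Fintype κ] [DecidableEq κ] (lam : κ → ℝ)
    (hlam : ∀ k, 0 < lam k ∧ lam k ≤ 1) (M' : ℕ) (hsum : ∑ k, lam k = M') :
    ∃ (𝒮 : Type) (_ : Fintype 𝒮) (q₀ : 𝒮 → ℝ) (SS : 𝒮 → Finset κ),
      (∀ z, 0 ≤ q₀ z) ∧ (∑ z, q₀ z = 1) ∧ (∀ z, (SS z).card = M') ∧
      (∀ g : κ → ℝ, ∑ z, q₀ z * (∑ k ∈ SS z, g k) = ∑ k, lam k * g k) ∧
      (∀ g : κ → κ → ℝ, (∀ k l, 0 ≤ g k l) → (∀ k, g k k = 0) →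
        ∑ z, q₀ z * (∑ k ∈ SS z, ∑ l ∈ SS z, g k l) ≤ ∑ k, ∑ l, lam k * lam l * g k l) ∧
      Fintype.card 𝒮 ≤ (Fintype.card κ + 1) ^ 2 + 1 := by
  classical
  obtain ⟨q₀, hq0, hq1, hqcard, hqm, hqpair, hqsupp⟩ :=
    Inputs.dependent_rounding lam (fun k => (hlam k).1.le) (fun k => (hlam k).2) M' hsum
  have hsumS : ∀ g : Finset κ → ℝ,
      (∑ z : {S : Finset κ // q₀ S ≠ 0}, q₀ z.1 * g z.1) = ∑ S, q₀ S * g S := by
    intro g
    rw [← Finset.sum_subtype (Finset.univ.filter fun S => q₀ S ≠ 0) (by simp)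
      (fun S => q₀ S * g S)]
    refine Finset.sum_filter_of_ne fun S _ h1 h2 => h1 ?_
    rw [h2, zero_mul]
  refine ⟨{S : Finset κ // q₀ S ≠ 0}, inferInstance, fun z => q₀ z.1, fun z => z.1,
    fun z => hq0 _, ?_, fun z => hqcard _ z.2, ?_, ?_, ?_⟩
  · have := hsumS (fun _ => 1)
    simpa [hq1] using this
  · intro g
    rw [hsumS (fun S => ∑ k ∈ S, g k)]
    have : ∀ S : Finset κ, q₀ S * (∑ k ∈ S, g k) = ∑ k, (if k ∈ S then q₀ S else 0) * g k := by
      intro S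
      rw [Finset.mul_sum, ← Finset.sum_filter_add_sum_filter_not Finset.univ (fun k => k ∈ S)]
      have h1 : ∑ k ∈ Finset.univ.filter (fun k => ¬ k ∈ S), (if k ∈ S then q₀ S else 0) * g k
          = 0 := by
        refine Finset.sum_eq_zero fun k hk => ?_
        rw [if_neg (Finset.mem_filter.1 hk).2, zero_mul]
      rw [h1, add_zero]
      have h2 : Finset.univ.filter (fun k => k ∈ S) = S := by ext; simp
      rw [h2]
      refine Finset.sum_congr rfl fun k hk => ?_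
      rw [if_pos hk]
    simp_rw [this]
    rw [Finset.sum_comm]
    refine Finset.sum_congr rfl fun k _ => ?_
    rw [← Finset.sum_mul, hqm]
  · intro g hg0 hgd
    rw [hsumS (fun S => ∑ k ∈ S, ∑ l ∈ S, g k l)]
    have : ∀ S : Finset κ, q₀ S * (∑ k ∈ S, ∑ l ∈ S, g k l)
        = ∑ k, ∑ l, (if k ∈ S ∧ l ∈ S then q₀ S else 0) * g k l := by
      intro S
      have h1 : ∀ k l, (if k ∈ S ∧ l ∈ S then q₀ S else 0) * g k l
          = if k ∈ S then (if l ∈ S then q₀ S * g k l else 0) else 0 := by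
        intro k l
        by_cases hk : k ∈ S <;> by_cases hl : l ∈ S <;> simp [hk, hl]
      simp_rw [h1]
      have h2 : ∀ k, (∑ l, if k ∈ S then (if l ∈ S then q₀ S * g k l else 0) else 0)
          = if k ∈ S then ∑ l ∈ S, q₀ S * g k l else 0 := by
        intro k
        by_cases hk : k ∈ S
        · simp only [hk, if_true]
          rw [Finset.sum_ite_mem, Finset.univ_inter]
        · simp [hk]
      simp_rw [h2]
      rw [Finset.sum_ite_mem, Finset.univ_inter, Finset.mul_sum]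
      refine Finset.sum_congr rfl fun k _ => ?_
      rw [Finset.mul_sum]
    simp_rw [this]
    rw [Finset.sum_comm]
    refine Finset.sum_le_sum fun k _ => ?_
    rw [Finset.sum_comm]
    refine Finset.sum_le_sum fun l _ => ?_
    rw [← Finset.sum_mul]
    by_cases hkl : k = l
    · subst hkl
      simp [hgd]
    · exact mul_le_mul_of_nonneg_right (hqpair k l hkl) (hg0 k l)
  · rw [Fintype.card_subtype]
    exact hqsupp

/-- pair densities of a two-block family, averaged -/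
theorem mixed_pair {X κ 𝒮 : Type*} [Fintype κ] [DecidableEq κ] [Fintype 𝒮]
    (lam : κ → ℝ) (hlam : ∀ k, 0 ≤ lam k) (φ : κ → X → ℂ)
    (q₀ : 𝒮 → ℝ) (SS : 𝒮 → Finset κ) (hq0 : ∀ z, 0 ≤ q₀ z) (hq1 : ∑ z, q₀ z = 1)
    (hqm : ∀ g : κ → ℝ, ∑ z, q₀ z * (∑ k ∈ SS z, g k) = ∑ k, lam k * g k)
    (hqpair : ∀ g : κ → κ → ℝ, (∀ k l, 0 ≤ g k l) → (∀ k, g k k = 0) →
        ∑ z, q₀ z * (∑ k ∈ SS z, ∑ l ∈ SS z, g k l) ≤ ∑ k, ∑ l, lam k * lam l * g k l)
    (pd : 𝒮 × Bool → ℝ) (Λ Λ' : 𝒮 × Bool → ℝ) (l l' : ℝ) (x y : X)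
    (hΛ0 : ∀ α, 0 ≤ Λ α) (hΛ0' : ∀ α, 0 ≤ Λ' α)
    (hΛ : ∀ α, Λ α ≤ 2 * l) (hΛ' : ∀ α, Λ' α ≤ 2 * l') (hl : 0 ≤ l) (hl' : 0 ≤ l')
    (hpd : ∀ α, pd α ≤ (1 / 2) * (∑ k ∈ SS α.1, ∑ j ∈ SS α.1, ‖φ k x * φ j y - φ j x * φ k y‖ ^ 2)
      + 2 * ((∑ k ∈ SS α.1, ‖φ k x‖ ^ 2) * Λ' α + Λ α * (∑ k ∈ SS α.1, ‖φ k y‖ ^ 2))
      + Λ α * Λ' α) :
    ∑ α, (q₀ α.1 / 2) * pd α ≤
      (∑ k, lam k * ‖φ k x‖ ^ 2 + 4 * l) * (∑ k, lam k * ‖φ k y‖ ^ 2 + 4 * l') := by
  have h1 : ∀ α : 𝒮 × Bool, (q₀ α.1 / 2) * pd α ≤ (q₀ α.1 / 2) *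
      ((1 / 2) * (∑ k ∈ SS α.1, ∑ j ∈ SS α.1, ‖φ k x * φ j y - φ j x * φ k y‖ ^ 2)
      + 4 * ((∑ k ∈ SS α.1, ‖φ k x‖ ^ 2) * l' + l * (∑ k ∈ SS α.1, ‖φ k y‖ ^ 2))
      + 4 * (l * l')) := by
    intro α
    have h2 := hq0 α.1
    refine mul_le_mul_of_nonneg_left ((hpd α).trans ?_) (by positivity)
    have h3 : (∑ k ∈ SS α.1, ‖φ k x‖ ^ 2) * Λ' α ≤ (∑ k ∈ SS α.1, ‖φ k x‖ ^ 2) * (2 * l') :=
      mul_le_mul_of_nonneg_left (hΛ' α) (by positivity)
    have h4 : Λ α * (∑ k ∈ SS α.1, ‖φ k y‖ ^ 2) ≤ (2 * l) * (∑ k ∈ SS α.1, ‖φ k y‖ ^ 2) :=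
      mul_le_mul_of_nonneg_right (hΛ α) (by positivity)
    have h5 : Λ α * Λ' α ≤ (2 * l) * (2 * l') :=
      mul_le_mul (hΛ α) (hΛ' α) (hΛ0' α) (by positivity)
    linarith
  refine (Finset.sum_le_sum fun α _ => h1 α).trans ?_
  rw [Fintype.sum_prod_type]
  simp only [Fintype.sum_bool]
  have h2 : ∀ z : 𝒮, (q₀ z / 2) *
      ((1 / 2) * (∑ k ∈ SS z, ∑ j ∈ SS z, ‖φ k x * φ j y - φ j x * φ k y‖ ^ 2)
      + 4 * ((∑ k ∈ SS z, ‖φ k x‖ ^ 2) * l' + l * (∑ k ∈ SS z, ‖φ k y‖ ^ 2))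
      + 4 * (l * l')) + (q₀ z / 2) *
      ((1 / 2) * (∑ k ∈ SS z, ∑ j ∈ SS z, ‖φ k x * φ j y - φ j x * φ k y‖ ^ 2)
      + 4 * ((∑ k ∈ SS z, ‖φ k x‖ ^ 2) * l' + l * (∑ k ∈ SS z, ‖φ k y‖ ^ 2))
      + 4 * (l * l')) =
      (1 / 2) * (q₀ z * (∑ k ∈ SS z, ∑ j ∈ SS z, ‖φ k x * φ j y - φ j x * φ k y‖ ^ 2))
      + (4 * l') * (q₀ z * (∑ k ∈ SS z, ‖φ k x‖ ^ 2))
      + (4 * l) * (q₀ z * (∑ k ∈ SS z, ‖φ k y‖ ^ 2)) + (4 * (l * l')) * q₀ z := by
    intro z; ring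
  simp_rw [h2]
  rw [Finset.sum_add_distrib, Finset.sum_add_distrib, Finset.sum_add_distrib, ← Finset.mul_sum,
    ← Finset.mul_sum, ← Finset.mul_sum, ← Finset.mul_sum, hq1, hqm (fun k => ‖φ k x‖ ^ 2),
    hqm (fun k => ‖φ k y‖ ^ 2)]
  have h3 := hqpair (fun k j => ‖φ k x * φ j y - φ j x * φ k y‖ ^ 2) (fun k j => by positivity)
    (fun k => by simp)
  have h4 := pair_le lam (fun k => φ k x) (fun k => φ k y)
  have h5 : 0 ≤ ∑ k, lam k * ‖φ k x‖ ^ 2 :=
    Finset.sum_nonneg fun k _ => mul_nonneg (hlam k) (by positivity)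
  have h6 : 0 ≤ ∑ k, lam k * ‖φ k y‖ ^ 2 :=
    Finset.sum_nonneg fun k _ => mul_nonneg (hlam k) (by positivity)
  nlinarith [mul_nonneg hl hl']

theorem class_states {d n : ℕ} (L c : ℕ) (hL : 1 ≤ L)
    (Aset : Fin 3 × Fin (L + 1) → Set (Sp d)) (hdisj : ∀ p q, p ≠ q → Disjoint (Aset p) (Aset q))
    (m : Fin 3) {κ : Type} [Fintype κ] [DecidableEq κ] (φ : κ → Sp d → ℂ)
    (Dφ : κ → Fin d → Sp d → ℂ) (lam : κ → ℝ) (hlam : ∀ k, 0 < lam k ∧ lam k ≤ 1)
    (hH : ∀ k, IsH1 (φ k) (Dφ k)) (hON : ON φ) (M' : ℕ) (hsum : ∑ k, lam k = M')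
    (hcount : M' + 2 * L * (c + 1) = n + 1) (hcap : (Fintype.card κ + 1) ^ 2 + 1 ≤ c ^ L)
    (hvan : ∀ p : Fin 3 × Fin (L + 1), p.1 = m ∨ p.1 = m + 2 → ∀ x ∈ Aset p, ∀ k,
      φ k x = 0 ∧ ∀ a, Dφ k a x = 0)
    (ψ : Fin (L + 1) → Sp d → ℝ)
    (u : (s : Fin (L + 1)) → (N : ℕ) → Fin N → Sp d → ℂ)
    (Du : (s : Fin (L + 1)) → (N : ℕ) → Fin N → Fin d → Sp d → ℂ)
    (hu : ∀ s N j, IsH1 (u s N j) (Du s N j)) (huON : ∀ s N, ON (u s N))
    (huψ : ∀ s N j x, ‖u s N j x‖ ^ 2 = ψ s x ^ 2)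
    (huA : ∀ s N j, ∀ x ∉ Aset (m, s), u s N j x = 0 ∧ ∀ a, Du s N j a x = 0)
    (C : ℝ) (hC : 0 ≤ C) (huE : ∀ s N, ∑ j, dir (Du s N j) ≤ C * N ^ 3)
    (W : Sp d → ℝ≥0∞) (hW : Measurable W) (hWe : ∀ z, W (-z) = W z) :
    ∃ (𝒞 : Type) (_ : Fintype 𝒞) (q : 𝒞 → ℝ) (occ : 𝒞 → Fin (L + 1) → ℕ)
      (Ψ : 𝒞 → (Fin (n + 1) → Sp d) → ℂ)
      (D : 𝒞 → Fin (n + 1) → Fin d → (Fin (n + 1) → Sp d) → ℂ),
      (∀ α, 0 ≤ q α) ∧ ∑ α, q α = 1 ∧ (∀ α, IsFermionState (Ψ α) (D α)) ∧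
      (∀ x, ∑ α, q α * density (Ψ α) x
        = ∑ k, lam k * ‖φ k x‖ ^ 2 + ∑ s, (avgOcc L c s : ℝ) * ψ s x ^ 2) ∧
      (∑ α, q α * kinetic (D α) ≤ ∑ k, lam k * dir (Dφ k)
        + (L + 1) * (C * (2 * L * (c + 1) : ℝ) ^ 3)) ∧
      (∑ α, ENNReal.ofReal (q α) * pairEnergy W (Ψ α) ≤
        2⁻¹ * ∫⁻ x, ∫⁻ y, W (x - y) * ENNReal.ofReal
          ((∑ k, lam k * ‖φ k x‖ ^ 2 + 4 * ∑ s, (avgOcc L c s : ℝ) * ψ s x ^ 2) *
           (∑ k, lam k * ‖φ k y‖ ^ 2 + 4 * ∑ s, (avgOcc L c s : ℝ) * ψ s y ^ 2))) ∧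
      (∀ α β, α ≠ β → ∃ s, occ α s ≠ occ β s) ∧ (∀ α, ∃ s, 1 ≤ occ α s) ∧
      (∀ α (x : Fin (n + 1) → Sp d) s, {i | x i ∈ Aset (m, s)}.ncard ≠ occ α s →
        Ψ α x = 0 ∧ ∀ i a, D α i a x = 0) ∧
      (∀ α (x : Fin (n + 1) → Sp d) (p : Fin 3 × Fin (L + 1)), p.1 = m + 2 →
        {i | x i ∈ Aset p}.ncard ≠ 0 → Ψ α x = 0 ∧ ∀ i a, D α i a x = 0) := by
  classical
  obtain ⟨𝒮, i𝒮, q₀, SS, hq0, hq1', hqcard, hqm, hqpair, hqsupp⟩ := rounding lam hlam M' hsum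
  have hcard𝒮 : Fintype.card 𝒮 ≤ c ^ L := hqsupp.trans hcap
  obtain ⟨occ, hocc1, hocc2, hocc3, hocc4⟩ := codes (S := 𝒮) L c hL hcard𝒮
  let J : 𝒮 × Bool → Type := fun α => {k // k ∈ SS α.1} ⊕ (Σ s : Fin (L + 1), Fin (occ α s))
  have hJcard : ∀ α, Fintype.card (J α) = n + 1 := by
    intro α
    have : Fintype.card (J α) = Fintype.card ({k // k ∈ SS α.1}) +
      Fintype.card (Σ s : Fin (L + 1), Fin (occ α s)) := Fintype.card_sum
    rw [this]
    simp only [Fintype.card_sigma, Fintype.card_fin, Fintype.card_coe]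
    rw [hocc2, hqcard, hcount]
  let orb : (α : 𝒮 × Bool) → J α → Sp d → ℂ := fun α =>
    Sum.elim (fun k : {k // k ∈ SS α.1} => φ k) (fun j : Σ s : Fin (L + 1), Fin (occ α s) =>
      u j.1 (occ α j.1) j.2)
  let Dorb : (α : 𝒮 × Bool) → J α → Fin d → Sp d → ℂ := fun α =>
    Sum.elim (fun k : {k // k ∈ SS α.1} => Dφ k) (fun j : Σ s : Fin (L + 1), Fin (occ α s) =>
      Du j.1 (occ α j.1) j.2)
  have hm2 : m ≠ m + 2 := by fin_cases m <;> decide
  have horbH : ∀ α j, IsH1 (orb α j) (Dorb α j) := by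
    rintro α (k | j)
    · exact hH k
    · exact hu _ _ _
  have horbON : ∀ α, ON (orb α) := by
    intro α
    refine ⟨fun j => (horbH α j).memLp, ?_⟩
    rintro (k | j) (l | i)
    · have h1 : ∫ x, star (orb α (Sum.inl k) x) * orb α (Sum.inl l) x =
        if (k : κ) = l then 1 else 0 := hON.2 k l
      rw [h1]
      by_cases hkl : k = l
      · rw [if_pos (congrArg Subtype.val hkl), if_pos (congrArg Sum.inl hkl)]
      · rw [if_neg (fun h => hkl (Subtype.ext h)), if_neg (fun h => hkl (Sum.inl.inj h))]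
    · rw [if_neg Sum.inl_ne_inr]
      have : ∀ x, star (orb α (Sum.inl k) x) * orb α (Sum.inr i) x = 0 := by
        intro x
        by_cases hx : x ∈ Aset (m, i.1)
        · have h1 : orb α (Sum.inl k) x = 0 := (hvan (m, i.1) (Or.inl rfl) x hx k).1
          rw [h1]; simp
        · have h1 : orb α (Sum.inr i) x = 0 := (huA _ _ _ x hx).1
          rw [h1, mul_zero]
      simp only [this, integral_zero]
    · rw [if_neg Sum.inr_ne_inl]
      have : ∀ x, star (orb α (Sum.inr j) x) * orb α (Sum.inl l) x = 0 := by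
        intro x
        by_cases hx : x ∈ Aset (m, j.1)
        · have h1 : orb α (Sum.inl l) x = 0 := (hvan (m, j.1) (Or.inl rfl) x hx l).1
          rw [h1, mul_zero]
        · have h1 : orb α (Sum.inr j) x = 0 := (huA _ _ _ x hx).1
          rw [h1]; simp
      simp only [this, integral_zero]
    · obtain ⟨s, j⟩ := j
      obtain ⟨s', i⟩ := i
      by_cases hs : s = s'
      · subst hs
        have h1 : ∫ x, star (orb α (Sum.inr ⟨s, j⟩) x) * orb α (Sum.inr ⟨s, i⟩) x =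
          if j = i then 1 else 0 := (huON s (occ α s)).2 j i
        rw [h1]
        by_cases hji : j = i
        · rw [if_pos hji, if_pos (by rw [hji])]
        · rw [if_neg hji, if_neg]
          intro h
          have h2 := Sum.inr.inj h
          rw [Sigma.mk.inj_iff] at h2
          exact hji (eq_of_heq h2.2)
      · rw [if_neg (by
          intro h
          have h2 := Sum.inr.inj h
          rw [Sigma.mk.inj_iff] at h2
          exact hs h2.1)]
        have : ∀ x, star (orb α (Sum.inr ⟨s, j⟩) x) * orb α (Sum.inr ⟨s', i⟩) x = 0 := by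
          intro x
          by_cases hx : x ∈ Aset (m, s)
          · have hx' : x ∉ Aset (m, s') := fun h' =>
              Set.disjoint_left.1 (hdisj (m, s) (m, s') (by simp [hs])) hx h'
            have h1 : orb α (Sum.inr ⟨s', i⟩) x = 0 := (huA _ _ _ x hx').1
            rw [h1, mul_zero]
          · have h1 : orb α (Sum.inr ⟨s, j⟩) x = 0 := (huA _ _ _ x hx).1
            rw [h1]; simp
        simp only [this, integral_zero]
  choose Ψ D hst hdens hkin hpair hzero using fun α =>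
    slater_state (hJcard α) (orb α) (Dorb α) (horbH α) (horbON α)
  -- label densities
  have hlab : ∀ α x, ∑ j : (Σ s : Fin (L + 1), Fin (occ α s)), ‖u j.1 (occ α j.1) j.2 x‖ ^ 2
      = ∑ s, (occ α s : ℝ) * ψ s x ^ 2 := by
    intro α x
    rw [Fintype.sum_sigma]
    refine Finset.sum_congr rfl fun s _ => ?_
    simp only [huψ]
    rw [Finset.sum_const, Finset.card_univ, Fintype.card_fin, nsmul_eq_mul]
  have hmain : ∀ (α : 𝒮 × Bool) (g : κ → ℝ),
      ∑ k : {k // k ∈ SS α.1}, g k = ∑ k ∈ SS α.1, g k := fun α g =>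
    Finset.sum_coe_sort (SS α.1) g
  have hdensα : ∀ α x, ∑ j, ‖orb α j x‖ ^ 2 = (∑ k ∈ SS α.1, ‖φ k x‖ ^ 2)
      + ∑ s, (occ α s : ℝ) * ψ s x ^ 2 := by
    intro α x
    rw [← hlab, ← hmain α (fun k => ‖φ k x‖ ^ 2)]
    exact Fintype.sum_sum_type _
  have hoccR : ∀ z s, (occ (z, true) s : ℝ) + occ (z, false) s = 2 * avgOcc L c s := by
    intro z s
    exact_mod_cast hocc1 z s
  have hoccle : ∀ α s, (occ α s : ℝ) ≤ 2 * avgOcc L c s := by
    rintro ⟨z, b⟩ s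
    have h1 := hoccR z s
    have h2 : (0 : ℝ) ≤ occ (z, true) s := Nat.cast_nonneg _
    have h3 : (0 : ℝ) ≤ occ (z, false) s := Nat.cast_nonneg _
    cases b <;> linarith
  have hqn : ∀ α : 𝒮 × Bool, 0 ≤ q₀ α.1 / 2 := fun α => by have := hq0 α.1; positivity
  refine ⟨𝒮 × Bool, inferInstance, fun α => q₀ α.1 / 2, occ, Ψ, D, hqn, ?_, hst, ?_, ?_, ?_,
    hocc3, hocc4, ?_, ?_⟩
  · rw [Fintype.sum_prod_type]
    simp only [Fintype.sum_bool]
    simp_rw [add_halves]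
    exact hq1'
  · -- density
    intro x
    simp_rw [hdens, hdensα]
    rw [Fintype.sum_prod_type]
    simp only [Fintype.sum_bool]
    have h1 : ∀ z : 𝒮, q₀ z / 2 * (∑ k ∈ SS z, ‖φ k x‖ ^ 2
          + ∑ s, (occ (z, true) s : ℝ) * ψ s x ^ 2)
        + q₀ z / 2 * (∑ k ∈ SS z, ‖φ k x‖ ^ 2 + ∑ s, (occ (z, false) s : ℝ) * ψ s x ^ 2)
        = q₀ z * (∑ k ∈ SS z, ‖φ k x‖ ^ 2)
          + q₀ z * ∑ s, (avgOcc L c s : ℝ) * ψ s x ^ 2 := by
      intro z
      have h2 : (∑ s, (occ (z, true) s : ℝ) * ψ s x ^ 2) + ∑ s, (occ (z, false) s : ℝ) * ψ s x ^ 2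
          = 2 * ∑ s, (avgOcc L c s : ℝ) * ψ s x ^ 2 := by
        rw [← Finset.sum_add_distrib, Finset.mul_sum]
        refine Finset.sum_congr rfl fun s _ => ?_
        rw [← add_mul, hoccR]; ring
      linear_combination (q₀ z / 2) * h2
    simp_rw [h1]
    rw [Finset.sum_add_distrib, ← Finset.sum_mul, hq1', one_mul,
      hqm (fun k => ‖φ k x‖ ^ 2)]
  · -- kinetic
    have h1 : ∀ α, kinetic (D α) ≤ (∑ k ∈ SS α.1, dir (Dφ k))
        + (L + 1) * (C * (2 * L * (c + 1) : ℝ) ^ 3) := by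
      intro α
      rw [hkin, ← hmain α (fun k => dir (Dφ k))]
      have h0 : ∑ j, dir (Dorb α j) = (∑ k : {k // k ∈ SS α.1}, dir (Dφ k))
          + ∑ j : (Σ s : Fin (L + 1), Fin (occ α s)), dir (Du j.1 (occ α j.1) j.2) :=
        Fintype.sum_sum_type _
      rw [h0, Fintype.sum_sigma]
      refine add_le_add le_rfl ?_
      calc ∑ s, ∑ j, dir (Du s (occ α s) j) ≤ ∑ _s : Fin (L + 1), C * (2 * L * (c + 1) : ℝ) ^ 3 := by
            refine Finset.sum_le_sum fun s _ => (huE s _).trans ?_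
            have h2 : (occ α s : ℝ) ≤ 2 * L * (c + 1) := by
              have : occ α s ≤ 2 * L * (c + 1) := by
                rw [← hocc2 α]
                exact Finset.single_le_sum (f := fun s => occ α s) (fun _ _ => Nat.zero_le _)
                  (Finset.mem_univ s)
              exact_mod_cast this
            gcongr
        _ = _ := by simp
    calc ∑ α : 𝒮 × Bool, q₀ α.1 / 2 * kinetic (D α) ≤ ∑ α : 𝒮 × Bool, q₀ α.1 / 2 *
          ((∑ k ∈ SS α.1, dir (Dφ k)) + (L + 1) * (C * (2 * L * (c + 1) : ℝ) ^ 3)) :=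
          Finset.sum_le_sum fun α _ => mul_le_mul_of_nonneg_left (h1 α) (hqn α)
      _ = _ := by
          rw [Fintype.sum_prod_type]
          simp only [Fintype.sum_bool]
          have h2 : ∀ z : 𝒮, q₀ z / 2 * ((∑ k ∈ SS z, dir (Dφ k))
              + (L + 1) * (C * (2 * L * (c + 1) : ℝ) ^ 3))
              + q₀ z / 2 * ((∑ k ∈ SS z, dir (Dφ k))
              + (L + 1) * (C * (2 * L * (c + 1) : ℝ) ^ 3))
              = q₀ z * (∑ k ∈ SS z, dir (Dφ k))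
                + q₀ z * ((L + 1) * (C * (2 * L * (c + 1) : ℝ) ^ 3)) := by
            intro z; ring
          simp_rw [h2]
          rw [Finset.sum_add_distrib, ← Finset.sum_mul, hq1', one_mul,
            hqm (fun k => dir (Dφ k))]
  · -- pair energy
    simp_rw [fun α => hpair α W hW hWe]
    have hpt : ∀ x y, ∑ α : 𝒮 × Bool, (q₀ α.1 / 2) * pairDens (orb α) x y ≤
        (∑ k, lam k * ‖φ k x‖ ^ 2 + 4 * ∑ s, (avgOcc L c s : ℝ) * ψ s x ^ 2) *
           (∑ k, lam k * ‖φ k y‖ ^ 2 + 4 * ∑ s, (avgOcc L c s : ℝ) * ψ s y ^ 2) := by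
      intro x y
      have hle : ∀ (α : 𝒮 × Bool) x, ∑ s, (occ α s : ℝ) * ψ s x ^ 2 ≤
          2 * ∑ s, (avgOcc L c s : ℝ) * ψ s x ^ 2 := by
        intro α x
        rw [Finset.mul_sum]
        refine Finset.sum_le_sum fun s _ => ?_
        have := hoccle α s
        have h2 : 0 ≤ ψ s x ^ 2 := sq_nonneg _
        nlinarith
      refine mixed_pair lam (fun k => (hlam k).1.le) φ q₀ SS hq0 hq1' hqm hqpair
        (fun α => pairDens (orb α) x y) (fun α => ∑ s, (occ α s : ℝ) * ψ s x ^ 2)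
        (fun α => ∑ s, (occ α s : ℝ) * ψ s y ^ 2) _ _ x y (fun α => by positivity)
        (fun α => by positivity) (fun α => hle α x) (fun α => hle α y) (by positivity)
        (by positivity) fun α => ?_
      have h1 : pairDens (orb α) x y ≤ _ := pairDens_sum (fun k : {k // k ∈ SS α.1} => φ k)
        (fun j : Σ s : Fin (L + 1), Fin (occ α s) => u j.1 (occ α j.1) j.2) x y
      rw [hlab, hlab, hmain α (fun k => ‖φ k x‖ ^ 2), hmain α (fun k => ‖φ k y‖ ^ 2)] at h1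
      have h2 : pairDens (fun k : {k // k ∈ SS α.1} => φ k) x y =
          1 / 2 * ∑ k ∈ SS α.1, ∑ j ∈ SS α.1, ‖φ k x * φ j y - φ j x * φ k y‖ ^ 2 := by
        unfold pairDens
        congr 1
        rw [← hmain α (fun k => ∑ j ∈ SS α.1, ‖φ k x * φ j y - φ j x * φ k y‖ ^ 2)]
        refine Finset.sum_congr rfl fun k _ => ?_
        exact hmain α (fun j => ‖φ k x * φ j y - φ j x * φ k y‖ ^ 2)
      rw [h2] at h1
      exact h1
    calc ∑ α : 𝒮 × Bool, ENNReal.ofReal (q₀ α.1 / 2) * (2⁻¹ * ∫⁻ x, ∫⁻ y, W (x - y) *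
          ENNReal.ofReal (pairDens (orb α) x y))
        = 2⁻¹ * ∑ α : 𝒮 × Bool, ENNReal.ofReal (q₀ α.1 / 2) * (∫⁻ x, ∫⁻ y, W (x - y) *
          ENNReal.ofReal (pairDens (orb α) x y)) := by
          rw [Finset.mul_sum]
          refine Finset.sum_congr rfl fun α _ => ?_
          rw [mul_left_comm]
      _ ≤ 2⁻¹ * ∑ α : 𝒮 × Bool, ∫⁻ x, ∫⁻ y, ENNReal.ofReal (q₀ α.1 / 2) * (W (x - y) *
          ENNReal.ofReal (pairDens (orb α) x y)) := by
          gcongr with α _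
          refine (lintegral_const_mul_le _ _).trans (lintegral_mono fun x => ?_)
          exact lintegral_const_mul_le _ _
      _ ≤ 2⁻¹ * ∫⁻ x, ∫⁻ y, ∑ α : 𝒮 × Bool, ENNReal.ofReal (q₀ α.1 / 2) * (W (x - y) *
          ENNReal.ofReal (pairDens (orb α) x y)) := by
          gcongr
          refine (sum_lintegral_le _ _ _).trans (lintegral_mono fun x => ?_)
          exact sum_lintegral_le _ _ _
      _ ≤ _ := by
          gcongr with x y
          calc ∑ α : 𝒮 × Bool, ENNReal.ofReal (q₀ α.1 / 2) * (W (x - y) *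
                ENNReal.ofReal (pairDens (orb α) x y))
              = W (x - y) * ENNReal.ofReal (∑ α : 𝒮 × Bool, (q₀ α.1 / 2)
                * pairDens (orb α) x y) := by
                rw [ENNReal.ofReal_sum_of_nonneg, Finset.mul_sum]
                · refine Finset.sum_congr rfl fun α _ => ?_
                  rw [ENNReal.ofReal_mul (hqn α), mul_left_comm]
                · intro α _
                  refine mul_nonneg (hqn α) ?_
                  unfold pairDens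
                  positivity
            _ ≤ _ := by
                gcongr
                exact hpt x y
  · -- label slabs
    intro α x s hx
    refine hzero α (Aset (m, s)) (Finset.univ.filter fun j : J α => ∃ i, j = Sum.inr ⟨s, i⟩)
      ?_ ?_ x ?_
    · intro j hj y hy
      obtain ⟨i, rfl⟩ := (Finset.mem_filter.1 hj).2
      exact huA _ _ _ y hy
    · rintro (k | ⟨s', i⟩) hj y hy
      · exact hvan (m, s) (Or.inl rfl) y hy k
      · have hs : s ≠ s' := by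
          rintro rfl
          exact hj (Finset.mem_filter.2 ⟨Finset.mem_univ _, i, rfl⟩)
        exact huA _ _ _ y fun h' =>
          Set.disjoint_left.1 (hdisj (m, s) (m, s') (by simp [hs])) hy h'
    · have : (Finset.univ.filter fun j : J α => ∃ i, j = Sum.inr ⟨s, i⟩).card = occ α s := by
        have h1 : (Finset.univ.filter fun j : J α => ∃ i, j = Sum.inr ⟨s, i⟩)
            = (Finset.univ : Finset (Fin (occ α s))).image (fun i => (Sum.inr ⟨s, i⟩ : J α)) := by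
          ext j
          simp [eq_comm]
        rw [h1, Finset.card_image_of_injective, Finset.card_univ, Fintype.card_fin]
        intro i i' h
        have h2 := Sum.inr.inj h
        rw [Sigma.mk.inj_iff] at h2
        exact eq_of_heq h2.2
      rw [this]
      exact hx
  · intro α x p hp hx
    refine hzero α (Aset p) ∅ (fun j hj => absurd hj (Finset.notMem_empty j)) ?_ x
      (by simpa using hx)
    rintro (k | ⟨s', i⟩) - y hy
    · exact hvan p (Or.inr hp) y hy k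
    · exact huA _ _ _ y fun h' =>
        Set.disjoint_left.1 (hdisj p (m, s') (by
          intro h
          rw [h] at hp
          exact hm2 hp)) hy h'

end Pool.Agent.Helper1.LL
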