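import Pool.Agent.Helper1.LL.Masses
import Pool.Agent.Helper1.LL.ClassStates

/-!
# Construction of the states of one class
-/

open MeasureTheory Filter Topology
open scoped ENNReal

noncomputable section

namespace Pool.Agent.Helper1.LL

/-- core of slab `p` -/
def Aset {d L : ℕ} (τ : ℕ → ℝ) (a : Fin d) (p : Slab L) : Set (Sp d) :=
  {x | τ (3 * sidx p + 1) < x a ∧ x a < τ (3 * sidx p + 2)}

theorem Aset_disjoint {d L : ℕ} {τ : ℕ → ℝ} (hτ : StrictMono τ) (a : Fin d) (p q : Slab L)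
    (hpq : p ≠ q) : Disjoint (Aset τ a p) (Aset τ a q) := by
  rw [Set.disjoint_left]
  rintro x ⟨h1, h2⟩ ⟨h3, h4⟩
  have hne : sidx p ≠ sidx q := fun h => hpq (sidx_injective h)
  rcases Nat.lt_or_gt_of_ne hne with h | h
  · have : τ (3 * sidx p + 2) ≤ τ (3 * sidx q + 1) := hτ.monotone (by omega)
    linarith
  · have : τ (3 * sidx q + 2) ≤ τ (3 * sidx p + 1) := hτ.monotone (by omega)
    linarith

/-- label profile, normalised -/
def psiP {d L : ℕ} (τ : ℕ → ℝ) (a : Fin d) (φ : Sp d → ℝ) (p : Slab L) (x : Sp d) : ℝ :=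
  ((Real.sqrt (massZ τ a φ p))⁻¹ * zeP τ p (x a)) * φ x

theorem psiP_sq {d L : ℕ} {τ : ℕ → ℝ} {a : Fin d} {φ : Sp d → ℝ} {p : Slab L}
    (hm : 0 < massZ τ a φ p) (x : Sp d) :
    psiP τ a φ p x ^ 2 = (massZ τ a φ p)⁻¹ * (zeP τ p (x a) ^ 2 * φ x ^ 2) := by
  unfold psiP
  rw [mul_pow, mul_pow, inv_pow, Real.sq_sqrt hm.le]
  ring

theorem label_system {d L : ℕ} (hd : 1 ≤ d) (a : Fin d) {φ : Sp d → ℝ} {G : Fin d → Sp d → ℝ}
    (h : IsH1 φ G) {τ : ℕ → ℝ} (hτ : StrictMono τ)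
    (hpos : ∀ j, 0 < ∫ x in {x : Sp d | τ j < x a ∧ x a ≤ τ (j + 1)}, φ x ^ 2) :
    ∃ C : ℝ, 0 ≤ C ∧ ∃ (u : (p : Slab L) → (N : ℕ) → Fin N → Sp d → ℂ)
      (Du : (p : Slab L) → (N : ℕ) → Fin N → Fin d → Sp d → ℂ),
      (∀ p N j, IsH1 (u p N j) (Du p N j)) ∧ (∀ p N, ON (u p N)) ∧
      (∀ p N j x, ‖u p N j x‖ ^ 2 = psiP τ a φ p x ^ 2) ∧
      (∀ p N j, ∀ x ∉ Aset τ a p, u p N j x = 0 ∧ ∀ b, Du p N j b x = 0) ∧
      (∀ p N, ∑ j, dir (Du p N j) ≤ C * N ^ 3) := by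
  have hm : ∀ p : Slab L, 0 < massZ τ a φ p := massZ_pos hτ h.memLp a hpos
  have hg : ∀ p : Slab L, BC1 fun t => (Real.sqrt (massZ τ a φ p))⁻¹ * zeP τ p t := fun p =>
    (zeP_BC1 p).const_mul _
  have hψ : ∀ p : Slab L, IsH1 (psiP τ a φ p) _ := fun p => h.mul_profile (hg p) a
  have hψ1 : ∀ p : Slab L, ∫ x, psiP τ a φ p x ^ 2 = 1 := by
    intro p
    simp_rw [psiP_sq (hm p)]
    rw [integral_const_mul]
    exact inv_mul_cancel₀ (hm p).ne'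
  choose C hC hex using fun p : Slab L => Inputs.harriman hd _ _ (hψ p) (hψ1 p)
  choose u Du h1 h2 h3 h4 h5 using hex
  refine ⟨∑ p, C p, Finset.sum_nonneg fun p _ => hC p, u, Du, h1, h2, h3, ?_, ?_⟩
  · intro p N j x hx
    have hx' : x a ≤ τ (3 * sidx p + 1) ∨ τ (3 * sidx p + 2) ≤ x a := by
      by_contra hcon
      rw [not_or, not_le, not_le] at hcon
      exact hx hcon
    have hz : zeP τ p (x a) = 0 := ze_eq_zero hx'
    have hz' : (Real.sqrt (massZ τ a φ p))⁻¹ * zeP τ p (x a) = 0 := by rw [hz, mul_zero]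
    have hdz : deriv (fun t => (Real.sqrt (massZ τ a φ p))⁻¹ * zeP τ p t) (x a) = 0 := by
      refine BC1.deriv_eq_zero (fun t => ?_) hz'
      have := (zeP_mem (τ := τ) p t).1
      positivity
    refine h4 p N x ?_ ?_ j
    · unfold psiP
      rw [hz', zero_mul]
    · intro b
      simp only
      rw [hz', hdz]
      simp
  · intro p N
    refine (h5 p N).trans ?_
    have : C p ≤ ∑ p, C p := Finset.single_le_sum (f := C) (fun p _ => hC p) (Finset.mem_univ p)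
    gcongr

/-- the conclusion of the Bessel-system construction -/
def BesselProp (d : ℕ) (η B C N₀ : ℝ) (A : ℕ) : Prop :=
  ∀ (φ : Sp d → ℝ) (G : Fin d → Sp d → ℝ), IsH1 φ G → (∀ x, 0 ≤ φ x) →
    ∫ x, φ x ^ 2 ≤ 1 →
    MemLp φ (ENNReal.ofReal (2 + 4 / d)) volume → ∫ x, φ x ^ (2 + 4 / d : ℝ) ≤ B →
    ∀ N : ℝ, N₀ ≤ N →
    ∃ (R : ℕ) (v : Fin R → Sp d → ℂ) (Dv : Fin R → Fin d → Sp d → ℂ),
      (∀ i, IsH1 (v i) (Dv i)) ∧
      (∀ x, ∑ i, ‖v i x‖ ^ 2 = N * φ x ^ 2) ∧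
      (∀ x, φ x = 0 → (∀ a, G a x = 0) → ∀ i, v i x = 0 ∧ ∀ a, Dv i a x = 0) ∧
      (∀ ψ : Sp d → ℂ, MemLp ψ 2 volume →
        ∑ i, ‖∫ x, star (v i x) * ψ x‖ ^ 2 ≤ ∫ x, ‖ψ x‖ ^ 2) ∧
      (∑ i, dir (Dv i) ≤
        (1 + η) * Kcl d * N ^ (1 + 2 / d : ℝ) * ((∫ x, φ x ^ (2 + 4 / d : ℝ)) + η)
          + C * N * (1 + dir G)) ∧
      ((R : ℝ) ≤ C * N ^ A)

/-- `δ_p` -/
def delP {d L : ℕ} (c n : ℕ) (τ : ℕ → ℝ) (a : Fin d) (φ : Sp d → ℝ) (p : Slab L) : ℝ :=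
  avgOcc L c p.2 / (3 * (n + 1) * massZ τ a φ p)

/-- main part of class `m` -/
def phiM {d L : ℕ} (τ : ℕ → ℝ) (a : Fin d) (φ : Sp d → ℝ) (δ : Slab L → ℝ) (m : Fin 3)
    (x : Sp d) : ℝ := hP τ (ampA L τ a φ) δ m (x a) * φ x

theorem class_build {d n : ℕ} (a : Fin d) (L c : ℕ) (hL : 1 ≤ L)
    {φ : Sp d → ℝ} {G : Fin d → Sp d → ℝ} (h : IsH1 φ G) (hφ0 : ∀ x, 0 ≤ φ x)
    (hφ1 : ∫ x, φ x ^ 2 = 1) {τ : ℕ → ℝ} (hτ : StrictMono τ)
    (hpos : ∀ j, 0 < ∫ x in {x : Sp d | τ j < x a ∧ x a ≤ τ (j + 1)}, φ x ^ 2)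
    (hβ : ∫ x in slabReg L τ a, φ x ^ 2 < 1 / 3)
    (hI : MemLp φ (ENNReal.ofReal (2 + 4 / d)) volume)
    {η B C N₀ : ℝ} {Aexp : ℕ} (hbes : BesselProp d η B C N₀ Aexp) (hC : 0 ≤ C)
    (hB : (3 : ℝ) ^ (1 + 2 / d : ℝ) * ∫ x, φ x ^ (2 + 4 / d : ℝ) ≤ B)
    (hN₀ : N₀ ≤ n + 1) {K : ℝ}
    (hK : ∀ (δ : Slab L → ℝ), (∀ p, 0 ≤ δ p) → ∑ p, δ p ≤ 1 / 2 → ∀ m,
      ContDiff ℝ 1 (hP τ (ampA L τ a φ) δ m) ∧ ∀ t, |hP τ (ampA L τ a φ) δ m t| ≤ K ∧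
        |deriv (hP τ (ampA L τ a φ) δ m) t| ≤ K)
    {Ch : ℝ} (hCh : 0 ≤ Ch) (u : (p : Slab L) → (N : ℕ) → Fin N → Sp d → ℂ)
    (Du : (p : Slab L) → (N : ℕ) → Fin N → Fin d → Sp d → ℂ)
    (hu : ∀ p N j, IsH1 (u p N j) (Du p N j)) (huON : ∀ p N, ON (u p N))
    (huψ : ∀ p N j x, ‖u p N j x‖ ^ 2 = psiP τ a φ p x ^ 2)
    (huA : ∀ p N j, ∀ x ∉ Aset τ a p, u p N j x = 0 ∧ ∀ b, Du p N j b x = 0)
    (huE : ∀ p N, ∑ j, dir (Du p N j) ≤ Ch * N ^ 3)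
    (hδ1 : ∑ p : Slab L, delP c n τ a φ p ≤ 1 / 2)
    (hcount : 2 * L * (c + 1) ≤ n + 1)
    (hcap : (C * (n + 1 : ℝ) ^ Aexp + 1) ^ 2 + 1 ≤ (c : ℝ) ^ L)
    (W : Sp d → ℝ≥0∞) (hW : Measurable W) (hWe : ∀ z, W (-z) = W z) (m : Fin 3) :
    ∃ (𝒞 : Type) (_ : Fintype 𝒞) (q : 𝒞 → ℝ) (occ : 𝒞 → Fin (L + 1) → ℕ)
      (Ψ : 𝒞 → (Fin (n + 1) → Sp d) → ℂ)
      (D : 𝒞 → Fin (n + 1) → Fin d → (Fin (n + 1) → Sp d) → ℂ),
      (∀ α, 0 ≤ q α) ∧ ∑ α, q α = 1 ∧ (∀ α, IsFermionState (Ψ α) (D α)) ∧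
      (∀ᵐ x, ∑ α, q α * density (Ψ α) x
        = (n + 1) * phiM τ a φ (delP (L := L) c n τ a φ) m x ^ 2
          + ∑ s, (avgOcc L c s : ℝ) * psiP τ a φ (m, s) x ^ 2) ∧
      (∑ α, q α * kinetic (D α) ≤ (1 + η) * Kcl d * (n + 1 : ℝ) ^ (1 + 2 / d : ℝ) *
            ((∫ x, phiM τ a φ (delP (L := L) c n τ a φ) m x ^ (2 + 4 / d : ℝ)) + η)
          + C * (n + 1) * (1 + 2 * K ^ 2 * (dir G + 1))
        + (L + 1) * (Ch * (2 * L * (c + 1) : ℝ) ^ 3)) ∧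
      (∑ α, ENNReal.ofReal (q α) * pairEnergy W (Ψ α) ≤
        2⁻¹ * ∫⁻ x, ∫⁻ y, W (x - y) * ENNReal.ofReal
          (((n + 1) * phiM τ a φ (delP (L := L) c n τ a φ) m x ^ 2
              + 4 * ∑ s, (avgOcc L c s : ℝ) * psiP τ a φ (m, s) x ^ 2) *
           ((n + 1) * phiM τ a φ (delP (L := L) c n τ a φ) m y ^ 2
              + 4 * ∑ s, (avgOcc L c s : ℝ) * psiP τ a φ (m, s) y ^ 2))) ∧
      (∀ α β, α ≠ β → ∃ s, occ α s ≠ occ β s) ∧ (∀ α, ∃ s, 1 ≤ occ α s) ∧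
      (∀ α (x : Fin (n + 1) → Sp d) s, {i | x i ∈ Aset τ a (m, s)}.ncard ≠ occ α s →
        Ψ α x = 0 ∧ ∀ i a, D α i a x = 0) ∧
      (∀ α (x : Fin (n + 1) → Sp d) (p : Slab L), p.1 = m + 2 →
        {i | x i ∈ Aset τ a p}.ncard ≠ 0 → Ψ α x = 0 ∧ ∀ i a, D α i a x = 0) := by
  classical
  have hA := ampA_pos (L := L) hτ h.memLp a hβ
  have hA1 := ampA_sum (L := L) hτ h.memLp a hβ
  have hm : ∀ p : Slab L, 0 < massZ τ a φ p := massZ_pos hτ h.memLp a hpos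
  have hNpos : (0 : ℝ) < n + 1 := by positivity
  set δ : Slab L → ℝ := delP c n τ a φ with hδdef
  have hδ : ∀ p, 0 ≤ δ p := fun p => by
    have := hm p
    rw [hδdef]; unfold delP; positivity
  obtain ⟨hKC, hKb⟩ := hK δ hδ hδ1 m
  have hBC : BC1 (hP τ (ampA L τ a φ) δ m) := ⟨hKC, K, hKb⟩
  set Gm : Fin d → Sp d → ℝ := fun b x => hP τ (ampA L τ a φ) δ m (x a) * G b x +
    (if b = a then deriv (hP τ (ampA L τ a φ) δ m) (x a) else 0) * φ x with hGm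
  have hH : IsH1 (phiM τ a φ δ m) Gm := h.mul_profile hBC a
  have hnn : ∀ x, 0 ≤ phiM τ a φ δ m x := fun x =>
    mul_nonneg (hP_nonneg hτ hA hA1 hδ hδ1 m _) (hφ0 x)
  -- mass
  have hmass : ∫ x, phiM τ a φ δ m x ^ 2 = 1 - 2 * L * (c + 1) / (n + 1) := by
    have h1 := integral_hP (L := L) hτ h.memLp hφ1 a hβ hδ hδ1 m
    unfold phiM
    rw [h1]
    have h2 : ∀ p : Slab L, (if p.1 = m + 1 then δ p * massZ τ a φ p else 0)
        = if p.1 = m + 1 then (avgOcc L c p.2 : ℝ) / (3 * (n + 1)) else 0 := by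
      intro p
      split_ifs
      · rw [hδdef]
        unfold delP
        have := (hm p).ne'
        field_simp
      · rfl
    simp_rw [h2]
    rw [Fintype.sum_prod_type]
    have h3 : ∀ m' : Fin 3, (∑ s : Fin (L + 1), if m' = m + 1 then
        (avgOcc L c s : ℝ) / (3 * (n + 1)) else 0)
        = if m' = m + 1 then (2 * L * (c + 1) : ℝ) / (3 * (n + 1)) else 0 := by
      intro m'
      split_ifs
      · rw [← Finset.sum_div]
        congr 1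
        exact_mod_cast sum_avgOcc L c
      · simp
    simp only [h3]
    rw [Finset.sum_ite_eq' Finset.univ (m + 1), if_pos (Finset.mem_univ _)]
    field_simp
  have hpowle : ∀ x, phiM τ a φ δ m x ^ (2 + 4 / d : ℝ) ≤
      (3 : ℝ) ^ (1 + 2 / d : ℝ) * φ x ^ (2 + 4 / d : ℝ) := by
    intro x
    unfold phiM
    have h1 := hP_nonneg (L := L) hτ hA hA1 hδ hδ1 m (x a)
    rw [Real.mul_rpow h1 (hφ0 x)]
    refine mul_le_mul_of_nonneg_right ?_ (Real.rpow_nonneg (hφ0 x) _)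
    have h2 : hP τ (ampA L τ a φ) δ m (x a) ^ (2 + 4 / d : ℝ)
        = (hP τ (ampA L τ a φ) δ m (x a) ^ 2) ^ (1 + 2 / d : ℝ) := by
      rw [← Real.rpow_natCast, ← Real.rpow_mul h1]
      congr 1
      push_cast
      ring
    rw [h2]
    exact Real.rpow_le_rpow (sq_nonneg _) (hP_sq_le_three hτ hA hA1 hδ hδ1 m (x a))
      (by positivity)
  have hexp : (0 : ℝ) < 2 + 4 / d := by positivity
  have hIint : Integrable fun x => φ x ^ (2 + 4 / d : ℝ) := by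
    have h1 := hI.integrable_norm_rpow (by simpa using hexp) ENNReal.ofReal_ne_top
    rw [ENNReal.toReal_ofReal hexp.le] at h1
    refine h1.congr (Eventually.of_forall fun x => ?_)
    simp only [Real.norm_eq_abs, abs_of_nonneg (hφ0 x)]
  have hmem : MemLp (phiM τ a φ δ m) (ENNReal.ofReal (2 + 4 / d)) volume := by
    refine MemLp.of_le_mul (c := K) hI hH.memLp.aestronglyMeasurable
      (Eventually.of_forall fun x => ?_)
    unfold phiM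
    rw [norm_mul]
    exact mul_le_mul_of_nonneg_right (hKb _).1 (norm_nonneg _)
  have hintle : ∫ x, phiM τ a φ δ m x ^ (2 + 4 / d : ℝ) ≤ B := by
    refine le_trans ?_ hB
    rw [← integral_const_mul]
    exact integral_mono_of_nonneg (Eventually.of_forall fun x => Real.rpow_nonneg (hnn x) _)
      (hIint.const_mul _) (Eventually.of_forall hpowle)
  obtain ⟨R, v, Dv, hv1, hv2, hv3, hv4, hv5, hv6⟩ := hbes (phiM τ a φ δ m) Gm hH hnn
    (by rw [hmass]; have : (0 : ℝ) ≤ 2 * L * (c + 1) / (n + 1) := by positivity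
        linarith) hmem hintle (n + 1) hN₀
  obtain ⟨κ, iκ, iκ', φκ, Dφκ, lam, hk1, hk2, hk3, hk4, hk5, hk6, hk7⟩ := diagonalize v Dv hv1 hv4
  -- trace
  have hsum : ∑ k, lam k = ((n + 1 - 2 * L * (c + 1) : ℕ) : ℝ) := by
    have h1 : ∫ x, ∑ k, lam k * ‖φκ k x‖ ^ 2 = ∑ k, lam k := by
      rw [integral_finsetSum _ fun k _ => ((hk4.1 k).norm.integrable_sq).const_mul _]
      refine Finset.sum_congr rfl fun k _ => ?_
      rw [integral_const_mul]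
      have h2 := hk4.2 k k
      rw [if_pos rfl] at h2
      have h3 : ∫ x, ‖φκ k x‖ ^ 2 = 1 := by
        have h4 : ∀ x, star (φκ k x) * φκ k x = ((‖φκ k x‖ ^ 2 : ℝ) : ℂ) := by
          intro x
          rw [Complex.star_def, mul_comm, Complex.mul_conj, Complex.normSq_eq_norm_sq]
        simp_rw [h4] at h2
        rw [integral_complex_ofReal] at h2
        exact_mod_cast h2
      rw [h3, mul_one]
    rw [← h1]
    have h2 : ∫ x, ∑ k, lam k * ‖φκ k x‖ ^ 2 = ∫ x, (n + 1) * phiM τ a φ δ m x ^ 2 := by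
      refine integral_congr_ae ?_
      filter_upwards [hk5] with x hx
      rw [hx, hv2]
    rw [h2, integral_const_mul, hmass, Nat.cast_sub hcount]
    push_cast
    field_simp
  have hcap' : (Fintype.card κ + 1) ^ 2 + 1 ≤ c ^ L := by
    have h1 : (Fintype.card κ : ℝ) ≤ C * (n + 1 : ℝ) ^ Aexp := by
      refine le_trans ?_ hv6
      exact_mod_cast hk1
    have h2 : ((Fintype.card κ : ℝ) + 1) ^ 2 + 1 ≤ (c : ℝ) ^ L := by
      refine le_trans ?_ hcap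
      gcongr
    exact_mod_cast h2
  have hvan : ∀ p : Slab L, p.1 = m ∨ p.1 = m + 2 → ∀ x ∈ Aset τ a p, ∀ k,
      φκ k x = 0 ∧ ∀ b, Dφκ k b x = 0 := by
    intro p hp x hx
    have h1 : hP τ (ampA L τ a φ) δ m (x a) = 0 := hP_core hτ hA hA1 hδ hδ1 hp hx.1 hx.2
    have h2 : deriv (hP τ (ampA L τ a φ) δ m) (x a) = 0 :=
      BC1.deriv_eq_zero (fun t => hP_nonneg hτ hA hA1 hδ hδ1 m t) h1
    refine hk7 x (hv3 x ?_ ?_)
    · unfold phiM; rw [h1, zero_mul]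
    · intro b
      rw [hGm]
      simp only
      rw [h1, h2]
      simp
  obtain ⟨𝒞, i𝒞, q, occ, Ψ, D, hq0, hq1, hst, hden, hkin, hpe, ho1, ho2, ho3, ho4⟩ :=
    class_states L c hL (Aset τ a) (Aset_disjoint hτ a) m φκ Dφκ lam hk2 hk3 hk4
      (n + 1 - 2 * L * (c + 1)) hsum (Nat.sub_add_cancel hcount) hcap' hvan
      (fun s => psiP τ a φ (m, s)) (fun s => u (m, s)) (fun s => Du (m, s))
      (fun s => hu (m, s)) (fun s => huON (m, s)) (fun s => huψ (m, s)) (fun s => huA (m, s))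
      Ch hCh (fun s => huE (m, s)) W hW hWe
  refine ⟨𝒞, i𝒞, q, occ, Ψ, D, hq0, hq1, hst, ?_, ?_, ?_, ho1, ho2, ho3, ho4⟩
  · filter_upwards [hk5] with x hx
    rw [hden, hx, hv2]
  · refine hkin.trans (add_le_add ?_ le_rfl)
    refine hk6.trans (hv5.trans (add_le_add le_rfl ?_))
    have h1 : dir Gm ≤ 2 * K ^ 2 * (dir G + 1) := by
      have := dir_profile_le h hKC hKb a
      rwa [hφ1] at this
    gcongr
  · refine hpe.trans (le_of_eq ?_)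
    congr 1
    refine lintegral_congr_ae ?_
    filter_upwards [hk5] with x hx
    refine lintegral_congr_ae ?_
    filter_upwards [hk5] with y hy
    rw [hx, hy, hv2, hv2]

end Pool.Agent.Helper1.LL
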