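import Pool.Agent.Helper1.LL.ClassBuild

/-!
# Superposition of the three classes, and choice of parameters
-/

open MeasureTheory Filter Topology
open scoped ENNReal

noncomputable section

namespace Pool.Agent.Helper1.LL

theorem super_pairEnergy {d n : ℕ} {𝒜 : Type*} [Fintype 𝒜] {q : 𝒜 → ℝ}
    {Ψ : 𝒜 → (Fin (n + 1) → Sp d) → ℂ}
    {D : 𝒜 → Fin (n + 1) → Fin d → (Fin (n + 1) → Sp d) → ℂ}
    (hq : ∀ α, 0 ≤ q α) (hdis : DisjSupp Ψ D)
    (hst : ∀ α, IsFermionState (Ψ α) (D α)) {W : Sp d → ℝ≥0∞} (hW : Measurable W) :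
    pairEnergy W (superΨ q Ψ) = ∑ α, ENNReal.ofReal (q α) * pairEnergy W (Ψ α) := by
  unfold pairEnergy
  have hm : Measurable (fun x : Fin (n + 1) → Sp d => ∑ i, ∑ j ∈ Finset.Ioi i, W (x i - x j)) := by
    refine Finset.measurable_fun_sum _ fun i _ => Finset.measurable_fun_sum _ fun j _ => ?_
    exact hW.comp ((measurable_pi_apply i).sub (measurable_pi_apply j))
  have h1 : ∀ x, ENNReal.ofReal (‖superΨ q Ψ x‖ ^ 2)
      = ∑ α, ENNReal.ofReal (q α) * ENNReal.ofReal (‖Ψ α x‖ ^ 2) := by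
    intro x
    rw [superΨ_norm_sq hq hdis, ENNReal.ofReal_sum_of_nonneg fun α _ =>
      mul_nonneg (hq α) (sq_nonneg _)]
    refine Finset.sum_congr rfl fun α _ => ?_
    rw [ENNReal.ofReal_mul (hq α)]
  simp_rw [h1, Finset.mul_sum]
  rw [lintegral_finsetSum' _ fun α _ => ?_]
  · refine Finset.sum_congr rfl fun α _ => ?_
    rw [← lintegral_const_mul'' _ ?_]
    · refine lintegral_congr fun x => ?_
      ring
    · exact hm.aemeasurable.mul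
        (((hst α).memLp.aestronglyMeasurable.norm.aemeasurable.pow_const 2).ennreal_ofReal)
  · exact hm.aemeasurable.mul
      ((((hst α).memLp.aestronglyMeasurable.norm.aemeasurable.pow_const 2).ennreal_ofReal).const_mul _)

theorem three_classes {d n L : ℕ} (As : Slab L → Set (Sp d)) (𝒞 : Fin 3 → Type)
    [∀ m, Fintype (𝒞 m)] (q : ∀ m, 𝒞 m → ℝ) (occ : ∀ m, 𝒞 m → Fin (L + 1) → ℕ)
    (Ψ : ∀ m, 𝒞 m → (Fin (n + 1) → Sp d) → ℂ)
    (D : ∀ m, 𝒞 m → Fin (n + 1) → Fin d → (Fin (n + 1) → Sp d) → ℂ)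
    (hq0 : ∀ m α, 0 ≤ q m α) (hq1 : ∀ m, ∑ α, q m α = 1)
    (hst : ∀ m α, IsFermionState (Ψ m α) (D m α))
    (ho1 : ∀ m α β, α ≠ β → ∃ s, occ m α s ≠ occ m β s) (ho2 : ∀ m α, ∃ s, 1 ≤ occ m α s)
    (ho3 : ∀ m α (x : Fin (n + 1) → Sp d) s, {i | x i ∈ As (m, s)}.ncard ≠ occ m α s →
        Ψ m α x = 0 ∧ ∀ i a, D m α i a x = 0)
    (ho4 : ∀ m α (x : Fin (n + 1) → Sp d) (p : Slab L), p.1 = m + 2 →
        {i | x i ∈ As p}.ncard ≠ 0 → Ψ m α x = 0 ∧ ∀ i a, D m α i a x = 0) :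
    ∃ (Ψ' : (Fin (n + 1) → Sp d) → ℂ) (D' : Fin (n + 1) → Fin d → (Fin (n + 1) → Sp d) → ℂ),
      IsFermionState Ψ' D' ∧
      (density Ψ' =ᵐ[volume] fun x => (1 / 3) * ∑ m, ∑ α, q m α * density (Ψ m α) x) ∧
      (kinetic D' = (1 / 3) * ∑ m, ∑ α, q m α * kinetic (D m α)) ∧
      (∀ W : Sp d → ℝ≥0∞, Measurable W → pairEnergy W Ψ' =
        3⁻¹ * ∑ m, ∑ α, ENNReal.ofReal (q m α) * pairEnergy W (Ψ m α)) := by
  classical
  let q' : (Σ m, 𝒞 m) → ℝ := fun α => (1 / 3) * q α.1 α.2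
  let Ψ₁ : (Σ m, 𝒞 m) → (Fin (n + 1) → Sp d) → ℂ := fun α => Ψ α.1 α.2
  let D₁ : (Σ m, 𝒞 m) → Fin (n + 1) → Fin d → (Fin (n + 1) → Sp d) → ℂ := fun α => D α.1 α.2
  have hq0' : ∀ α, 0 ≤ q' α := fun α => mul_nonneg (by norm_num) (hq0 _ _)
  have hq1' : ∑ α, q' α = 1 := by
    rw [Fintype.sum_sigma]
    simp only [q', ← Finset.mul_sum, hq1]
    simp
  have hst' : ∀ α, IsFermionState (Ψ₁ α) (D₁ α) := fun α => hst _ _
  have hcross : ∀ (m : Fin 3) (α : 𝒞 m) (β : 𝒞 (m + 2)) (x : Fin (n + 1) → Sp d),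
      (Ψ m α x = 0 ∧ ∀ i a, D m α i a x = 0) ∨
        (Ψ (m + 2) β x = 0 ∧ ∀ i a, D (m + 2) β i a x = 0) := by
    intro m α β x
    obtain ⟨s, hs⟩ := ho2 (m + 2) β
    by_cases h0 : {i | x i ∈ As (m + 2, s)}.ncard = 0
    · right
      refine ho3 (m + 2) β x s ?_
      rw [h0]
      omega
    · exact Or.inl (ho4 m α x (m + 2, s) rfl h0)
  have hdis : DisjSupp Ψ₁ D₁ := by
    rintro ⟨m, α⟩ ⟨m', β⟩ hne x
    by_cases hmm : m = m'
    · subst hmm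
      have hab : α ≠ β := fun h => hne (by rw [h])
      obtain ⟨s, hs⟩ := ho1 m α β hab
      by_cases h0 : {i | x i ∈ As (m, s)}.ncard = occ m α s
      · right
        refine ho3 m β x s ?_
        rw [h0]
        exact hs
      · exact Or.inl (ho3 m α x s h0)
    · have h3 : m' = m + 2 ∨ m = m' + 2 := by
        revert hmm
        clear * -
        revert m m'
        decide
      rcases h3 with h3 | h3
      · subst h3
        exact hcross m α β x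
      · subst h3
        exact (hcross m' β α x).symm
  refine ⟨superΨ q' Ψ₁, superD q' D₁, super_isFermionState hq0' hq1' hst' hdis, ?_, ?_, ?_⟩
  · filter_upwards [super_density hq0' hst' hdis] with x hx
    rw [hx, Fintype.sum_sigma, Finset.mul_sum]
    refine Finset.sum_congr rfl fun m _ => ?_
    rw [Finset.mul_sum]
    refine Finset.sum_congr rfl fun α _ => ?_
    simp only [q', Ψ₁]
    ring
  · rw [super_kinetic hq0' hst' hdis, Fintype.sum_sigma, Finset.mul_sum]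
    refine Finset.sum_congr rfl fun m _ => ?_
    rw [Finset.mul_sum]
    refine Finset.sum_congr rfl fun α _ => ?_
    simp only [q', D₁]
    ring
  · intro W hW
    rw [super_pairEnergy hq0' hdis hst' hW, Fintype.sum_sigma, Finset.mul_sum]
    refine Finset.sum_congr rfl fun m _ => ?_
    rw [Finset.mul_sum]
    refine Finset.sum_congr rfl fun α _ => ?_
    simp only [q', Ψ₁]
    rw [ENNReal.ofReal_mul (by norm_num), mul_assoc]
    congr 1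
    rw [one_div, ENNReal.ofReal_inv_of_pos (by norm_num)]
    norm_num

theorem params (A : ℕ) (S C Ch K' ε p : ℝ) (hS : 0 ≤ S) (hC : 0 ≤ C) (hCh : 0 ≤ Ch)
    (hε : 0 < ε) (hp : 1 < p) :
    ∃ N₁ : ℕ, ∀ n : ℕ, N₁ ≤ n → ∃ c : ℕ,
      (((6 * A + 6 : ℕ) : ℝ) * (c + 1)) * S / (3 * (n + 1)) ≤ 1 / 2 ∧
      2 * (6 * A + 6) * (c + 1) ≤ n + 1 ∧
      (C * (n + 1 : ℝ) ^ A + 1) ^ 2 + 1 ≤ (c : ℝ) ^ (6 * A + 6) ∧
      C * (n + 1) * K' + (((6 * A + 6 : ℕ) : ℝ) + 1) * (Ch * (2 * ((6 * A + 6 : ℕ) : ℝ) * (c + 1)) ^ 3)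
        ≤ ε * (n + 1 : ℝ) ^ p := by
  set L : ℕ := 6 * A + 6 with hL
  have hLpos : (0 : ℝ) < L := by rw [hL]; positivity
  have ht : Tendsto (fun n : ℕ => ((n : ℝ) + 1) ^ (1 / 3 : ℝ)) atTop atTop := by
    refine (tendsto_rpow_atTop (by norm_num)).comp ?_
    exact tendsto_atTop_add_const_right _ _ tendsto_natCast_atTop_atTop
  have hev : ∀ᶠ x : ℝ in atTop, 1 ≤ x ∧ 2 * L * S ≤ x ∧ 6 * L ≤ x ∧ (C + 1) ^ 2 + 1 ≤ x ∧
      (C * K' + (L + 1) * (Ch * (216 * (L : ℝ) ^ 3))) / ε ≤ x ^ (3 * (p - 1)) := by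
    refine (eventually_ge_atTop _).and ((eventually_ge_atTop _).and ((eventually_ge_atTop _).and
      ((eventually_ge_atTop _).and ?_)))
    exact (tendsto_rpow_atTop (by linarith)).eventually (eventually_ge_atTop _)
  obtain ⟨N₁, hN₁⟩ := eventually_atTop.1 (ht.eventually hev)
  refine ⟨N₁, fun n hn => ?_⟩
  obtain ⟨h1, h2, h3, h4, h5⟩ := hN₁ n hn
  set x : ℝ := ((n : ℝ) + 1) ^ (1 / 3 : ℝ) with hx
  have hx0 : 0 < x := by linarith
  have hx3 : x ^ 3 = (n : ℝ) + 1 := by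
    rw [hx, ← Real.rpow_natCast, ← Real.rpow_mul (by positivity)]
    norm_num
  refine ⟨⌈x⌉₊, ?_, ?_, ?_, ?_⟩
  · have hc1 : ((⌈x⌉₊ : ℕ) : ℝ) + 1 ≤ 3 * x := by
      have := Nat.ceil_lt_add_one hx0.le
      linarith
    rw [← hx3, div_le_div_iff₀ (by positivity) (by norm_num)]
    have h6 : x ≤ x ^ 2 := by nlinarith
    have h7 : (L : ℝ) * (⌈x⌉₊ + 1) * S ≤ L * (3 * x) * S := by gcongr
    have h8 : 2 * L * S ≤ x ^ 2 := h2.trans h6
    nlinarith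
  · have hc1 : ((⌈x⌉₊ : ℕ) : ℝ) + 1 ≤ 3 * x := by
      have := Nat.ceil_lt_add_one hx0.le
      linarith
    have h6 : ((2 * L * (⌈x⌉₊ + 1) : ℕ) : ℝ) ≤ ((n + 1 : ℕ) : ℝ) := by
      push_cast
      rw [← hx3]
      have h7 : x ≤ x ^ 2 := by nlinarith
      have h8 : 2 * (L : ℝ) * (⌈x⌉₊ + 1) ≤ 2 * L * (3 * x) := by gcongr
      have h9 : (6 * L : ℝ) * x ≤ x ^ 2 * x := by
        have : (6 * L : ℝ) ≤ x ^ 2 := h3.trans h7
        gcongr
      nlinarith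
    exact_mod_cast h6
  · have hcx : x ≤ ⌈x⌉₊ := Nat.le_ceil x
    calc (C * (n + 1 : ℝ) ^ A + 1) ^ 2 + 1 = (C * (x ^ 3) ^ A + 1) ^ 2 + 1 := by rw [hx3]
      _ ≤ ((C + 1) * x ^ (3 * A)) ^ 2 + x ^ (6 * A) := by
          rw [← pow_mul]
          have h6 : (1 : ℝ) ≤ x ^ (3 * A) := one_le_pow₀ h1
          have h7 : (1 : ℝ) ≤ x ^ (6 * A) := one_le_pow₀ h1
          have h8 : C * x ^ (3 * A) + 1 ≤ (C + 1) * x ^ (3 * A) := by nlinarith
          have h9 : 0 ≤ C * x ^ (3 * A) + 1 := by positivity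
          gcongr
      _ = ((C + 1) ^ 2 + 1) * x ^ (6 * A) := by ring
      _ ≤ x ^ 6 * x ^ (6 * A) := by
          have h6 : x ≤ x ^ 6 := le_self_pow₀ h1 (by norm_num)
          gcongr
          linarith
      _ = x ^ L := by rw [← pow_add, hL, add_comm]
      _ ≤ (⌈x⌉₊ : ℝ) ^ L := by gcongr
  · have hc1 : ((⌈x⌉₊ : ℕ) : ℝ) + 1 ≤ 3 * x := by
      have := Nat.ceil_lt_add_one hx0.le
      linarith
    have h6 : (n + 1 : ℝ) ^ p = x ^ 3 * x ^ (3 * (p - 1)) := by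
      rw [← hx3, ← Real.rpow_natCast, ← Real.rpow_mul hx0.le, ← Real.rpow_add hx0]
      congr 1
      push_cast
      ring
    rw [div_le_iff₀ hε] at h5
    calc C * (n + 1) * K' + ((L : ℝ) + 1) * (Ch * (2 * (L : ℝ) * (⌈x⌉₊ + 1)) ^ 3)
        ≤ C * (n + 1) * K' + ((L : ℝ) + 1) * (Ch * (2 * (L : ℝ) * (3 * x)) ^ 3) := by gcongr
      _ = x ^ 3 * (C * K' + (L + 1) * (Ch * (216 * (L : ℝ) ^ 3))) := by
          rw [← hx3]; ring
      _ ≤ x ^ 3 * (x ^ (3 * (p - 1)) * ε) := by gcongr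
      _ = ε * (n + 1 : ℝ) ^ p := by rw [h6]; ring

end Pool.Agent.Helper1.LL
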