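import Mathlib

/-!
# Levy-Lieb functional: core definitions (MP_2a55aa_mp)
-/

open MeasureTheory Filter Topology
open scoped ENNReal

noncomputable section

namespace Pool.Agent.Helper1.LL

/-- Physical space `ℝ^d` with its Euclidean structure. -/
abbrev Sp (d : ℕ) := EuclideanSpace ℝ (Fin d)

/-- `a`-th standard basis vector of `ℝ^d`. -/
def eb {d : ℕ} (a : Fin d) : Sp d := EuclideanSpace.single a (1 : ℝ)

/-- `g` is the weak (distributional) derivative of `u` in direction `v`. -/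
def IsWeakDeriv {E F : Type*} [NormedAddCommGroup E] [NormedSpace ℝ E] [MeasureSpace E]
    [NormedAddCommGroup F] [NormedSpace ℝ F] (u g : E → F) (v : E) : Prop :=
  ∀ χ : E → ℝ, ContDiff ℝ (⊤ : ℕ∞) χ → HasCompactSupport χ →
    ∫ x, (fderiv ℝ χ x v) • u x = - ∫ x, χ x • g x

/-- `u ∈ H¹(ℝ^d; F)` with weak gradient `G` (component `G a` in direction `a`). -/
structure IsH1 {d : ℕ} {F : Type*} [NormedAddCommGroup F] [NormedSpace ℝ F]
    (u : Sp d → F) (G : Fin d → Sp d → F) : Prop where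
  memLp : MemLp u 2
  memLp_grad : ∀ a, MemLp (G a) 2
  weak : ∀ a, IsWeakDeriv u (G a) (eb a)

/-- Dirichlet energy `∑_a ∫ |G_a|²`. -/
def dir {d : ℕ} {F : Type*} [NormedAddCommGroup F] (G : Fin d → Sp d → F) : ℝ :=
  ∑ a, ∫ x, ‖G a x‖ ^ 2

/-- Thomas-Fermi constant `4π² d/(d+2) |B₁|^{-2/d}`. -/
def Kcl (d : ℕ) : ℝ :=
  4 * Real.pi ^ 2 * d / (d + 2) * (volume.real (Metric.ball (0 : Sp d) 1)) ^ (-(2 : ℝ) / d)

/-- Slater determinant of `N` one-particle functions. -/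
def slater {X : Type*} {N : ℕ} (φ : Fin N → X → ℂ) (x : Fin N → X) : ℂ :=
  ((Real.sqrt (N.factorial : ℝ) : ℝ) : ℂ)⁻¹ * Matrix.det (Matrix.of fun k j => φ k (x j))

/-- Derivative of the Slater determinant in the coordinate of particle `i`: in column `i`
the orbitals `φ k` are replaced by `Dφ k`. -/
def slaterGrad {X : Type*} {N : ℕ} (φ Dφ : Fin N → X → ℂ) (i : Fin N) (x : Fin N → X) : ℂ :=
  ((Real.sqrt (N.factorial : ℝ) : ℝ) : ℂ)⁻¹ *
    Matrix.det (Matrix.of fun k j => if j = i then Dφ k (x j) else φ k (x j))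

/-- Pair density of a Slater determinant. -/
def pairDens {X : Type*} {ι : Type*} [Fintype ι] (φ : ι → X → ℂ) (x y : X) : ℝ :=
  (1 / 2) * ∑ k, ∑ l, ‖φ k x * φ l y - φ l x * φ k y‖ ^ 2

/-- Orthonormal families in `L²`. -/
def ON {X : Type*} [MeasureSpace X] {ι : Type*} [DecidableEq ι] (φ : ι → X → ℂ) : Prop :=
  (∀ k, MemLp (φ k) 2 volume) ∧
    ∀ k l, ∫ x, star (φ k x) * φ l x = if k = l then 1 else 0

/-- Truncated interaction kernel: `min (χ_r) M` on `‖x‖ ≤ M`, `0 < r < M`. -/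
def chiM {d : ℕ} (χ : ℝ → Sp d → ℝ) (M : ℝ) (r : ℝ) (x : Sp d) : ℝ≥0∞ :=
  open Classical in
  if r ∈ Set.Ioo 0 M ∧ ‖x‖ ≤ M then min (ENNReal.ofReal (χ r x)) (ENNReal.ofReal M) else 0

end Pool.Agent.Helper1.LL
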