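import Pool.Agent.Helper1.LL.Super

/-!
# Diagonalisation of a Bessel system
-/

open MeasureTheory Filter Topology
open scoped ENNReal Matrix

noncomputable section

namespace Pool.Agent.Helper1.LL

theorem exists_unitary_diag {R : ℕ} (Γ : Matrix (Fin R) (Fin R) ℂ) (h : Γ.IsHermitian) :
    ∃ (U : Matrix (Fin R) (Fin R) ℂ) (lam : Fin R → ℝ), Uᴴ * U = 1 ∧ U * Uᴴ = 1 ∧
      Uᴴ * Γ * U = Matrix.diagonal (fun i => (lam i : ℂ)) := by
  classical
  have h1 := h.spectral_theorem
  rw [Unitary.conjStarAlgAut_apply] at h1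
  obtain ⟨U, hU⟩ : ∃ U : Matrix (Fin R) (Fin R) ℂ, U = h.eigenvectorUnitary := ⟨_, rfl⟩
  have h2 : Uᴴ * U = 1 := by rw [hU]; exact Unitary.coe_star_mul_self h.eigenvectorUnitary
  have h3 : U * Uᴴ = 1 := by rw [hU]; exact Unitary.coe_mul_star_self h.eigenvectorUnitary
  refine ⟨U, h.eigenvalues, h2, h3, ?_⟩
  have h4 : Γ = U * Matrix.diagonal (RCLike.ofReal ∘ h.eigenvalues) * Uᴴ := by
    rw [hU]; exact h1
  calc Uᴴ * Γ * U
      = Uᴴ * (U * Matrix.diagonal (RCLike.ofReal ∘ h.eigenvalues) * Uᴴ) * U := by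
        conv_lhs => rw [h4]
    _ = (Uᴴ * U) * Matrix.diagonal (RCLike.ofReal ∘ h.eigenvalues) * (Uᴴ * U) := by
        simp only [Matrix.mul_assoc]
    _ = _ := by
        rw [h2, one_mul, mul_one]; rfl

theorem sum_sub {R : ℕ} (lam g : Fin R → ℝ) (h : ∀ a, lam a = 0 → g a = 0) :
    ∑ k : {a // lam a ≠ 0}, g k = ∑ a, g a := by
  classical
  rw [← Finset.sum_subtype (Finset.univ.filter fun a => lam a ≠ 0) (by simp) g]
  exact Finset.sum_filter_of_ne (by intro a _ h1 h2; exact h1 (h a h2))

theorem sum_norm_sq_unitary {R : ℕ} (U : Matrix (Fin R) (Fin R) ℂ) (hU : U * Uᴴ = 1)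
    (z : Fin R → ℂ) : ∑ a, ‖∑ i, U i a * z i‖ ^ 2 = ∑ i, ‖z i‖ ^ 2 := by
  have key : ((∑ a, ‖∑ i, U i a * z i‖ ^ 2 : ℝ) : ℂ) = ((∑ i, ‖z i‖ ^ 2 : ℝ) : ℂ) := by
    push_cast
    have e1 : ∀ w : ℂ, ((‖w‖ : ℂ)) ^ 2 = star w * w := fun w => by
      rw [← Complex.conj_mul']; rfl
    simp_rw [e1]
    have hU' : ∀ i j, ∑ a, U j a * star (U i a) = if j = i then 1 else 0 := by
      intro i j
      have := congrFun (congrFun hU j) i
      rw [Matrix.mul_apply, Matrix.one_apply] at this
      simpa [Matrix.conjTranspose_apply] using this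
    calc ∑ a, star (∑ i, U i a * z i) * ∑ i, U i a * z i
        = ∑ a, ∑ i, ∑ j, (star (z i) * z j) * (U j a * star (U i a)) := by
          refine Finset.sum_congr rfl fun a _ => ?_
          rw [star_sum, Finset.sum_mul_sum]
          refine Finset.sum_congr rfl fun i _ => Finset.sum_congr rfl fun j _ => ?_
          rw [star_mul']
          ring
      _ = ∑ i, ∑ j, (star (z i) * z j) * ∑ a, (U j a * star (U i a)) := by
          rw [Finset.sum_comm]
          refine Finset.sum_congr rfl fun i _ => ?_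
          rw [Finset.sum_comm]
          refine Finset.sum_congr rfl fun j _ => ?_
          rw [Finset.mul_sum]
      _ = ∑ i, star (z i) * z i := by
          refine Finset.sum_congr rfl fun i _ => ?_
          simp_rw [hU']
          simp
  exact_mod_cast key

/-- integrability of `conj u * v` for `u v ∈ L²`. -/
theorem integrable_star_mul {X : Type*} [MeasureSpace X] {u v : X → ℂ} (hu : MemLp u 2)
    (hv : MemLp v 2) : Integrable (fun x => star (u x) * v x) := by
  have := MemLp.integrable_mul (hu.star) hv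
  exact this

theorem IsH1.sum' {d : ℕ} {ι : Type*} (s : Finset ι) (c : ι → ℂ) {u : ι → Sp d → ℂ}
    {G : ι → Fin d → Sp d → ℂ} (h : ∀ i ∈ s, IsH1 (u i) (G i)) :
    IsH1 (fun x => ∑ i ∈ s, c i * u i x) (fun a x => ∑ i ∈ s, c i * G i a x) where
  memLp := memLp_finsetSum _ fun i hi => (h i hi).memLp.const_mul _
  memLp_grad := fun a => memLp_finsetSum _ fun i hi => ((h i hi).memLp_grad a).const_mul _
  weak := fun a => IsWeakDeriv.sum_smul s c (fun i hi => (h i hi).memLp)
    (fun i hi => (h i hi).memLp_grad a) (fun i hi => (h i hi).weak a)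

/-- Diagonalisation of a finite Bessel system: orthonormal orbitals with occupation numbers
`lam k ∈ (0,1]`, the same total density and (at most) the same total Dirichlet energy. -/
theorem diagonalize {d R : ℕ} (v : Fin R → Sp d → ℂ) (Dv : Fin R → Fin d → Sp d → ℂ)
    (hH : ∀ i, IsH1 (v i) (Dv i))
    (hB : ∀ ψ : Sp d → ℂ, MemLp ψ 2 volume →
      ∑ i, ‖∫ x, star (v i x) * ψ x‖ ^ 2 ≤ ∫ x, ‖ψ x‖ ^ 2) :
    ∃ (κ : Type) (_ : Fintype κ) (_ : DecidableEq κ) (φ : κ → Sp d → ℂ)
      (Dφ : κ → Fin d → Sp d → ℂ) (lam : κ → ℝ),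
      Fintype.card κ ≤ R ∧ (∀ k, 0 < lam k ∧ lam k ≤ 1) ∧ (∀ k, IsH1 (φ k) (Dφ k)) ∧ ON φ ∧
      (∀ᵐ x, ∑ k, lam k * ‖φ k x‖ ^ 2 = ∑ i, ‖v i x‖ ^ 2) ∧
      (∑ k, lam k * dir (Dφ k) ≤ ∑ i, dir (Dv i)) ∧
      (∀ x, (∀ i, v i x = 0 ∧ ∀ a, Dv i a x = 0) → ∀ k, φ k x = 0 ∧ ∀ a, Dφ k a x = 0) := by
  classical
  set Γ : Matrix (Fin R) (Fin R) ℂ := Matrix.of fun i j => ∫ x, star (v i x) * v j x with hΓ
  have hherm : Γ.IsHermitian := by
    ext i j
    rw [Matrix.conjTranspose_apply]
    simp only [hΓ, Matrix.of_apply]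
    rw [← starRingEnd_apply, ← integral_conj]
    refine integral_congr_ae (Eventually.of_forall fun x => ?_)
    simp [mul_comm]
  obtain ⟨U, lam, hU1, hU2, hdiag⟩ := exists_unitary_diag Γ hherm
  set w : Fin R → Sp d → ℂ := fun a x => ∑ i, U i a * v i x with hw
  set Dw : Fin R → Fin d → Sp d → ℂ := fun a b x => ∑ i, U i a * Dv i b x with hDw
  have hwH : ∀ a, IsH1 (w a) (Dw a) := fun a =>
    IsH1.sum' Finset.univ (fun i => U i a) (fun i _ => hH i)
  have hinner : ∀ a b, ∫ x, star (w a x) * w b x = if a = b then (lam a : ℂ) else 0 := by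
    intro a b
    have h1 : ∀ x, star (w a x) * w b x
        = ∑ i, ∑ j, (star (U i a) * U j b) * (star (v i x) * v j x) := by
      intro x
      simp only [hw]
      rw [star_sum, Finset.sum_mul_sum]
      refine Finset.sum_congr rfl fun i _ => Finset.sum_congr rfl fun j _ => ?_
      rw [star_mul']
      ring
    simp_rw [h1]
    rw [integral_finsetSum _ fun i _ => integrable_finsetSum _ fun j _ =>
      (integrable_star_mul (hH i).memLp (hH j).memLp).const_mul _]
    simp_rw [integral_finsetSum _ fun j _ =>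
      (integrable_star_mul (hH _).memLp (hH j).memLp).const_mul _, integral_const_mul]
    have h2 := congrFun (congrFun hdiag a) b
    rw [Matrix.diagonal_apply] at h2
    rw [← h2, Matrix.mul_apply]
    simp_rw [Matrix.mul_apply, Finset.sum_mul]
    rw [Finset.sum_comm]
    refine Finset.sum_congr rfl fun j _ => Finset.sum_congr rfl fun i _ => ?_
    simp only [Matrix.conjTranspose_apply, hΓ, Matrix.of_apply]
    ring
  have hnorm : ∀ a, ∫ x, ‖w a x‖ ^ 2 = lam a := by
    intro a
    have h1 := hinner a a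
    rw [if_pos rfl] at h1
    have h2 : ∀ x, star (w a x) * w a x = ((‖w a x‖ ^ 2 : ℝ) : ℂ) := by
      intro x
      push_cast
      rw [← Complex.conj_mul']; rfl
    simp_rw [h2] at h1
    rw [integral_complex_ofReal] at h1
    exact_mod_cast h1
  have hlam0 : ∀ a, 0 ≤ lam a := fun a => by
    rw [← hnorm a]; exact integral_nonneg fun x => sq_nonneg _
  have hlam1 : ∀ a, lam a ≤ 1 := by
    intro a
    have h1 := hB (w a) (hwH a).memLp
    rw [hnorm a] at h1
    have h2 : ∑ i, ‖∫ x, star (v i x) * w a x‖ ^ 2 = lam a ^ 2 := by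
      have h3 : ∀ b, ∑ i, star (U i b) * (∫ x, star (v i x) * w a x)
          = if b = a then (lam b : ℂ) else 0 := by
        intro b
        rw [← hinner b a]
        have : ∀ x, star (w b x) * w a x = ∑ i, star (U i b) * (star (v i x) * w a x) := by
          intro x
          conv_lhs => rw [hw]
          simp only
          rw [star_sum, Finset.sum_mul]
          refine Finset.sum_congr rfl fun i _ => ?_
          rw [star_mul']; ring
        simp_rw [this]
        rw [integral_finsetSum _ fun i _ =>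
          (integrable_star_mul (hH i).memLp (hwH a).memLp).const_mul _]
        simp_rw [integral_const_mul]
      have h4 := sum_norm_sq_unitary (R := R) (U.map star) (by
        have := congrArg (fun M : Matrix (Fin R) (Fin R) ℂ => M.map star) hU2
        ext i j
        have h5 := congrFun (congrFun this i) j
        simp only [Matrix.map_apply, Matrix.mul_apply, star_sum, star_mul',
          Matrix.conjTranspose_apply, star_star, Matrix.one_apply] at h5 ⊢
        rw [h5]
        split_ifs <;> simp) (fun i => ∫ x, star (v i x) * w a x)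
      rw [← h4]
      simp_rw [Matrix.map_apply, h3]
      rw [Finset.sum_eq_single a]
      · simp
      · intro b _ hb
        simp [hb]
      · simp
    rw [h2] at h1
    nlinarith [hlam0 a]
  refine ⟨{a : Fin R // lam a ≠ 0}, inferInstance, inferInstance,
    fun k x => ((Real.sqrt (lam k) : ℝ) : ℂ)⁻¹ * w k x,
    fun k b x => ((Real.sqrt (lam k) : ℝ) : ℂ)⁻¹ * Dw k b x, fun k => lam k, ?_, ?_, ?_, ?_, ?_,
    ?_, ?_⟩
  · calc Fintype.card {a : Fin R // lam a ≠ 0} ≤ Fintype.card (Fin R) := Fintype.card_subtype_le _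
      _ = R := Fintype.card_fin R
  · intro k
    exact ⟨lt_of_le_of_ne (hlam0 k) (Ne.symm k.2), hlam1 k⟩
  · intro k
    have := IsH1.sum' (d := d) (Finset.univ : Finset Unit)
      (fun _ => ((Real.sqrt (lam k) : ℝ) : ℂ)⁻¹) (u := fun _ => w k) (G := fun _ => Dw k)
      (fun _ _ => hwH k)
    simpa using this
  · refine ⟨fun k => (hwH k).memLp.const_mul _, fun k l => ?_⟩
    have h1 : ∀ x, star (((Real.sqrt (lam k) : ℝ) : ℂ)⁻¹ * w k x) *
        (((Real.sqrt (lam l) : ℝ) : ℂ)⁻¹ * w l x) =
        (((Real.sqrt (lam k) : ℝ) : ℂ)⁻¹ * ((Real.sqrt (lam l) : ℝ) : ℂ)⁻¹) *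
          (star (w k x) * w l x) := by
      intro x
      rw [star_mul', star_inv₀]
      have : star ((Real.sqrt (lam k) : ℝ) : ℂ) = ((Real.sqrt (lam k) : ℝ) : ℂ) :=
        Complex.conj_ofReal _
      rw [this]; ring
    simp_rw [h1]
    rw [integral_const_mul, hinner]
    by_cases hkl : k = l
    · subst hkl
      rw [if_pos rfl, if_pos rfl]
      have hpos : 0 < lam k := lt_of_le_of_ne (hlam0 k) (Ne.symm k.2)
      have hs : Real.sqrt (lam k) * Real.sqrt (lam k) = lam k := Real.mul_self_sqrt hpos.le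
      have hs0 : Real.sqrt (lam k) ≠ 0 := (Real.sqrt_pos.2 hpos).ne'
      have : (lam k : ℂ) = ((Real.sqrt (lam k) : ℝ) : ℂ) * ((Real.sqrt (lam k) : ℝ) : ℂ) := by
        rw [← Complex.ofReal_mul, hs]
      rw [this]
      have hs0' : ((Real.sqrt (lam k) : ℝ) : ℂ) ≠ 0 := by exact_mod_cast hs0
      field_simp
    · rw [if_neg (fun h => hkl (Subtype.ext h)), if_neg hkl, mul_zero]
  · -- density
    have hz : ∀ a, lam a = 0 → ∀ᵐ x, w a x = 0 := by
      intro a ha
      have h1 := hnorm a
      rw [ha, integral_eq_zero_iff_of_nonneg (fun x => sq_nonneg _)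
        ((hwH a).memLp.norm.integrable_sq)] at h1
      filter_upwards [h1] with x hx
      simpa using hx
    have hz' : ∀ᵐ x, ∀ a, lam a = 0 → w a x = 0 := by
      rw [ae_all_iff]
      intro a
      by_cases ha : lam a = 0
      · filter_upwards [hz a ha] with x hx _
        exact hx
      · filter_upwards with x hx
        exact absurd hx ha
    filter_upwards [hz'] with x hx
    rw [← sum_norm_sq_unitary U hU2 (fun i => v i x)]
    have h1 : ∀ k : {a : Fin R // lam a ≠ 0},
        lam k * ‖((Real.sqrt (lam k) : ℝ) : ℂ)⁻¹ * w k x‖ ^ 2 = ‖w k x‖ ^ 2 := by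
      intro k
      have hpos : 0 < lam k := lt_of_le_of_ne (hlam0 k) (Ne.symm k.2)
      rw [norm_mul, norm_inv, Complex.norm_real, Real.norm_eq_abs, mul_pow, inv_pow, sq_abs,
        Real.sq_sqrt hpos.le]
      field_simp
    simp_rw [h1]
    exact sum_sub lam (fun a => ‖w a x‖ ^ 2) fun a ha => by
      rw [hx a ha]; simp
  · -- energy
    have h1 : ∀ k : {a : Fin R // lam a ≠ 0},
        lam k * dir (fun b x => ((Real.sqrt (lam k) : ℝ) : ℂ)⁻¹ * Dw k b x) = dir (Dw k) := by
      intro k
      have hpos : 0 < lam k := lt_of_le_of_ne (hlam0 k) (Ne.symm k.2)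
      unfold dir
      rw [Finset.mul_sum]
      refine Finset.sum_congr rfl fun b _ => ?_
      rw [← integral_const_mul]
      refine integral_congr_ae (Eventually.of_forall fun x => ?_)
      simp only
      rw [norm_mul, norm_inv, Complex.norm_real, Real.norm_eq_abs, mul_pow, inv_pow, sq_abs,
        Real.sq_sqrt hpos.le]
      field_simp
    simp_rw [h1]
    have h2 : ∑ k : {a : Fin R // lam a ≠ 0}, dir (Dw k) ≤ ∑ a, dir (Dw a) := by
      rw [← Finset.sum_subtype (Finset.univ.filter fun a => lam a ≠ 0) (by simp)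
        (fun a => dir (Dw a))]
      exact Finset.sum_le_sum_of_subset_of_nonneg (Finset.filter_subset _ _) fun a _ _ =>
        Finset.sum_nonneg fun b _ => integral_nonneg fun x => sq_nonneg _
    refine h2.trans (le_of_eq ?_)
    unfold dir
    rw [Finset.sum_comm, Finset.sum_comm (s := (Finset.univ : Finset (Fin R)))]
    refine Finset.sum_congr rfl fun b _ => ?_
    rw [← integral_finsetSum _ fun a _ => ((hwH a).memLp_grad b).norm.integrable_sq,
      ← integral_finsetSum _ fun a _ => ((hH a).memLp_grad b).norm.integrable_sq]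
    refine integral_congr_ae (Eventually.of_forall fun x => ?_)
    exact sum_norm_sq_unitary U hU2 (fun i => Dv i b x)
  · intro x hx k
    have h1 : w k x = 0 := by
      simp only [hw]
      exact Finset.sum_eq_zero fun i _ => by rw [(hx i).1, mul_zero]
    have h2 : ∀ a, Dw k a x = 0 := fun a => by
      simp only [hDw]
      exact Finset.sum_eq_zero fun i _ => by rw [(hx i).2 a, mul_zero]
    refine ⟨?_, fun a => ?_⟩
    · show ((Real.sqrt (lam k) : ℝ) : ℂ)⁻¹ * w k x = 0
      rw [h1, mul_zero]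
    · show ((Real.sqrt (lam k) : ℝ) : ℂ)⁻¹ * Dw k a x = 0
      rw [h2 a, mul_zero]

end Pool.Agent.Helper1.LL
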