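import Pool.Agent.Helper1.LL.Defs
import Pool.Agent.Helper65.LL_J
import Pool.Agent.Helper59.LL_D6
import Pool.Agent.Helper21.LL_A1A3
import Pool.Agent.Helper3.LL_A6
import Pool.Agent.Helper3.LL_A7
import Pool.Agent.Helper3.LL_A6G
import Pool.Agent.Helper35.LL_A2
import Pool.Agent.Helper35.LL_E
import Pool.Agent.Helper43.LL_F
import Pool.Agent.Helper43.LL_C
import Pool.Agent.Helper2.LL_I

/-!
# Levy-Lieb functional: the inputs used in the assembly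
-/

open MeasureTheory Filter Topology
open scoped ENNReal

noncomputable section

namespace Pool.Agent.Helper1.LL.Inputs

open Pool.Agent.Helper1.LL

/-! ## Task A: one-body Sobolev calculus -/

/-- A1. Smooth compactly supported functions are dense in `H¹`. -/
theorem IsH1.approx {d : ℕ} {F : Type*} [NormedAddCommGroup F] [NormedSpace ℝ F] [CompleteSpace F]
    {u : Sp d → F} {G : Fin d → Sp d → F} (h : IsH1 u G) :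
    ∃ v : ℕ → Sp d → F, (∀ n, ContDiff ℝ (⊤ : ℕ∞) (v n)) ∧ (∀ n, HasCompactSupport (v n)) ∧
      Tendsto (fun n => eLpNorm (fun x => v n x - u x) 2 volume) atTop (𝓝 0) ∧
      ∀ a, Tendsto (fun n => eLpNorm (fun x => fderiv ℝ (v n) x (eb a) - G a x) 2 volume)
        atTop (𝓝 0) :=
  Pool.Agent.Helper21.LL.IsH1.approx h

/-- A2. Product with a bounded `C¹` function with bounded derivative (scalar real or complex: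
`ψ : Sp d → ℂ`). -/
theorem IsH1.mul_C1 {d : ℕ} {u : Sp d → ℂ} {G : Fin d → Sp d → ℂ} (h : IsH1 u G)
    (ψ : Sp d → ℂ) (hψ : ContDiff ℝ 1 ψ) (K : ℝ) (hK : ∀ x, ‖ψ x‖ ≤ K)
    (hK' : ∀ x, ‖fderiv ℝ ψ x‖ ≤ K) :
    IsH1 (fun x => ψ x * u x) (fun a x => ψ x * G a x + fderiv ℝ ψ x (eb a) * u x) :=
  Pool.Agent.Helper35.LL.IsH1.mul_C1 h ψ hψ K hK hK'

/-- A2'. Real version. -/
theorem IsH1.mul_C1_real {d : ℕ} {u : Sp d → ℝ} {G : Fin d → Sp d → ℝ} (h : IsH1 u G)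
    (ψ : Sp d → ℝ) (hψ : ContDiff ℝ 1 ψ) (K : ℝ) (hK : ∀ x, ‖ψ x‖ ≤ K)
    (hK' : ∀ x, ‖fderiv ℝ ψ x‖ ≤ K) :
    IsH1 (fun x => ψ x * u x) (fun a x => ψ x * G a x + fderiv ℝ ψ x (eb a) * u x) :=
  Pool.Agent.Helper35.LL.IsH1.mul_C1_real h ψ hψ K hK hK'

/-- A3. Chain rule. -/
theorem IsH1.comp_C1 {d : ℕ} {u : Sp d → ℝ} {G : Fin d → Sp d → ℝ} (h : IsH1 u G)
    (b : ℝ → ℝ) (hb : ContDiff ℝ 1 b) (hb0 : b 0 = 0) (K : ℝ) (hK : ∀ t, |deriv b t| ≤ K) :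
    IsH1 (fun x => b (u x)) (fun a x => deriv b (u x) * G a x) :=
  Pool.Agent.Helper21.LL.IsH1.comp_C1 h b hb hb0 K hK

/-- A4. A real `H¹` function is a complex one (and conversely the real part of a complex weak
gradient of a real function is a weak gradient). -/
theorem IsH1.ofReal {d : ℕ} {u : Sp d → ℝ} {G : Fin d → Sp d → ℝ} (h : IsH1 u G) :
    IsH1 (fun x => (u x : ℂ)) (fun a x => (G a x : ℂ)) :=
  Pool.Agent.Helper35.LL.IsH1.ofReal h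

/-- A5. Finite linear combinations. -/
theorem IsH1.sum {d : ℕ} {ι : Type*} (s : Finset ι) (c : ι → ℂ) {u : ι → Sp d → ℂ}
    {G : ι → Fin d → Sp d → ℂ} (h : ∀ i ∈ s, IsH1 (u i) (G i)) :
    IsH1 (fun x => ∑ i ∈ s, c i * u i x) (fun a x => ∑ i ∈ s, c i * G i a x) :=
  Pool.Agent.Helper35.LL.IsH1.sum s c h

/-- A6. Mass in a slab is at most a constant times its width. -/
theorem IsH1.slab {d : ℕ} {u : Sp d → ℝ} {G : Fin d → Sp d → ℝ} (h : IsH1 u G) (a : Fin d)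
    {s t : ℝ} (hst : s ≤ t) :
    ∫ x in {x : Sp d | s < x a ∧ x a ≤ t}, u x ^ 2 ≤
      2 * (t - s) * Real.sqrt (∫ x, u x ^ 2) * Real.sqrt (∫ x, G a x ^ 2) :=
  Pool.Agent.Helper3.LL.IsH1.slab h a hst

/-- A7. Sobolev: `u ∈ H¹(ℝ^d)` implies `u ∈ L^{2+4/d}`. -/
theorem IsH1.sobolev {d : ℕ} (hd : 1 ≤ d) {u : Sp d → ℝ} {G : Fin d → Sp d → ℝ}
    (h : IsH1 u G) : MemLp u (ENNReal.ofReal (2 + 4 / d)) volume :=
  Pool.Agent.Helper3.LL.IsH1.sobolev hd h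

/-! ## Task C: dependent rounding -/

/-- C. Every `λ ∈ [0,1]^ι` with integer sum `M` is the vector of inclusion probabilities of a
random `M`-subset with pairwise negative correlations, supported on few subsets. -/
theorem dependent_rounding {ι : Type*} [Fintype ι] [DecidableEq ι] (lam : ι → ℝ)
    (h0 : ∀ a, 0 ≤ lam a) (h1 : ∀ a, lam a ≤ 1) (M : ℕ) (hM : ∑ a, lam a = M) :
    ∃ q : Finset ι → ℝ, (∀ S, 0 ≤ q S) ∧ (∑ S, q S = 1) ∧ (∀ S, q S ≠ 0 → S.card = M) ∧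
      (∀ a, ∑ S, (if a ∈ S then q S else 0) = lam a) ∧
      (∀ a b, a ≠ b → ∑ S, (if a ∈ S ∧ b ∈ S then q S else 0) ≤ lam a * lam b) ∧
      (Finset.univ.filter (fun S => q S ≠ 0)).card ≤ (Fintype.card ι + 1) ^ 2 + 1 :=
  Pool.Agent.Helper43.LL.dependent_rounding lam h0 h1 M hM

/-! ## Task D: Slater determinants, integral identities -/

section Slater
variable {X : Type*} [MeasureSpace X] [SigmaFinite (volume : Measure X)]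

/-- D1. -/
theorem slater_antisymm {X : Type*} {N : ℕ} (φ : Fin N → X → ℂ) (σ : Equiv.Perm (Fin N))
    (x : Fin N → X) :
    slater φ (x ∘ σ) = ((Equiv.Perm.sign σ : ℤ) : ℂ) * slater φ x :=
  Pool.Agent.Helper59.LL.slater_antisymm φ σ x

/-- D2. -/
theorem slater_memLp {N : ℕ} (φ : Fin N → X → ℂ) (hφ : ∀ k, MemLp (φ k) 2 volume) :
    MemLp (slater φ) 2 volume :=
  Pool.Agent.Helper59.LL.slater_memLp φ hφ

/-- D2'. -/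
theorem slaterGrad_memLp {N : ℕ} (φ Dφ : Fin N → X → ℂ) (hφ : ∀ k, MemLp (φ k) 2 volume)
    (hDφ : ∀ k, MemLp (Dφ k) 2 volume) (i : Fin N) :
    MemLp (slaterGrad φ Dφ i) 2 volume :=
  Pool.Agent.Helper59.LL.slaterGrad_memLp φ Dφ hφ hDφ i

/-- D3. -/
theorem slater_normalized {N : ℕ} (φ : Fin N → X → ℂ) (hφ : ON φ) :
    ∫ x, ‖slater φ x‖ ^ 2 = 1 :=
  Pool.Agent.Helper59.LL.slater_normalized φ hφ

/-- D4. one-particle density -/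
theorem slater_density {n : ℕ} (φ : Fin (n + 1) → X → ℂ) (hφ : ON φ) (x : X) :
    (n + 1 : ℝ) * ∫ y : Fin n → X, ‖slater φ (Fin.cons x y)‖ ^ 2 = ∑ k, ‖φ k x‖ ^ 2 :=
  Pool.Agent.Helper59.LL.slater_density φ hφ x

/-- D5. kinetic energy of particle `i` -/
theorem slaterGrad_norm {N : ℕ} (φ Dφ : Fin N → X → ℂ) (hφ : ON φ)
    (hDφ : ∀ k, MemLp (Dφ k) 2 volume) (i : Fin N) :
    ∫ x, ‖slaterGrad φ Dφ i x‖ ^ 2 = (N : ℝ)⁻¹ * ∑ k, ∫ x, ‖Dφ k x‖ ^ 2 :=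
  Pool.Agent.Helper59.LL.slaterGrad_norm φ Dφ hφ hDφ i

/-- D6. pair interaction energy -/
theorem slater_pair {N : ℕ} (φ : Fin N → X → ℂ) (hφ : ON φ) (W : X → X → ℝ≥0∞)
    (hW : Measurable (Function.uncurry W)) (hsymm : ∀ x y, W x y = W y x) :
    ∫⁻ x : Fin N → X, (∑ i, ∑ j ∈ Finset.Ioi i, W (x i) (x j)) * ENNReal.ofReal (‖slater φ x‖ ^ 2)
      = 2⁻¹ * ∫⁻ x, ∫⁻ y, W x y * ENNReal.ofReal (pairDens φ x y) :=
  Pool.Agent.Helper59.LL.slater_pair φ hφ W hW hsymm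

/-- D7. vanishing outside the right particle number -/
theorem slater_eq_zero {X : Type*} {N : ℕ} (φ : Fin N → X → ℂ) (A : Set X) (T : Finset (Fin N))
    (hT : ∀ k ∈ T, ∀ x ∉ A, φ k x = 0) (hT' : ∀ k ∉ T, ∀ x ∈ A, φ k x = 0)
    (x : Fin N → X) (hx : {j | x j ∈ A}.ncard ≠ T.card) : slater φ x = 0 :=
  Pool.Agent.Helper59.LL.slater_eq_zero φ A T hT hT' x hx

/-- D7'. -/
theorem slaterGrad_eq_zero {X : Type*} {N : ℕ} (φ Dφ : Fin N → X → ℂ) (A : Set X)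
    (T : Finset (Fin N))
    (hT : ∀ k ∈ T, ∀ x ∉ A, φ k x = 0 ∧ Dφ k x = 0)
    (hT' : ∀ k ∉ T, ∀ x ∈ A, φ k x = 0 ∧ Dφ k x = 0) (i : Fin N)
    (x : Fin N → X) (hx : {j | x j ∈ A}.ncard ≠ T.card) : slaterGrad φ Dφ i x = 0 :=
  Pool.Agent.Helper59.LL.slaterGrad_eq_zero φ Dφ A T hT hT' i x hx

end Slater

/-! ## Task E: weak derivative of a Slater determinant -/

theorem slater_isWeakDeriv {d N : ℕ} (φ : Fin N → Sp d → ℂ) (Dφ : Fin N → Fin d → Sp d → ℂ)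
    (h : ∀ k, IsH1 (φ k) (Dφ k)) (i : Fin N) (a : Fin d) :
    IsWeakDeriv (slater φ) (slaterGrad φ (fun k => Dφ k a) i) (Pi.single i (eb a)) :=
  Pool.Agent.Helper35.LL.slater_isWeakDeriv φ Dφ h i a

/-! ## Task F: Bessel system with exact density -/

theorem bessel_system (d : ℕ) (hd : 1 ≤ d) (η B : ℝ) (hη : 0 < η) (hη1 : η ≤ 1) (hB : 0 ≤ B) :
    ∃ (C N₀ : ℝ) (A : ℕ), 0 < C ∧ 1 ≤ N₀ ∧
      ∀ (φ : Sp d → ℝ) (G : Fin d → Sp d → ℝ), IsH1 φ G → (∀ x, 0 ≤ φ x) →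
        ∫ x, φ x ^ 2 ≤ 1 →
        MemLp φ (ENNReal.ofReal (2 + 4 / d)) volume → ∫ x, φ x ^ (2 + 4 / d : ℝ) ≤ B →
        ∀ N : ℝ, N₀ ≤ N →
        ∃ (R : ℕ) (v : Fin R → Sp d → ℂ) (Dv : Fin R → Fin d → Sp d → ℂ),
          (∀ i, IsH1 (v i) (Dv i)) ∧
          (∀ x, ∑ i, ‖v i x‖ ^ 2 = N * φ x ^ 2) ∧
          (∀ x, φ x = 0 → (∀ a, G a x = 0) → ∀ i, v i x = 0 ∧ ∀ a, Dv i a x = 0) ∧
          (∀ ψ : Sp d → ℂ, MemLp ψ 2 volume →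
            ∑ i, ‖∫ x, star (v i x) * ψ x‖ ^ 2 ≤ ∫ x, ‖ψ x‖ ^ 2) ∧
          (∑ i, dir (Dv i) ≤
            (1 + η) * Kcl d * N ^ (1 + 2 / d : ℝ) * ((∫ x, φ x ^ (2 + 4 / d : ℝ)) + η)
              + C * N * (1 + dir G)) ∧
          ((R : ℝ) ≤ C * N ^ A) :=
  Pool.Agent.Helper43.LL.bessel_system d hd η B hη hη1 hB

/-! ## Task G: Harriman label orbitals -/

theorem harriman {d : ℕ} (hd : 1 ≤ d) (φ : Sp d → ℝ) (G : Fin d → Sp d → ℝ) (h : IsH1 φ G)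
    (hφ : ∫ x, φ x ^ 2 = 1) :
    ∃ C : ℝ, 0 ≤ C ∧ ∀ n : ℕ, ∃ (u : Fin n → Sp d → ℂ) (Du : Fin n → Fin d → Sp d → ℂ),
      (∀ j, IsH1 (u j) (Du j)) ∧ ON u ∧ (∀ j x, ‖u j x‖ ^ 2 = φ x ^ 2) ∧
      (∀ x, φ x = 0 → (∀ a, G a x = 0) → ∀ j, u j x = 0 ∧ ∀ a, Du j a x = 0) ∧
      ∑ j, dir (Du j) ≤ C * n ^ 3 :=
  Pool.Agent.Helper3.LL.harriman hd φ G h hφ

/-! ## Task I: coherent-state lower bound for the kinetic energy -/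

/-- I. `G` is a real smooth compactly supported window with `∫ G² = 1`, `ρ` the density. -/
theorem kinetic_lower {d : ℕ} (hd : 1 ≤ d) {n : ℕ} (Ψ : (Fin (n + 1) → Sp d) → ℂ)
    (D : Fin (n + 1) → Fin d → (Fin (n + 1) → Sp d) → ℂ)
    (hΨ : MemLp Ψ 2 volume) (hΨ1 : ∫ x, ‖Ψ x‖ ^ 2 = 1)
    (anti : ∀ σ : Equiv.Perm (Fin (n + 1)),
      ∀ᵐ x, Ψ (x ∘ σ) = ((Equiv.Perm.sign σ : ℤ) : ℂ) * Ψ x)
    (hD : ∀ i a, MemLp (D i a) 2 volume)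
    (hweak : ∀ i a, IsWeakDeriv Ψ (D i a) (Pi.single i (eb a)))
    (f : Sp d → ℝ) (hf : Integrable f) (hf0 : ∀ x, 0 ≤ f x)
    (hdens : ∀ᵐ x, (n + 1 : ℝ) * ∫ y : Fin n → Sp d, ‖Ψ (Fin.cons x y)‖ ^ 2 = (n + 1) * f x)
    (g : Sp d → ℝ) (hg : ContDiff ℝ (⊤ : ℕ∞) g) (hgc : HasCompactSupport g)
    (hg1 : ∫ x, g x ^ 2 = 1) :
    ENNReal.ofReal (Kcl d * (n + 1 : ℝ) ^ (1 + 2 / d : ℝ)) *
        ∫⁻ y, (∫⁻ x, ENNReal.ofReal (g (x - y) ^ 2 * f x)) ^ (1 + 2 / d : ℝ) ≤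
      ENNReal.ofReal (∑ i, ∑ a, ∫ x, ‖D i a x‖ ^ 2)
        + ENNReal.ofReal ((n + 1 : ℝ) * ∑ a, ∫ x, (fderiv ℝ g x (eb a)) ^ 2) :=
  Pool.Agent.Helper2.LL.kinetic_lower hd Ψ D hΨ hΨ1 anti hD hweak f hf hf0 hdens g hg hgc hg1

/-- I2. Let the window concentrate. For fixed `f` the coherent-state expression is at least
`∫ f^{1+2/d} - ε`. -/
theorem window_limit {d : ℕ} (hd : 1 ≤ d) (f : Sp d → ℝ) (hf : Integrable f)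
    (hf0 : ∀ x, 0 ≤ f x) (L : ℝ≥0∞)
    (hL : L < ∫⁻ x, ENNReal.ofReal (f x) ^ (1 + 2 / d : ℝ)) :
    ∃ g : Sp d → ℝ, ContDiff ℝ (⊤ : ℕ∞) g ∧ HasCompactSupport g ∧ ∫ x, g x ^ 2 = 1 ∧
      L < ∫⁻ y, (∫⁻ x, ENNReal.ofReal (g (x - y) ^ 2 * f x)) ^ (1 + 2 / d : ℝ) :=
  Pool.Agent.Helper2.LL.window_limit hd f hf hf0 L hL

/-! ## Task J: interaction lower bound -/

theorem interaction_lower {d : ℕ} {n : ℕ} (Ψ : (Fin (n + 1) → Sp d) → ℂ)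
    (hΨ : MemLp Ψ 2 volume) (hΨ1 : ∫ x, ‖Ψ x‖ ^ 2 = 1)
    (anti : ∀ σ : Equiv.Perm (Fin (n + 1)),
      ∀ᵐ x, Ψ (x ∘ σ) = ((Equiv.Perm.sign σ : ℤ) : ℂ) * Ψ x)
    (f : Sp d → ℝ) (hf : Integrable f) (hf0 : ∀ x, 0 ≤ f x) (hf1 : ∫ x, f x = 1)
    (hdens : ∀ᵐ x, (n + 1 : ℝ) * ∫ y : Fin n → Sp d, ‖Ψ (Fin.cons x y)‖ ^ 2 = (n + 1) * f x)
    (χ : ℝ → Sp d → ℝ) (hχ : Measurable (Function.uncurry χ))
    (hχ0 : ∀ r x, 0 ≤ χ r x) (hχe : ∀ r x, χ r (-x) = χ r x)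
    (w : Sp d → ℝ) (hwm : AEMeasurable w volume)
    (hw : ∀ᵐ x, ENNReal.ofReal (w x) =
      ∫⁻ r in Set.Ioi (0 : ℝ), ∫⁻ y, ENNReal.ofReal (χ r y) * ENNReal.ofReal (χ r (x - y)))
    (M : ℝ) (hM : 0 ≤ M) :
    ENNReal.ofReal ((n + 1 : ℝ) ^ 2 / 2) *
        ∫⁻ r, ∫⁻ u, (∫⁻ x, chiM χ M r (u - x) * ENNReal.ofReal (f x)) ^ 2 ≤
      (∫⁻ x : Fin (n + 1) → Sp d, (∑ i, ∑ j ∈ Finset.Ioi i, ENNReal.ofReal (w (x i - x j)))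
          * ENNReal.ofReal (‖Ψ x‖ ^ 2))
        + ENNReal.ofReal ((n + 1 : ℝ) / 2) * ∫⁻ r, ∫⁻ u, (chiM χ M r u) ^ 2 :=
  Pool.Agent.Helper65.LL.interaction_lower Ψ hΨ hΨ1 anti f hf hf0 hf1 hdens χ hχ hχ0 hχe w hwm hw
    M hM

/-- J2. monotone limit of the truncated interaction. -/
theorem interaction_limit {d : ℕ} (f : Sp d → ℝ) (hf : Integrable f) (hf0 : ∀ x, 0 ≤ f x)
    (χ : ℝ → Sp d → ℝ) (hχ : Measurable (Function.uncurry χ))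
    (hχ0 : ∀ r x, 0 ≤ χ r x) (hχe : ∀ r x, χ r (-x) = χ r x)
    (w : Sp d → ℝ) (hwm : AEMeasurable w volume)
    (hw : ∀ᵐ x, ENNReal.ofReal (w x) =
      ∫⁻ r in Set.Ioi (0 : ℝ), ∫⁻ y, ENNReal.ofReal (χ r y) * ENNReal.ofReal (χ r (x - y))) :
    (∀ M : ℝ, ∫⁻ r, ∫⁻ u, (chiM χ M r u) ^ 2 < ⊤) ∧
    Tendsto (fun M : ℕ => ∫⁻ r, ∫⁻ u, (∫⁻ x, chiM χ (M : ℝ) r (u - x) * ENNReal.ofReal (f x)) ^ 2)
      atTop (𝓝 (∫⁻ x, ∫⁻ y, ENNReal.ofReal (f x) * ENNReal.ofReal (f y)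
        * ENNReal.ofReal (w (x - y)))) :=
  Pool.Agent.Helper65.LL.interaction_limit f hf hf0 χ hχ hχ0 hχe w hwm hw

end Pool.Agent.Helper1.LL.Inputs
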