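import Pool.Agent.Helper1.LL.Pot
import Pool.Agent.Helper65.LL_J

/-!
# External energy, kernel, and the direct energy
-/

open MeasureTheory Filter Topology
open scoped ENNReal

noncomputable section

namespace Pool.Agent.Helper1.LL

variable {d : ℕ}

/-! ## external energy -/

theorem one_body_real {n : ℕ} {Ψ : (Fin (n + 1) → Sp d) → ℂ}
    {D : Fin (n + 1) → Fin d → (Fin (n + 1) → Sp d) → ℂ} (hst : IsFermionState Ψ D)
    {f : Sp d → ℝ} (hf : AEMeasurable f) (hf0 : ∀ x, 0 ≤ f x)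
    (hdens : density Ψ =ᵐ[volume] fun x => (n + 1) * f x) {V : Sp d → ℝ} (hV : Measurable V)
    (hVf : Integrable fun x => V x * f x) (i : Fin (n + 1)) :
    Integrable (fun x : Fin (n + 1) → Sp d => V (x i) * ‖Ψ x‖ ^ 2) ∧
      ∫ x : Fin (n + 1) → Sp d, V (x i) * ‖Ψ x‖ ^ 2 = ∫ x, V x * f x := by
  have hob : ∀ H : Sp d → ℝ≥0∞, Measurable H →
      ∫⁻ x : Fin (n + 1) → Sp d, ENNReal.ofReal (‖Ψ x‖ ^ 2) * H (x i)
        = ∫⁻ x, H x * ENNReal.ofReal (f x) := fun H hH =>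
    Pool.Agent.Helper65.LL.one_body Ψ hst.memLp hst.antisymm f hdens H hH i
  have hint : Integrable (fun x : Fin (n + 1) → Sp d => V (x i) * ‖Ψ x‖ ^ 2) := by
    refine ⟨((hV.comp (measurable_pi_apply i)).aestronglyMeasurable.mul
      (hst.memLp.aestronglyMeasurable.norm.pow 2)), ?_⟩
    rw [HasFiniteIntegral]
    have h1 : ∫⁻ x : Fin (n + 1) → Sp d, ‖V (x i) * ‖Ψ x‖ ^ 2‖ₑ =
        ∫⁻ x : Fin (n + 1) → Sp d, ENNReal.ofReal (‖Ψ x‖ ^ 2) * ‖V (x i)‖ₑ := by
      refine lintegral_congr fun x => ?_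
      rw [enorm_mul, mul_comm, ← ofReal_norm (‖Ψ x‖ ^ 2), Real.norm_eq_abs,
        abs_of_nonneg (sq_nonneg ‖Ψ x‖)]
    rw [h1, hob _ hV.enorm]
    have h2 := hVf.2
    rw [HasFiniteIntegral] at h2
    refine lt_of_le_of_lt (le_of_eq (lintegral_congr fun x => ?_)) h2
    rw [enorm_mul, ← ofReal_norm (f x), Real.norm_eq_abs, abs_of_nonneg (hf0 x)]
  refine ⟨hint, ?_⟩
  rw [integral_eq_lintegral_pos_part_sub_lintegral_neg_part hint,
    integral_eq_lintegral_pos_part_sub_lintegral_neg_part hVf]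
  have h3 : ∫⁻ x : Fin (n + 1) → Sp d, ENNReal.ofReal (V (x i) * ‖Ψ x‖ ^ 2) =
      ∫⁻ x, ENNReal.ofReal (V x * f x) := by
    have h4 : ∀ x : Fin (n + 1) → Sp d, ENNReal.ofReal (V (x i) * ‖Ψ x‖ ^ 2) =
        ENNReal.ofReal (‖Ψ x‖ ^ 2) * ENNReal.ofReal (V (x i)) := fun x => by
      rw [ENNReal.ofReal_mul' (sq_nonneg _), mul_comm]
    have h5 : ∀ x, ENNReal.ofReal (V x * f x) = ENNReal.ofReal (V x) * ENNReal.ofReal (f x) :=
      fun x => ENNReal.ofReal_mul' (hf0 x)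
    simp_rw [h4, h5]
    exact hob (fun x => ENNReal.ofReal (V x)) hV.ennreal_ofReal
  have h6 : ∫⁻ x : Fin (n + 1) → Sp d, ENNReal.ofReal (-(V (x i) * ‖Ψ x‖ ^ 2)) =
      ∫⁻ x, ENNReal.ofReal (-(V x * f x)) := by
    have h4 : ∀ x : Fin (n + 1) → Sp d, ENNReal.ofReal (-(V (x i) * ‖Ψ x‖ ^ 2)) =
        ENNReal.ofReal (‖Ψ x‖ ^ 2) * ENNReal.ofReal (-V (x i)) := fun x => by
      rw [← neg_mul, ENNReal.ofReal_mul' (sq_nonneg _), mul_comm]
    have h5 : ∀ x, ENNReal.ofReal (-(V x * f x)) = ENNReal.ofReal (-V x) * ENNReal.ofReal (f x) :=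
      fun x => by rw [← neg_mul, ENNReal.ofReal_mul' (hf0 x)]
    simp_rw [h4, h5]
    exact hob (fun x => ENNReal.ofReal (-V x)) hV.neg.ennreal_ofReal
  rw [h3, h6]

theorem external_eq {n : ℕ} {Ψ : (Fin (n + 1) → Sp d) → ℂ}
    {D : Fin (n + 1) → Fin d → (Fin (n + 1) → Sp d) → ℂ} (hst : IsFermionState Ψ D)
    {f : Sp d → ℝ} (hf : AEMeasurable f) (hf0 : ∀ x, 0 ≤ f x)
    (hdens : density Ψ =ᵐ[volume] fun x => (n + 1) * f x) {V : Sp d → ℝ}
    (hV : AEStronglyMeasurable V volume) (hVf : Integrable fun x => V x * f x) :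
    external V Ψ = (n + 1) * ∫ x, V x * f x := by
  set V' := hV.mk V with hV'
  have hV'm : Measurable V' := hV.stronglyMeasurable_mk.measurable
  have hae : V =ᵐ[volume] V' := hV.ae_eq_mk
  have hV'f : Integrable fun x => V' x * f x := by
    refine hVf.congr ?_
    filter_upwards [hae] with x hx
    rw [hx]
  have h1 : ∀ᵐ x : Fin (n + 1) → Sp d, ∀ i, V (x i) = V' (x i) :=
    ae_all_iff.2 fun i =>
      (Measure.quasiMeasurePreserving_eval (fun _ : Fin (n + 1) => (volume : Measure (Sp d))) i).ae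
        hae
  unfold external
  have h2 : ∫ x : Fin (n + 1) → Sp d, (∑ i, V (x i)) * ‖Ψ x‖ ^ 2 =
      ∫ x : Fin (n + 1) → Sp d, ∑ i, V' (x i) * ‖Ψ x‖ ^ 2 := by
    refine integral_congr_ae ?_
    filter_upwards [h1] with x hx
    simp_rw [hx]
    rw [Finset.sum_mul]
  rw [h2, integral_finsetSum _ fun i _ => (one_body_real hst hf hf0 hdens hV'm hV'f i).1]
  simp_rw [fun i => (one_body_real hst hf hf0 hdens hV'm hV'f i).2]
  rw [Finset.sum_const, Finset.card_univ, Fintype.card_fin, nsmul_eq_mul]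
  push_cast
  congr 1
  refine integral_congr_ae ?_
  filter_upwards [hae] with x hx
  rw [hx]

/-! ## the kernel -/

/-- measurable even representative of the interaction -/
def kerW (χ : ℝ → Sp d → ℝ) (z : Sp d) : ℝ≥0∞ :=
  ∫⁻ r in Set.Ioi (0 : ℝ), ∫⁻ y, ENNReal.ofReal (χ r y) * ENNReal.ofReal (χ r (z - y))

theorem kerW_measurable {χ : ℝ → Sp d → ℝ} (hχ : Measurable (Function.uncurry χ)) :
    Measurable (kerW χ) := by
  unfold kerW
  have h1 : Measurable fun q : (Sp d × ℝ) × Sp d =>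
      ENNReal.ofReal (χ q.1.2 q.2) * ENNReal.ofReal (χ q.1.2 (q.1.1 - q.2)) := by
    have ha : Measurable fun q : (Sp d × ℝ) × Sp d => ENNReal.ofReal (χ q.1.2 q.2) :=
      (hχ.comp ((measurable_snd.comp measurable_fst).prodMk measurable_snd)).ennreal_ofReal
    have hb : Measurable fun q : (Sp d × ℝ) × Sp d => ENNReal.ofReal (χ q.1.2 (q.1.1 - q.2)) :=
      (hχ.comp ((measurable_snd.comp measurable_fst).prodMk
        ((measurable_fst.comp measurable_fst).sub measurable_snd))).ennreal_ofReal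
    exact ha.mul hb
  have h2 : Measurable fun q : Sp d × ℝ =>
      ∫⁻ y, ENNReal.ofReal (χ q.2 y) * ENNReal.ofReal (χ q.2 (q.1 - y)) :=
    h1.lintegral_prod_right'
  exact h2.lintegral_prod_right'

theorem kerW_even {χ : ℝ → Sp d → ℝ} (hχe : ∀ r x, χ r (-x) = χ r x) (z : Sp d) :
    kerW χ (-z) = kerW χ z := by
  unfold kerW
  refine lintegral_congr fun r => ?_
  rw [← lintegral_neg_eq_self (μ := (volume : Measure (Sp d)))
    (f := fun y => ENNReal.ofReal (χ r y) * ENNReal.ofReal (χ r (-z - y)))]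
  refine lintegral_congr fun y => ?_
  rw [hχe, show -z - -y = -(z - y) by abel, hχe]

end Pool.Agent.Helper1.LL
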