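import Pool.Agent.Helper1.LL.Lower

/-!
# The semiclassical limit of the Levy-Lieb functional
-/

open MeasureTheory Filter Topology
open scoped ENNReal

noncomputable section

namespace Pool.Agent.Helper1.LL

variable {d : ℕ}

/-- direct energy of the density `f` for the interaction `w` -/
def directW (w f : Sp d → ℝ) : ℝ≥0∞ :=
  ∫⁻ x, ∫⁻ y, ENNReal.ofReal (f x) * ENNReal.ofReal (f y) * ENNReal.ofReal (w (x - y))

theorem ae_sub {p : Sp d → Prop} (h : ∀ᵐ z, p z) (x : Sp d) : ∀ᵐ y, p (x - y) :=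
  (Measure.measurePreserving_sub_left volume x).quasiMeasurePreserving.ae h

/-- the double integral in the Thomas-Fermi functional -/
theorem integral_direct {w f : Sp d → ℝ} (hf : Integrable f) (hf0 : ∀ x, 0 ≤ f x)
    (hwm : AEStronglyMeasurable w volume) (hw0 : ∀ᵐ x, 0 ≤ w x) (hfin : directW w f ≠ ⊤) :
    ∫ x, ∫ y, f x * f y * w (x - y) = (directW w f).toReal := by
  have h1 : ∀ x, ∫ y, f x * f y * w (x - y) =
      (∫⁻ y, ENNReal.ofReal (f x) * ENNReal.ofReal (f y) * ENNReal.ofReal (w (x - y))).toReal := by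
    intro x
    have hwx : AEStronglyMeasurable (fun y => w (x - y)) volume :=
      hwm.comp_quasiMeasurePreserving
        (Measure.measurePreserving_sub_left volume x).quasiMeasurePreserving
    rw [integral_eq_lintegral_of_nonneg_ae]
    · congr 1
      refine lintegral_congr fun y => ?_
      rw [ENNReal.ofReal_mul (mul_nonneg (hf0 x) (hf0 y)), ENNReal.ofReal_mul (hf0 x)]
    · filter_upwards [ae_sub hw0 x] with y hy
      exact mul_nonneg (mul_nonneg (hf0 x) (hf0 y)) hy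
    · exact (hf.aestronglyMeasurable.const_mul _).mul hwx
  simp_rw [h1]
  have hm : AEMeasurable (fun q : Sp d × Sp d => ENNReal.ofReal (f q.1) * ENNReal.ofReal (f q.2)
      * ENNReal.ofReal (w (q.1 - q.2))) (volume.prod volume) := by
    have h2 : AEMeasurable (fun q : Sp d × Sp d => w (q.1 - q.2)) (volume.prod volume) := by
      have h3 : Measure.QuasiMeasurePreserving (fun q : Sp d × Sp d => q.1 - q.2)
          (volume.prod volume) volume :=
        (quasiMeasurePreserving_sub_of_right_invariant volume volume)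
      exact hwm.aemeasurable.comp_quasiMeasurePreserving h3
    exact ((hf.aemeasurable.comp_quasiMeasurePreserving
      Measure.quasiMeasurePreserving_fst).ennreal_ofReal.mul
      (hf.aemeasurable.comp_quasiMeasurePreserving
      Measure.quasiMeasurePreserving_snd).ennreal_ofReal).mul h2.ennreal_ofReal
  have hm' : AEMeasurable (fun x => ∫⁻ y, ENNReal.ofReal (f x) * ENNReal.ofReal (f y)
      * ENNReal.ofReal (w (x - y))) := hm.lintegral_prod_right'
  rw [integral_toReal hm' (ae_lt_top' hm' hfin)]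
  rfl

/-- relation with the measurable kernel -/
theorem directE_eq {w f φ : Sp d → ℝ} {W : Sp d → ℝ≥0∞}
    (hW : ∀ᵐ x, ENNReal.ofReal (w x) = W x) (hφ : ∀ᵐ x, φ x ^ 2 = f x) :
    directE W φ = directW w f := by
  unfold directE directW
  refine lintegral_congr_ae ?_
  filter_upwards [hφ] with x hx
  refine lintegral_congr_ae ?_
  filter_upwards [hφ, ae_sub hW x] with y hy hw
  rw [ENNReal.ofReal_mul (sq_nonneg _), hx, hy, hw, mul_comm]

theorem energy_real {n : ℕ} {h lam : ℝ} {V w : Sp d → ℝ} {Ψ : (Fin (n + 1) → Sp d) → ℂ}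
    {D : Fin (n + 1) → Fin d → (Fin (n + 1) → Sp d) → ℂ}
    {x : ℝ≥0∞} (hx : interaction w Ψ ≤ x) (hxt : x ≠ ⊤) (hlam : 0 ≤ lam) :
    energy h lam V w Ψ D ≤
      (((n + 1 : ℝ)⁻¹ * (h ^ 2 * kinetic D + external V Ψ) + lam / (n + 1) * x.toReal : ℝ) : EReal)
      := by
  unfold energy
  rw [EReal.coe_add]
  refine add_le_add le_rfl ?_
  have h1 : ENNReal.ofReal (lam / (n + 1)) * interaction w Ψ ≤
      ENNReal.ofReal (lam / (n + 1) * x.toReal) := by
    rw [ENNReal.ofReal_mul (by positivity), ENNReal.ofReal_toReal hxt]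
    gcongr
  refine (EReal.coe_ennreal_le_coe_ennreal_iff.2 h1).trans ?_
  rw [EReal.coe_ennreal_ofReal, max_eq_left (by positivity)]

theorem energy_real_lower {n : ℕ} {h lam : ℝ} {V w : Sp d → ℝ} {Ψ : (Fin (n + 1) → Sp d) → ℂ}
    {D : Fin (n + 1) → Fin d → (Fin (n + 1) → Sp d) → ℂ}
    {x : ℝ} (hx : ENNReal.ofReal x ≤ interaction w Ψ) (hlam : 0 ≤ lam) :
    (((n + 1 : ℝ)⁻¹ * (h ^ 2 * kinetic D + external V Ψ) + lam / (n + 1) * x : ℝ) : EReal) ≤
      energy h lam V w Ψ D := by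
  unfold energy
  rw [EReal.coe_add]
  refine add_le_add le_rfl ?_
  have h1 : ENNReal.ofReal (lam / (n + 1) * x) ≤
      ENNReal.ofReal (lam / (n + 1)) * interaction w Ψ := by
    rw [ENNReal.ofReal_mul (by positivity)]
    gcongr
  refine le_trans ?_ (EReal.coe_ennreal_le_coe_ennreal_iff.2 h1)
  rw [EReal.coe_ennreal_ofReal]
  exact_mod_cast le_max_left _ _

section limits

variable {h lam : ℕ → ℝ}

theorem lim_scale (hd : 1 ≤ d)
    (hh : Tendsto (fun N : ℕ => h N * (N : ℝ) ^ (1 / d : ℝ)) atTop (𝓝 1)) :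
    Tendsto (fun n : ℕ => h (n + 1) ^ 2 * ((n : ℝ) + 1) ^ (2 / d : ℝ)) atTop (𝓝 1) := by
  have h1 := (hh.comp (tendsto_add_atTop_nat 1)).pow 2
  rw [one_pow] at h1
  refine h1.congr fun n => ?_
  simp only [Function.comp_apply]
  rw [mul_pow]
  congr 1
  push_cast
  rw [← Real.rpow_natCast, ← Real.rpow_mul (by positivity)]
  congr 1
  push_cast
  ring

theorem lim_h2 (hd : 1 ≤ d)
    (hh : Tendsto (fun N : ℕ => h N * (N : ℝ) ^ (1 / d : ℝ)) atTop (𝓝 1)) :
    Tendsto (fun n : ℕ => h (n + 1) ^ 2) atTop (𝓝 0) := by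
  have hd' : (0 : ℝ) < d := by exact_mod_cast hd
  have h1 := lim_scale hd hh
  have h2 : Tendsto (fun n : ℕ => ((n : ℝ) + 1) ^ (-(2 / d) : ℝ)) atTop (𝓝 0) :=
    (tendsto_rpow_neg_atTop (by positivity)).comp
      (tendsto_atTop_add_const_right _ _ tendsto_natCast_atTop_atTop)
  have h3 := h1.mul h2
  rw [one_mul] at h3
  refine h3.congr fun n => ?_
  rw [mul_assoc, ← Real.rpow_add (by positivity)]
  simp

theorem lim_lam (hl : Tendsto (fun N : ℕ => lam N * N) atTop (𝓝 1)) :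
    Tendsto (fun n : ℕ => lam (n + 1) * ((n : ℝ) + 1)) atTop (𝓝 1) := by
  have h1 := hl.comp (tendsto_add_atTop_nat 1)
  refine h1.congr fun n => ?_
  simp

theorem lim_lam0 (hl : Tendsto (fun N : ℕ => lam N * N) atTop (𝓝 1)) :
    Tendsto (fun n : ℕ => lam (n + 1)) atTop (𝓝 0) := by
  have h1 := lim_lam hl
  have h2 : Tendsto (fun n : ℕ => ((n : ℝ) + 1)⁻¹) atTop (𝓝 0) :=
    tendsto_inv_atTop_zero.comp
      (tendsto_atTop_add_const_right _ _ tendsto_natCast_atTop_atTop)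
  have h3 := h1.mul h2
  rw [one_mul] at h3
  refine h3.congr fun n => ?_
  rw [mul_assoc, mul_inv_cancel₀ (by positivity), mul_one]

theorem lam_nonneg (hl : Tendsto (fun N : ℕ => lam N * N) atTop (𝓝 1)) :
    ∀ᶠ n : ℕ in atTop, 0 ≤ lam (n + 1) := by
  filter_upwards [(lim_lam hl).eventually (eventually_gt_nhds (show (0 : ℝ) < 1 by norm_num))]
    with n hn
  have : (0 : ℝ) < (n : ℝ) + 1 := by positivity
  exact ((mul_pos_iff_of_pos_right this).1 hn).le

end limits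

/-- The data of the problem, with the facts about it used in the proof. -/
structure Data (hd : 1 ≤ d) (V w f : Sp d → ℝ) (χ : ℝ → Sp d → ℝ) (h lam : ℕ → ℝ) : Prop where
  hV : InLpSum (1 + d / 2 : ℝ) V
  hw : InLpSum (1 + d / 2 : ℝ) w
  hχ : Measurable (Function.uncurry χ)
  hχ0 : ∀ r x, 0 ≤ χ r x
  hχe : ∀ r x, χ r (-x) = χ r x
  hw0 : ∀ᵐ x, 0 ≤ w x
  hwχ : ∀ᵐ x, ENNReal.ofReal (w x) =
      ∫⁻ r in Set.Ioi (0 : ℝ), ∫⁻ y, ENNReal.ofReal (χ r y) * ENNReal.ofReal (χ r (x - y))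
  hf : Integrable f
  hf0 : ∀ x, 0 ≤ f x
  hf1 : ∫ x, f x = 1
  hfp : Integrable fun x => f x ^ (1 + 2 / d : ℝ)
  hIw : directW w f ≠ ⊤
  hh : Tendsto (fun N : ℕ => h N * (N : ℝ) ^ (1 / d : ℝ)) atTop (𝓝 1)
  hl : Tendsto (fun N : ℕ => lam N * N) atTop (𝓝 1)

variable {hd : 1 ≤ d} {V w f : Sp d → ℝ} {χ : ℝ → Sp d → ℝ} {h lam : ℕ → ℝ}

theorem Data.thomasFermi_eq (X : Data hd V w f χ h lam) :
    thomasFermi V w f = Kcl d * (∫ x, f x ^ (1 + 2 / d : ℝ)) + (∫ x, V x * f x)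
      + (1 / 2) * (directW w f).toReal := by
  unfold thomasFermi
  rw [integral_direct X.hf X.hf0 X.hw.aestronglyMeasurable X.hw0 X.hIw]

theorem Data.lower (X : Data hd V w f χ h lam) {ε : ℝ} (hε : 0 < ε) :
    ∀ᶠ n : ℕ in atTop, ∀ (Ψ : (Fin (n + 1) → Sp d) → ℂ)
      (D : Fin (n + 1) → Fin d → (Fin (n + 1) → Sp d) → ℂ), IsFermionState Ψ D →
      (density Ψ =ᵐ[volume] fun x => (n + 1) * f x) →
      ((thomasFermi V w f - ε : ℝ) : EReal) ≤ energy (h (n + 1)) (lam (n + 1)) V w Ψ D := by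
  have hK0 := Kcl_nonneg d
  set p : ℝ := 1 + 2 / d with hp
  have hp0 : 0 < p := by positivity
  set If : ℝ := ∫ x, f x ^ p with hIf
  set Iw : ℝ := (directW w f).toReal with hIwdef
  have hIf0 : 0 ≤ If := integral_nonneg fun x => Real.rpow_nonneg (X.hf0 x) _
  have hIw0 : 0 ≤ Iw := ENNReal.toReal_nonneg
  -- window
  set ε₁ : ℝ := ε / (4 * (Kcl d + 1)) with hε₁
  have hε₁p : 0 < ε₁ := by positivity
  obtain ⟨g, hg, hgc, hg1, cg, hcg0, hkin⟩ : ∃ g : Sp d → ℝ, ContDiff ℝ (⊤ : ℕ∞) g ∧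
      HasCompactSupport g ∧ ∫ x, g x ^ 2 = 1 ∧ ∃ cg : ℝ, 0 ≤ cg ∧
      ∀ n (Ψ : (Fin (n + 1) → Sp d) → ℂ)
      (D : Fin (n + 1) → Fin d → (Fin (n + 1) → Sp d) → ℂ), IsFermionState Ψ D →
      (density Ψ =ᵐ[volume] fun x => (n + 1) * f x) →
      Kcl d * (n + 1 : ℝ) ^ p * (If - ε₁) ≤ kinetic D + (n + 1) * cg := by
    rcases le_or_gt If ε₁ with hle | hgt
    · -- trivial case: use any window
      have hpos : (0 : ℝ≥0∞) < ∫⁻ x, ENNReal.ofReal (f x) ^ p := by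
        rw [pos_iff_ne_zero]
        intro hz
        have hz' : (fun x => ENNReal.ofReal (f x) ^ p) =ᵐ[volume] 0 :=
          (lintegral_eq_zero_iff' (X.hf.aemeasurable.ennreal_ofReal.pow_const p)).1 hz
        have : ∫ x, f x = 0 := by
          rw [integral_eq_zero_iff_of_nonneg X.hf0 X.hf]
          filter_upwards [hz'] with x hx
          have h2 : ENNReal.ofReal (f x) ^ p = 0 := hx
          rw [ENNReal.rpow_eq_zero_iff_of_pos hp0, ENNReal.ofReal_eq_zero] at h2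
          exact le_antisymm h2 (X.hf0 x)
        rw [X.hf1] at this
        exact one_ne_zero this
      obtain ⟨g, hg, hgc, hg1, -⟩ := Inputs.window_limit hd f X.hf X.hf0 0 hpos
      refine ⟨g, hg, hgc, hg1, 0, le_rfl, fun n Ψ D hst hden => ?_⟩
      have h2 : 0 ≤ kinetic D := by
        unfold kinetic
        positivity
      have h3 : Kcl d * (n + 1 : ℝ) ^ p * (If - ε₁) ≤ 0 :=
        mul_nonpos_of_nonneg_of_nonpos (by positivity) (by linarith)
      linarith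
    · have hlt : ENNReal.ofReal (If - ε₁) < ∫⁻ x, ENNReal.ofReal (f x) ^ p := by
        have h1 : ∫⁻ x, ENNReal.ofReal (f x) ^ p = ENNReal.ofReal If := by
          rw [hIf, ofReal_integral_eq_lintegral_ofReal X.hfp
            (Eventually.of_forall fun x => Real.rpow_nonneg (X.hf0 x) _)]
          refine lintegral_congr fun x => ?_
          rw [ENNReal.ofReal_rpow_of_nonneg (X.hf0 x) hp0.le]
        rw [h1, ENNReal.ofReal_lt_ofReal_iff (by linarith)]
        linarith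
      have hlt' : ((If - ε₁).toNNReal : ℝ≥0∞) < ∫⁻ x, ENNReal.ofReal (f x) ^ p := hlt
      obtain ⟨g, hg, hgc, hg1, hgL⟩ := Inputs.window_limit hd f X.hf X.hf0 _ hlt'
      refine ⟨g, hg, hgc, hg1, ∑ a, ∫ x, (fderiv ℝ g x (eb a)) ^ 2, by positivity,
        fun n Ψ D hst hden => ?_⟩
      have h1 := Inputs.kinetic_lower hd Ψ D hst.memLp hst.normalized hst.antisymm hst.memLp_grad
        hst.weak f X.hf X.hf0 hden g hg hgc hg1
      have h2 : ENNReal.ofReal (Kcl d * (n + 1 : ℝ) ^ p) * ENNReal.ofReal (If - ε₁) ≤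
          ENNReal.ofReal (kinetic D)
            + ENNReal.ofReal ((n + 1 : ℝ) * ∑ a, ∫ x, (fderiv ℝ g x (eb a)) ^ 2) :=
        (mul_le_mul_right hgL.le _).trans h1
      have h3 : 0 ≤ kinetic D := by
        unfold kinetic
        positivity
      rw [← ENNReal.ofReal_mul (by positivity), ← ENNReal.ofReal_add h3 (by positivity)] at h2
      exact (ENNReal.ofReal_le_ofReal_iff (by positivity)).1 h2
  -- interaction
  obtain ⟨hCM, hIM⟩ := Pool.Agent.Helper65.LL.interaction_limit f X.hf X.hf0 χ X.hχ X.hχ0 X.hχe w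
    X.hw.aestronglyMeasurable.aemeasurable X.hwχ
  obtain ⟨M, C, hM0, hC0, hint⟩ : ∃ (M C : ℝ), 0 ≤ M ∧ 0 ≤ C ∧
      ∀ n (Ψ : (Fin (n + 1) → Sp d) → ℂ)
      (D : Fin (n + 1) → Fin d → (Fin (n + 1) → Sp d) → ℂ), IsFermionState Ψ D →
      (density Ψ =ᵐ[volume] fun x => (n + 1) * f x) →
      ENNReal.ofReal ((n + 1 : ℝ) ^ 2 / 2 * (Iw - ε / 4) - (n + 1) / 2 * C) ≤
        interaction w Ψ := by
    have h1 : ∀ᶠ M : ℕ in atTop, ENNReal.ofReal (Iw - ε / 4) ≤
        ∫⁻ r, ∫⁻ u, (∫⁻ x, chiM χ (M : ℝ) r (u - x) * ENNReal.ofReal (f x)) ^ 2 := by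
      rcases le_or_gt (Iw - ε / 4) 0 with hle | hgt
      · refine Eventually.of_forall fun M => ?_
        rw [ENNReal.ofReal_of_nonpos hle]
        exact zero_le
      · have h2 : ENNReal.ofReal (Iw - ε / 4) < directW w f := by
          rw [← ENNReal.ofReal_toReal X.hIw, ENNReal.ofReal_lt_ofReal_iff (by linarith)]
          linarith
        exact (hIM.eventually (eventually_gt_nhds h2)).mono fun _ => le_of_lt
    obtain ⟨M, hM⟩ := h1.exists
    refine ⟨M, (∫⁻ r, ∫⁻ u, (chiM χ (M : ℝ) r u) ^ 2).toReal, Nat.cast_nonneg M,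
      ENNReal.toReal_nonneg, fun n Ψ D hst hden => ?_⟩
    have h3 := Pool.Agent.Helper65.LL.interaction_lower Ψ hst.memLp hst.normalized hst.antisymm f
      X.hf X.hf0 X.hf1 hden χ X.hχ X.hχ0 X.hχe w X.hw.aestronglyMeasurable.aemeasurable X.hwχ M
      (Nat.cast_nonneg M)
    have h4 : ENNReal.ofReal ((n + 1 : ℝ) ^ 2 / 2) * ENNReal.ofReal (Iw - ε / 4) ≤
        interaction w Ψ + ENNReal.ofReal ((n + 1 : ℝ) / 2)
          * ∫⁻ r, ∫⁻ u, (chiM χ (M : ℝ) r u) ^ 2 :=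
      (mul_le_mul_right hM _).trans h3
    rw [← ENNReal.ofReal_toReal (hCM M).ne, ← ENNReal.ofReal_mul (by positivity),
      ← ENNReal.ofReal_mul (by positivity)] at h4
    rw [ENNReal.ofReal_sub _ (by positivity)]
    exact tsub_le_iff_right.2 h4
  -- limit
  have hlim : Tendsto (fun n : ℕ => h (n + 1) ^ 2 * ((n : ℝ) + 1) ^ (2 / d : ℝ) *
      (Kcl d * (If - ε₁)) - h (n + 1) ^ 2 * cg + (∫ x, V x * f x)
        + (lam (n + 1) * ((n : ℝ) + 1) * (1 / 2 * (Iw - ε / 4)) - lam (n + 1) * (C / 2)))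
      atTop (𝓝 (1 * (Kcl d * (If - ε₁)) - 0 * cg + (∫ x, V x * f x)
        + (1 * (1 / 2 * (Iw - ε / 4)) - 0 * (C / 2)))) :=
    ((((lim_scale hd X.hh).mul_const _).sub ((lim_h2 hd X.hh).mul_const _)).add_const _).add
      (((lim_lam X.hl).mul_const _).sub ((lim_lam0 X.hl).mul_const _))
  have hlt : thomasFermi V w f - ε < 1 * (Kcl d * (If - ε₁)) - 0 * cg + (∫ x, V x * f x)
        + (1 * (1 / 2 * (Iw - ε / 4)) - 0 * (C / 2)) := by
    rw [X.thomasFermi_eq]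
    have h1 : Kcl d * ε₁ ≤ ε / 4 := by
      rw [hε₁, mul_div_assoc', div_le_div_iff₀ (by positivity) (by norm_num)]
      nlinarith
    linarith
  filter_upwards [hlim.eventually (eventually_gt_nhds hlt), lam_nonneg X.hl] with n hn hlam Ψ D hst hden
  refine le_trans ?_ (energy_real_lower (hint n Ψ D hst hden) hlam)
  refine EReal.coe_le_coe_iff.2 (hn.le.trans ?_)
  rw [external_eq hst X.hf.aemeasurable X.hf0 hden X.hV.aestronglyMeasurable
    (integrable_V_mul hd X.hV X.hf X.hf0 X.hfp)]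
  have h1 := hkin n Ψ D hst hden
  have hN : (0 : ℝ) < (n : ℝ) + 1 := by positivity
  have h2 : h (n + 1) ^ 2 * ((n : ℝ) + 1) ^ (2 / d : ℝ) * (Kcl d * (If - ε₁)) -
      h (n + 1) ^ 2 * cg ≤ ((n : ℝ) + 1)⁻¹ * (h (n + 1) ^ 2 * kinetic D) := by
    have h3 : ((n : ℝ) + 1) ^ p = ((n : ℝ) + 1) * ((n : ℝ) + 1) ^ (2 / d : ℝ) := by
      rw [hp, Real.rpow_add hN, Real.rpow_one]
    rw [h3] at h1
    have h4 : h (n + 1) ^ 2 * ((n : ℝ) + 1) ^ (2 / d : ℝ) * (Kcl d * (If - ε₁)) -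
      h (n + 1) ^ 2 * cg = ((n : ℝ) + 1)⁻¹ * (h (n + 1) ^ 2 *
        (Kcl d * (((n : ℝ) + 1) * ((n : ℝ) + 1) ^ (2 / d : ℝ)) * (If - ε₁)
          - ((n : ℝ) + 1) * cg)) := by
      field_simp
    rw [h4]
    gcongr
    linarith
  have h5 : ((n : ℝ) + 1)⁻¹ * (((n : ℝ) + 1) * ∫ x, V x * f x) = ∫ x, V x * f x := by
    field_simp
  have h6 : lam (n + 1) / (n + 1) * (((n : ℝ) + 1) ^ 2 / 2 * (Iw - ε / 4) - ((n : ℝ) + 1) / 2 * C)
      = lam (n + 1) * ((n : ℝ) + 1) * (1 / 2 * (Iw - ε / 4)) - lam (n + 1) * (C / 2) := by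
    field_simp
  rw [mul_add (((n : ℝ) + 1)⁻¹), h5, h6]
  linarith

/-- The upper bound needs `√f ∈ H¹`, in the form of a measurable representative. -/
theorem Data.upper (X : Data hd V w f χ h lam) {φ : Sp d → ℝ} {G : Fin d → Sp d → ℝ}
    (hφ : IsH1 φ G) (hφm : Measurable φ) (hφ0 : ∀ x, 0 ≤ φ x) (hφf : ∀ᵐ x, φ x ^ 2 = f x)
    {ε : ℝ} (hε : 0 < ε) :
    ∀ᶠ n : ℕ in atTop, ∃ (Ψ : (Fin (n + 1) → Sp d) → ℂ)
      (D : Fin (n + 1) → Fin d → (Fin (n + 1) → Sp d) → ℂ), IsFermionState Ψ D ∧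
      (density Ψ =ᵐ[volume] fun x => (n + 1) * f x) ∧
      energy (h (n + 1)) (lam (n + 1)) V w Ψ D ≤ ((thomasFermi V w f + ε : ℝ) : EReal) := by
  have hK0 := Kcl_nonneg d
  have hWm := kerW_measurable X.hχ
  have hWe := kerW_even X.hχe
  have hdE : directE (kerW χ) φ = directW w f := directE_eq X.hwχ hφf
  have hφ1 : ∫ x, φ x ^ 2 = 1 := by
    rw [integral_congr_ae hφf]
    exact X.hf1
  have hpow : ∫ x, φ x ^ (2 + 4 / d : ℝ) = ∫ x, f x ^ (1 + 2 / d : ℝ) := by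
    refine integral_congr_ae ?_
    filter_upwards [hφf] with x hx
    rw [← hx, ← Real.rpow_natCast, ← Real.rpow_mul (hφ0 x)]
    congr 1
    push_cast
    ring
  set ε₁ : ℝ := ε / 4 with hε₁
  have hε₁p : 0 < ε₁ := by positivity
  obtain ⟨N₀, hN₀⟩ := upper_bound hd hφ hφm hφ0 hφ1 hWm hWe (by rw [hdE]; exact X.hIw) hε₁p
  set If : ℝ := ∫ x, f x ^ (1 + 2 / d : ℝ) with hIf
  set Iw : ℝ := (directW w f).toReal with hIwdef
  have hIw0 : 0 ≤ Iw := ENNReal.toReal_nonneg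
  have hlim : Tendsto (fun n : ℕ => h (n + 1) ^ 2 * ((n : ℝ) + 1) ^ (2 / d : ℝ) *
      (Kcl d * If + ε₁) + (∫ x, V x * f x)
        + lam (n + 1) * ((n : ℝ) + 1) * (1 / 2 * (Iw + ε₁)))
      atTop (𝓝 (1 * (Kcl d * If + ε₁) + (∫ x, V x * f x)
        + 1 * (1 / 2 * (Iw + ε₁)))) :=
    (((lim_scale hd X.hh).mul_const _).add_const _).add
      ((lim_lam X.hl).mul_const _)
  have hlt : 1 * (Kcl d * If + ε₁) + (∫ x, V x * f x)
        + 1 * (1 / 2 * (Iw + ε₁)) < thomasFermi V w f + ε := by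
    rw [X.thomasFermi_eq]
    linarith
  filter_upwards [hlim.eventually (eventually_lt_nhds hlt), lam_nonneg X.hl,
    eventually_ge_atTop N₀] with n hn hlam hnN
  obtain ⟨Ψ, D, hst, hden, hkin, hpe⟩ := hN₀ n hnN
  have hden' : density Ψ =ᵐ[volume] fun x => (n + 1) * f x := by
    filter_upwards [hden, hφf] with x hx1 hx2
    rw [hx1, hx2]
  refine ⟨Ψ, D, hst, hden', ?_⟩
  have hint : interaction w Ψ ≤ ENNReal.ofReal ((n + 1 : ℝ) ^ 2 / 2 * (Iw + ε₁)) := by
    rw [interaction_eq_pairEnergy, pairEnergy_congr (W' := kerW χ) X.hwχ]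
    refine hpe.trans (le_of_eq ?_)
    rw [hdE, ENNReal.ofReal_mul (by positivity), ENNReal.ofReal_add hIw0 hε₁p.le,
      ENNReal.ofReal_toReal X.hIw]
  refine (energy_real hint ENNReal.ofReal_ne_top hlam).trans (EReal.coe_le_coe_iff.2 ?_)
  refine le_trans ?_ hn.le
  rw [ENNReal.toReal_ofReal (by positivity),
    external_eq hst X.hf.aemeasurable X.hf0 hden' X.hV.aestronglyMeasurable
    (integrable_V_mul hd X.hV X.hf X.hf0 X.hfp)]
  have hN : (0 : ℝ) < (n : ℝ) + 1 := by positivity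
  rw [hpow] at hkin
  have h2 : ((n : ℝ) + 1)⁻¹ * (h (n + 1) ^ 2 * kinetic D) ≤
      h (n + 1) ^ 2 * ((n : ℝ) + 1) ^ (2 / d : ℝ) * (Kcl d * If + ε₁) := by
    have h3 : ((n : ℝ) + 1) ^ (1 + 2 / d : ℝ) = ((n : ℝ) + 1) * ((n : ℝ) + 1) ^ (2 / d : ℝ) := by
      rw [Real.rpow_add hN, Real.rpow_one]
    rw [h3] at hkin
    have h4 : h (n + 1) ^ 2 * ((n : ℝ) + 1) ^ (2 / d : ℝ) * (Kcl d * If + ε₁) =
        ((n : ℝ) + 1)⁻¹ * (h (n + 1) ^ 2 *
        (((n : ℝ) + 1) * ((n : ℝ) + 1) ^ (2 / d : ℝ) * (Kcl d * If + ε₁))) := by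
      field_simp
    rw [h4]
    gcongr
  have h5 : ((n : ℝ) + 1)⁻¹ * (((n : ℝ) + 1) * ∫ x, V x * f x) = ∫ x, V x * f x := by
    field_simp
  have h6 : lam (n + 1) / (n + 1) * (((n : ℝ) + 1) ^ 2 / 2 * (Iw + ε₁))
      = lam (n + 1) * ((n : ℝ) + 1) * (1 / 2 * (Iw + ε₁)) := by
    field_simp
  rw [mul_add (((n : ℝ) + 1)⁻¹), h5, h6]
  linarith

/-- The main theorem. -/
theorem levyLieb_tendsto (hd : 1 ≤ d) (V w f : Sp d → ℝ) (hV : InLpSum (1 + d / 2 : ℝ) V)
    (hw : AdmissibleInteraction w) (hf0 : ∀ x, 0 ≤ f x)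
    (hfH : ∃ G, IsH1 (fun x => Real.sqrt (f x)) G) (hf1 : ∫ x, f x = 1)
    (h lam : ℕ → ℝ)
    (hh : Tendsto (fun N : ℕ => h N * (N : ℝ) ^ (1 / d : ℝ)) atTop (𝓝 1))
    (hl : Tendsto (fun N : ℕ => lam N * N) atTop (𝓝 1)) :
    Tendsto (fun n : ℕ => levyLieb n (h (n + 1)) (lam (n + 1)) V w f) atTop
      (𝓝 ((thomasFermi V w f : ℝ) : EReal)) := by
  obtain ⟨G, hG⟩ := hfH
  obtain ⟨hwL, χ, hχ, hχ0, hχr, -, hwχ⟩ := hw
  -- measurable representative
  set φ₁ : Sp d → ℝ := hG.memLp.aestronglyMeasurable.mk _ with hφ₁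
  have hφ₁m : Measurable φ₁ := hG.memLp.aestronglyMeasurable.stronglyMeasurable_mk.measurable
  have hφ₁e : (fun x => Real.sqrt (f x)) =ᵐ[volume] φ₁ := hG.memLp.aestronglyMeasurable.ae_eq_mk
  set φ : Sp d → ℝ := fun x => |φ₁ x| with hφdef
  have hφe : (fun x => Real.sqrt (f x)) =ᵐ[volume] φ := by
    filter_upwards [hφ₁e] with x hx
    rw [hφdef]
    simp only
    rw [← hx, abs_of_nonneg (Real.sqrt_nonneg _)]
  have hφm : Measurable φ := hφ₁m.abs
  have hφ0 : ∀ x, 0 ≤ φ x := fun x => abs_nonneg _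
  have hφH : IsH1 φ G := by
    refine ⟨(memLp_congr_ae hφe).1 hG.memLp, hG.memLp_grad, fun a χ' hχ' hc => ?_⟩
    rw [← hG.weak a χ' hχ' hc]
    refine integral_congr_ae ?_
    filter_upwards [hφe] with x hx
    rw [← hx]
  have hφf : ∀ᵐ x, φ x ^ 2 = f x := by
    filter_upwards [hφe] with x hx
    rw [← hx, Real.sq_sqrt (hf0 x)]
  have hfi : Integrable f := by
    refine hφH.memLp.integrable_sq.congr ?_
    filter_upwards [hφf] with x hx
    exact hx
  have hd' : (0 : ℝ) < d := by exact_mod_cast hd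
  have hexp : (0 : ℝ) < 2 + 4 / d := by positivity
  have hφp : Integrable fun x => (φ x ^ 2) ^ (1 + 2 / d : ℝ) := by
    have h1 := (Inputs.IsH1.sobolev hd hφH).integrable_norm_rpow (by simpa using hexp)
      ENNReal.ofReal_ne_top
    rw [ENNReal.toReal_ofReal hexp.le] at h1
    refine h1.congr (Eventually.of_forall fun x => ?_)
    simp only [Real.norm_eq_abs, abs_of_nonneg (hφ0 x)]
    rw [← Real.rpow_natCast, ← Real.rpow_mul (hφ0 x)]
    congr 1
    push_cast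
    ring
  have hfp : Integrable fun x => f x ^ (1 + 2 / d : ℝ) := by
    refine hφp.congr ?_
    filter_upwards [hφf] with x hx
    rw [hx]
  have hIw : directW w f ≠ ⊤ := by
    have h1 := directE_lt_top hd hwL hφm hφH.memLp.integrable_sq hφp
    refine ne_of_lt (lt_of_le_of_lt ?_ h1)
    unfold directW
    refine le_of_eq_of_le (b := ∫⁻ x, ∫⁻ y, ENNReal.ofReal (φ x ^ 2) * ENNReal.ofReal (φ y ^ 2)
      * ENNReal.ofReal (w (x - y))) ?_ ?_
    · refine lintegral_congr_ae ?_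
      filter_upwards [hφf] with x hx
      refine lintegral_congr_ae ?_
      filter_upwards [hφf] with y hy
      rw [hx, hy]
    · refine lintegral_mono fun x => lintegral_mono fun y => ?_
      rw [mul_comm, ENNReal.ofReal_mul (sq_nonneg (φ x))]
      gcongr
      exact le_abs_self _
  have X : Data hd V w f χ h lam :=
    { hV := hV
      hw := hwL
      hχ := hχ
      hχ0 := hχ0
      hχe := fun r x => hχr r _ _ (norm_neg x)
      hw0 := hwχ.mono fun x hx => hx.1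
      hwχ := hwχ.mono fun x hx => hx.2
      hf := hfi
      hf0 := hf0
      hf1 := hf1
      hfp := hfp
      hIw := hIw
      hh := hh
      hl := hl }
  rw [tendsto_order]
  constructor
  · intro a ha
    obtain ⟨b, hb1, hb2⟩ := EReal.lt_iff_exists_real_btwn.1 ha
    have hb : 0 < thomasFermi V w f - b := sub_pos.2 (EReal.coe_lt_coe_iff.1 hb2)
    filter_upwards [X.lower hb] with n hn
    refine lt_of_lt_of_le hb1 ?_
    unfold levyLieb
    refine le_iInf fun Ψ => le_iInf fun D => le_iInf fun hst => le_iInf fun hden => ?_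
    have := hn Ψ D hst hden
    rwa [sub_sub_cancel] at this
  · intro a ha
    obtain ⟨b, hb1, hb2⟩ := EReal.lt_iff_exists_real_btwn.1 ha
    have hb : 0 < b - thomasFermi V w f := sub_pos.2 (EReal.coe_lt_coe_iff.1 hb1)
    filter_upwards [X.upper hφH hφm hφ0 hφf hb] with n hn
    obtain ⟨Ψ, D, hst, hden, hle⟩ := hn
    refine lt_of_le_of_lt ?_ hb2
    unfold levyLieb
    refine (iInf_le _ Ψ).trans ((iInf_le _ D).trans ((iInf_le _ hst).trans
      ((iInf_le _ hden).trans ?_)))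
    rwa [add_sub_cancel] at hle

end Pool.Agent.Helper1.LL
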