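import Pool.Agent.Helper1.LL.Prof2

/-!
# Masses of the classes
-/

open MeasureTheory Filter Topology
open scoped ENNReal

noncomputable section

set_option linter.unusedSectionVars false

namespace Pool.Agent.Helper1.LL

variable {d L : ℕ}

/-- region of all slabs -/
def slabReg (L : ℕ) (τ : ℕ → ℝ) (a : Fin d) : Set (Sp d) := {x | τ 0 < x a ∧ x a ≤ τ (9 * (L + 1))}

theorem measurableSet_slabReg (τ : ℕ → ℝ) (a : Fin d) : MeasurableSet (slabReg L τ a) :=
  (measurableSet_lt measurable_const (measurable_coord a)).inter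
    (measurableSet_le (measurable_coord a) measurable_const)

/-- mass taken by slab `p` -/
def massT (τ : ℕ → ℝ) (a : Fin d) (φ : Sp d → ℝ) (p : Slab L) : ℝ :=
  ∫ x, (1 - omP τ p (x a) ^ 2) * φ x ^ 2

/-- mass of the label bump of slab `p` -/
def massZ (τ : ℕ → ℝ) (a : Fin d) (φ : Sp d → ℝ) (p : Slab L) : ℝ :=
  ∫ x, zeP τ p (x a) ^ 2 * φ x ^ 2

/-- class amplitudes -/
def ampA (L : ℕ) (τ : ℕ → ℝ) (a : Fin d) (φ : Sp d → ℝ) (m : Fin 3) : ℝ :=
  (1 / 3 - ∑ p : Slab L, if p.1 = m + 1 then massT τ a φ p else 0) /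
    (1 - ∑ p : Slab L, massT τ a φ p)

/-- a bounded continuous profile times an integrable function -/
theorem integrable_profile_mul {φ : Sp d → ℝ} (hφ : MemLp φ 2) (a : Fin d) {g : ℝ → ℝ}
    (hg : Continuous g) {K : ℝ} (hK : ∀ t, |g t| ≤ K) :
    Integrable (fun x => g (x a) * φ x ^ 2) := by
  refine (hφ.integrable_sq).bdd_mul (c := K) ?_ ?_
  · exact (hg.measurable.comp (measurable_coord a)).aestronglyMeasurable
  · exact Eventually.of_forall fun x => hK _

theorem continuous_omP {τ : ℕ → ℝ} (hτ : StrictMono τ) (p : Slab L) : Continuous (omP τ p) :=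
  (omP_BC1 hτ p).1.continuous

theorem continuous_zeP (τ : ℕ → ℝ) (p : Slab L) : Continuous (zeP τ p) :=
  (zeP_BC1 p).1.continuous

section
variable {τ : ℕ → ℝ} (hτ : StrictMono τ) {φ : Sp d → ℝ} (hφ : MemLp φ 2)
  (hφ1 : ∫ x, φ x ^ 2 = 1) (a : Fin d)

include hτ hφ

theorem integrable_massT (p : Slab L) :
    Integrable fun x => (1 - omP τ p (x a) ^ 2) * φ x ^ 2 := by
  refine integrable_profile_mul hφ a (g := fun t => 1 - omP τ p t ^ 2) (K := 1) ?_ fun t => ?_
  · exact continuous_const.sub ((continuous_omP hτ p).pow 2)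
  · have := omP_mem hτ p t
    rw [abs_le]; constructor <;> nlinarith

omit hτ in
theorem integrable_massZ (p : Slab L) :
    Integrable fun x => zeP τ p (x a) ^ 2 * φ x ^ 2 := by
  refine integrable_profile_mul hφ a (g := fun t => zeP τ p t ^ 2) (K := 1) ?_ fun t => ?_
  · exact (continuous_zeP τ p).pow 2
  · have := zeP_mem (τ := τ) p t
    rw [abs_le]; constructor <;> nlinarith

theorem massT_nonneg (p : Slab L) : 0 ≤ massT τ a φ p := by
  refine integral_nonneg fun x => mul_nonneg ?_ (sq_nonneg _)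
  have := omP_mem hτ p (x a)
  show 0 ≤ 1 - omP τ p (x a) ^ 2
  nlinarith

theorem sum_massT_le :
    ∑ p : Slab L, massT τ a φ p ≤ ∫ x in slabReg L τ a, φ x ^ 2 := by
  unfold massT
  rw [← integral_finsetSum _ fun p _ => integrable_massT hτ hφ a p,
    ← integral_indicator (measurableSet_slabReg τ a)]
  refine integral_mono (integrable_finsetSum _ fun p _ => integrable_massT hτ hφ a p)
    (hφ.integrable_sq.indicator (measurableSet_slabReg τ a)) fun x => ?_
  simp only
  by_cases hx : x ∈ slabReg L τ a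
  · rw [Set.indicator_of_mem hx, ← Finset.sum_mul]
    have h1 : ∑ p : Slab L, (1 - omP τ p (x a) ^ 2) ≤ 1 := by
      rcases (omP_atMostOne (L := L) hτ (x a)).cases with h | ⟨p, h⟩
      · simp [h]
      · rw [Finset.sum_eq_single p (fun q _ hq => by rw [h q hq]; ring) (by simp)]
        nlinarith [sq_nonneg (omP τ p (x a))]
    nlinarith [sq_nonneg (φ x)]
  · rw [Set.indicator_of_notMem hx]
    refine le_of_eq (Finset.sum_eq_zero fun p _ => ?_)
    have h1 : x a ≤ τ 0 ∨ τ (9 * (L + 1)) ≤ x a := by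
      by_contra hcon
      rw [not_or, not_le, not_le] at hcon
      exact hx ⟨hcon.1, hcon.2.le⟩
    rw [omP_far hτ h1 p]
    ring

theorem massZ_pos (hpos : ∀ j, 0 < ∫ x in {x : Sp d | τ j < x a ∧ x a ≤ τ (j + 1)}, φ x ^ 2)
    (p : Slab L) : 0 < massZ τ a φ p := by
  have h0 : 0 ≤ massZ τ a φ p :=
    integral_nonneg fun x => mul_nonneg (sq_nonneg _) (sq_nonneg _)
  refine lt_of_le_of_ne h0 fun h => ?_
  have h1 : (fun x => zeP τ p (x a) ^ 2 * φ x ^ 2) =ᵐ[volume] 0 :=
    (integral_eq_zero_iff_of_nonneg (fun x => mul_nonneg (sq_nonneg _) (sq_nonneg _))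
      (integrable_massZ hφ a p)).1 h.symm
  have hms : MeasurableSet {x : Sp d | τ (3 * sidx p + 1) < x a ∧ x a ≤ τ (3 * sidx p + 1 + 1)} :=
    (measurableSet_lt measurable_const (measurable_coord a)).inter
      (measurableSet_le (measurable_coord a) measurable_const)
  have hnull : volume {x : Sp d | x a = τ (3 * sidx p + 2)} = 0 := by
    have h2 := (EuclideanSpace.volume_preserving_symm_measurableEquiv_toLp (Fin d)).symm
    have h3 : {x : Sp d | x a = τ (3 * sidx p + 2)} =
        (MeasurableEquiv.toLp 2 (Fin d → ℝ)).symm ⁻¹' {f | f a = τ (3 * sidx p + 2)} := by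
      ext x; simp
    rw [h3, (EuclideanSpace.volume_preserving_symm_measurableEquiv_toLp (Fin d)).measure_preimage
      ((measurableSet_eq_fun (measurable_pi_apply a) measurable_const).nullMeasurableSet)]
    exact Measure.pi_hyperplane _ a _
  have h2 : ∀ᵐ x : Sp d, x a ≠ τ (3 * sidx p + 2) := by
    rw [ae_iff]
    simpa using hnull
  have h3 : ∫ x in {x : Sp d | τ (3 * sidx p + 1) < x a ∧ x a ≤ τ (3 * sidx p + 1 + 1)},
      φ x ^ 2 = 0 := by
    rw [← integral_indicator hms]
    have : (Set.indicator {x : Sp d | τ (3 * sidx p + 1) < x a ∧ x a ≤ τ (3 * sidx p + 1 + 1)}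
        fun x => φ x ^ 2) =ᵐ[volume] 0 := by
      filter_upwards [h1, h2] with x hx1 hx2
      by_cases hx : x ∈ {x : Sp d | τ (3 * sidx p + 1) < x a ∧ x a ≤ τ (3 * sidx p + 1 + 1)}
      · rw [Set.indicator_of_mem hx]
        have h4 : 0 < zeP τ p (x a) := ze_pos hx.1 (lt_of_le_of_ne hx.2 hx2)
        have h5 : zeP τ p (x a) ^ 2 * φ x ^ 2 = 0 := hx1
        rcases mul_eq_zero.1 h5 with h6 | h6
        · exact absurd h6 (by positivity)
        · exact h6
      · rw [Set.indicator_of_notMem hx]; rfl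
    rw [integral_congr_ae this]
    simp
  exact absurd h3 (hpos (3 * sidx p + 1)).ne'

include hφ1

omit hφ1 in
theorem ampA_pos (hβ : ∫ x in slabReg L τ a, φ x ^ 2 < 1 / 3) (m : Fin 3) :
    0 < ampA L τ a φ m := by
  have h1 := sum_massT_le (L := L) hτ hφ a
  have h2 : (∑ p : Slab L, if p.1 = m + 1 then massT τ a φ p else 0) ≤
      ∑ p : Slab L, massT τ a φ p := by
    refine Finset.sum_le_sum fun p _ => ?_
    split_ifs
    · exact le_rfl
    · exact massT_nonneg hτ hφ a p
  unfold ampA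
  refine div_pos (by linarith) (by linarith)

omit hφ1 in
theorem ampA_sum (hβ : ∫ x in slabReg L τ a, φ x ^ 2 < 1 / 3) :
    ∑ m, ampA L τ a φ m = 1 := by
  have h1 := sum_massT_le (L := L) hτ hφ a
  unfold ampA
  rw [← Finset.sum_div, Finset.sum_sub_distrib, Finset.sum_comm]
  have h0 : ∀ p : Slab L, (∑ m : Fin 3, if p.1 = m + 1 then massT τ a φ p else 0)
      = massT τ a φ p := by
    rintro ⟨m, s⟩
    fin_cases m <;> simp [Fin.sum_univ_three]
  simp_rw [h0]
  rw [div_eq_one_iff_eq (by linarith)]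
  simp

omit hφ1 in
theorem ampA_le {β : ℝ} (hβ : ∫ x in slabReg L τ a, φ x ^ 2 ≤ β) (hβ1 : β < 1 / 3) (m : Fin 3) :
    3 * ampA L τ a φ m ≤ (1 - β)⁻¹ := by
  have h1 := sum_massT_le (L := L) hτ hφ a
  have h2 : 0 ≤ (∑ p : Slab L, if p.1 = m + 1 then massT τ a φ p else 0) :=
    Finset.sum_nonneg fun p _ => by
      split_ifs
      · exact massT_nonneg hτ hφ a p
      · exact le_rfl
  unfold ampA
  rw [← one_div, mul_div_assoc', div_le_div_iff₀ (by linarith) (by linarith)]
  nlinarith

theorem integral_clW (hβ : ∫ x in slabReg L τ a, φ x ^ 2 < 1 / 3) (m : Fin 3) :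
    ∫ x, clW (ampA L τ a φ) (fun p : Slab L => omP τ p (x a)) m * φ x ^ 2 = 1 / 3 := by
  have h1 := sum_massT_le (L := L) hτ hφ a
  have h2 : ∀ x : Sp d, clW (ampA L τ a φ) (fun p : Slab L => omP τ p (x a)) m * φ x ^ 2
      = ampA L τ a φ m * (φ x ^ 2 - ∑ p : Slab L, (1 - omP τ p (x a) ^ 2) * φ x ^ 2)
        + ∑ p : Slab L, (if p.1 = m + 1 then (1 : ℝ) else 0) *
          ((1 - omP τ p (x a) ^ 2) * φ x ^ 2) := by
    intro x
    unfold clW
    have h3 : (∏ p : Slab L, omP τ p (x a)) ^ 2 = 1 - ∑ p : Slab L, (1 - omP τ p (x a) ^ 2) := by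
      rcases (omP_atMostOne (L := L) hτ (x a)).cases with h | ⟨p, h⟩
      · simp [h]
      · rw [prod_eq_single' h,
          Finset.sum_eq_single p (fun q _ hq => by rw [h q hq]; ring) (by simp)]
        ring
    rw [h3, add_mul, Finset.sum_mul, ← Finset.sum_mul (f := fun p : Slab L => 1 - omP τ p (x a) ^ 2)]
    congr 1
    · ring
    · refine Finset.sum_congr rfl fun p _ => ?_
      split_ifs <;> ring
  simp_rw [h2]
  have h4 : Integrable fun x => ∑ p : Slab L, (1 - omP τ p (x a) ^ 2) * φ x ^ 2 :=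
    integrable_finsetSum _ fun p _ => integrable_massT hτ hφ a p
  have h5 : ∀ p : Slab L, Integrable fun x => (if p.1 = m + 1 then (1 : ℝ) else 0) *
          ((1 - omP τ p (x a) ^ 2) * φ x ^ 2) := fun p =>
    (integrable_massT hτ hφ a p).const_mul _
  have h4' : Integrable fun x => ampA L τ a φ m *
      (φ x ^ 2 - ∑ p : Slab L, (1 - omP τ p (x a) ^ 2) * φ x ^ 2) :=
    (hφ.integrable_sq.sub h4).const_mul _
  rw [integral_add h4' (integrable_finsetSum _ fun p _ => h5 p), integral_const_mul,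
    integral_sub hφ.integrable_sq h4, hφ1, integral_finsetSum _ fun p _ =>
      integrable_massT hτ hφ a p, integral_finsetSum _ fun p _ => h5 p]
  simp_rw [integral_const_mul]
  have h6 : (1 : ℝ) - ∑ p : Slab L, massT τ a φ p ≠ 0 := by linarith
  have h7 : ampA L τ a φ m * (1 - ∑ p : Slab L, massT τ a φ p) =
      1 / 3 - ∑ p : Slab L, if p.1 = m + 1 then massT τ a φ p else 0 := by
    unfold ampA
    exact div_mul_cancel₀ _ h6
  change ampA L τ a φ m * (1 - ∑ p : Slab L, massT τ a φ p) + _ = _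
  rw [h7]
  have h8 : ∑ p : Slab L, (if p.1 = m + 1 then (1 : ℝ) else 0) *
      (∫ x, (1 - omP τ p (x a) ^ 2) * φ x ^ 2) =
      ∑ p : Slab L, if p.1 = m + 1 then massT τ a φ p else 0 := by
    refine Finset.sum_congr rfl fun p _ => ?_
    unfold massT
    split_ifs <;> simp
  rw [h8]
  ring

theorem integral_hP (hβ : ∫ x in slabReg L τ a, φ x ^ 2 < 1 / 3) {δ : Slab L → ℝ}
    (hδ : ∀ p, 0 ≤ δ p) (hδ1 : ∑ p, δ p ≤ 1 / 2) (m : Fin 3) :
    ∫ x, (hP τ (ampA L τ a φ) δ m (x a) * φ x) ^ 2
      = 1 - 3 * ∑ p : Slab L, if p.1 = m + 1 then δ p * massZ τ a φ p else 0 := by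
  have hA := ampA_pos (L := L) hτ hφ a hβ
  have hA1 := ampA_sum (L := L) hτ hφ a hβ
  have h1 : ∀ x : Sp d, (hP τ (ampA L τ a φ) δ m (x a) * φ x) ^ 2 =
      3 * (clW (ampA L τ a φ) (fun p : Slab L => omP τ p (x a)) m * φ x ^ 2) -
        3 * ∑ p : Slab L, (if p.1 = m + 1 then δ p else 0) * (zeP τ p (x a) ^ 2 * φ x ^ 2) := by
    intro x
    rw [mul_pow, hP_sq hτ hA hA1 hδ hδ1]
    unfold dzP
    rw [sub_mul, mul_assoc, mul_assoc, Finset.sum_mul]
    congr 2
    refine Finset.sum_congr rfl fun p _ => ?_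
    split_ifs <;> ring
  simp_rw [h1]
  have h2 : Integrable fun x =>
      clW (ampA L τ a φ) (fun p : Slab L => omP τ p (x a)) m * φ x ^ 2 := by
    refine integrable_profile_mul hφ a
      (g := fun t => clW (ampA L τ a φ) (fun p : Slab L => omP τ p t) m) (K := 1) ?_ fun t => ?_
    · unfold clW
      refine (continuous_const.mul ((continuous_finsetProd _ fun p _ =>
        continuous_omP hτ p).pow 2)).add (continuous_finsetSum _ fun p _ => ?_)
      split_ifs
      · exact continuous_const.sub ((continuous_omP hτ p).pow 2)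
      · exact continuous_const
    · have := clW_mem (L := L) hτ hA hA1 m t
      rw [abs_of_nonneg this.1]
      exact this.2
  have h3 : ∀ p : Slab L, Integrable fun x => (if p.1 = m + 1 then δ p else 0) *
      (zeP τ p (x a) ^ 2 * φ x ^ 2) := fun p => (integrable_massZ hφ a p).const_mul _
  rw [integral_sub (h2.const_mul _) ((integrable_finsetSum _ fun p _ => h3 p).const_mul _),
    integral_const_mul, integral_const_mul, integral_clW hτ hφ hφ1 a hβ m,
    integral_finsetSum _ fun p _ => h3 p]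
  simp_rw [integral_const_mul]
  have h4 : ∑ p : Slab L, (if p.1 = m + 1 then δ p else 0) *
      (∫ x, zeP τ p (x a) ^ 2 * φ x ^ 2) =
      ∑ p : Slab L, if p.1 = m + 1 then δ p * massZ τ a φ p else 0 := by
    refine Finset.sum_congr rfl fun p _ => ?_
    unfold massZ
    split_ifs <;> simp
  rw [h4]
  ring

end

/-- Dirichlet energy of a profile times an `H¹` function -/
theorem dir_profile_le {φ : Sp d → ℝ} {G : Fin d → Sp d → ℝ} (h : IsH1 φ G) {g : ℝ → ℝ}
    (hg : ContDiff ℝ 1 g) {K : ℝ} (hK : ∀ t, |g t| ≤ K ∧ |deriv g t| ≤ K) (a : Fin d) :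
    dir (fun b x => g (x a) * G b x + (if b = a then deriv g (x a) else 0) * φ x)
      ≤ 2 * K ^ 2 * (dir G + ∫ x, φ x ^ 2) := by
  have hK0 : 0 ≤ K := (abs_nonneg _).trans (hK 0).1
  have hint : ∀ b, Integrable fun x => ‖G b x‖ ^ 2 := fun b =>
    (h.memLp_grad b).norm.integrable_sq
  have hint' : Integrable fun x => φ x ^ 2 := h.memLp.integrable_sq
  unfold dir
  calc ∑ b, ∫ x, ‖g (x a) * G b x + (if b = a then deriv g (x a) else 0) * φ x‖ ^ 2
      ≤ ∑ b, ∫ x, (2 * K ^ 2 * ‖G b x‖ ^ 2 + (if b = a then 2 * K ^ 2 else 0) * φ x ^ 2) := by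
        refine Finset.sum_le_sum fun b _ => ?_
        refine integral_mono_of_nonneg (Eventually.of_forall fun x => by positivity)
          (((hint b).const_mul _).add (hint'.const_mul _)) (Eventually.of_forall fun x => ?_)
        simp only
        have h1 := hK (x a)
        have h2 : ‖g (x a) * G b x‖ ^ 2 ≤ K ^ 2 * ‖G b x‖ ^ 2 := by
          rw [norm_mul, mul_pow]
          gcongr
          exact h1.1
        have h3 : ‖(if b = a then deriv g (x a) else 0) * φ x‖ ^ 2 ≤
            (if b = a then K ^ 2 else 0) * φ x ^ 2 := by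
          split_ifs
          · rw [norm_mul, mul_pow, Real.norm_eq_abs, Real.norm_eq_abs, sq_abs (φ x)]
            gcongr
            exact h1.2
          · simp
        have h4 := norm_add_le (g (x a) * G b x) ((if b = a then deriv g (x a) else 0) * φ x)
        have h5 : ‖g (x a) * G b x + (if b = a then deriv g (x a) else 0) * φ x‖ ^ 2 ≤
            2 * ‖g (x a) * G b x‖ ^ 2 + 2 * ‖(if b = a then deriv g (x a) else 0) * φ x‖ ^ 2 := by
          have h0 := norm_nonneg (g (x a) * G b x + (if b = a then deriv g (x a) else 0) * φ x)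
          nlinarith [sq_nonneg (‖g (x a) * G b x‖ - ‖(if b = a then deriv g (x a) else 0) * φ x‖)]
        have h6 : (if b = a then 2 * K ^ 2 else 0) * φ x ^ 2 =
            2 * ((if b = a then K ^ 2 else 0) * φ x ^ 2) := by
          split_ifs <;> ring
        rw [h6]
        linarith
    _ = _ := by
        have h1 : ∀ b, ∫ x, (2 * K ^ 2 * ‖G b x‖ ^ 2 + (if b = a then 2 * K ^ 2 else 0) * φ x ^ 2)
            = 2 * K ^ 2 * (∫ x, ‖G b x‖ ^ 2) + (if b = a then 2 * K ^ 2 else 0) *
              ∫ x, φ x ^ 2 := fun b => by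
          rw [integral_add ((hint b).const_mul _) (hint'.const_mul _), integral_const_mul,
            integral_const_mul]
        simp_rw [h1]
        rw [Finset.sum_add_distrib, ← Finset.mul_sum, ← Finset.sum_mul]
        simp only [Finset.sum_ite_eq', Finset.mem_univ, if_true]
        ring

end Pool.Agent.Helper1.LL
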