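import Pool.Agent.Helper1.LL.Defs

/-!
# N-body fermionic states, Levy-Lieb functional and Thomas-Fermi functional
-/

open MeasureTheory Filter Topology
open scoped ENNReal

noncomputable section

namespace Pool.Agent.Helper1.LL

/-- `Ψ` is an `L²`-normalised antisymmetric wave function of `n+1` particles in `ℝ^d` of finite
kinetic energy; `D i a` is its weak derivative with respect to the `a`-th coordinate of the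
`i`-th particle. -/
structure IsFermionState {d n : ℕ} (Ψ : (Fin (n + 1) → Sp d) → ℂ)
    (D : Fin (n + 1) → Fin d → (Fin (n + 1) → Sp d) → ℂ) : Prop where
  memLp : MemLp Ψ 2
  normalized : ∫ x, ‖Ψ x‖ ^ 2 = 1
  antisymm : ∀ σ : Equiv.Perm (Fin (n + 1)),
    ∀ᵐ x, Ψ (x ∘ σ) = ((Equiv.Perm.sign σ : ℤ) : ℂ) * Ψ x
  memLp_grad : ∀ i a, MemLp (D i a) 2
  weak : ∀ i a, IsWeakDeriv Ψ (D i a) (Pi.single i (eb a))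

/-- One-particle density `ρ_Ψ(x) = N ∫ |Ψ(x, x₂, …, x_N)|² dx₂ ⋯ dx_N`, `N = n+1`. -/
def density {d n : ℕ} (Ψ : (Fin (n + 1) → Sp d) → ℂ) (x : Sp d) : ℝ :=
  (n + 1) * ∫ y : Fin n → Sp d, ‖Ψ (Fin.cons x y)‖ ^ 2

/-- Kinetic energy `∑_i ∫ |∇_i Ψ|²`. -/
def kinetic {d n : ℕ} (D : Fin (n + 1) → Fin d → (Fin (n + 1) → Sp d) → ℂ) : ℝ :=
  ∑ i, ∑ a, ∫ x, ‖D i a x‖ ^ 2

/-- External energy `⟨Ψ, ∑_i V(x_i) Ψ⟩`. -/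
def external {d n : ℕ} (V : Sp d → ℝ) (Ψ : (Fin (n + 1) → Sp d) → ℂ) : ℝ :=
  ∫ x, (∑ i, V (x i)) * ‖Ψ x‖ ^ 2

/-- Interaction energy `⟨Ψ, ∑_{i<j} w(x_i-x_j) Ψ⟩ ∈ [0,∞]` for `w ≥ 0`. -/
def interaction {d n : ℕ} (w : Sp d → ℝ) (Ψ : (Fin (n + 1) → Sp d) → ℂ) : ℝ≥0∞ :=
  ∫⁻ x, (∑ i, ∑ j ∈ Finset.Ioi i, ENNReal.ofReal (w (x i - x j))) * ENNReal.ofReal (‖Ψ x‖ ^ 2)

/-- The energy per particle `N⁻¹ ⟨Ψ, H_N Ψ⟩` with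
`H_N = ∑ (-h² Δ_i + V(x_i)) + lam ∑_{i<j} w(x_i - x_j)`, `N = n+1`. -/
def energy {d n : ℕ} (h lam : ℝ) (V w : Sp d → ℝ) (Ψ : (Fin (n + 1) → Sp d) → ℂ)
    (D : Fin (n + 1) → Fin d → (Fin (n + 1) → Sp d) → ℂ) : EReal :=
  (((n + 1 : ℝ)⁻¹ * (h ^ 2 * kinetic D + external V Ψ) : ℝ) : EReal)
    + ((ENNReal.ofReal (lam / (n + 1)) * interaction w Ψ : ℝ≥0∞) : EReal)

/-- The Levy-Lieb functional `𝓔_N(f)`, `N = n+1`: infimum of the energy per particle over all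
fermionic states with density `N f`. -/
def levyLieb {d : ℕ} (n : ℕ) (h lam : ℝ) (V w f : Sp d → ℝ) : EReal :=
  ⨅ (Ψ : (Fin (n + 1) → Sp d) → ℂ) (D : Fin (n + 1) → Fin d → (Fin (n + 1) → Sp d) → ℂ)
    (_ : IsFermionState Ψ D) (_ : density Ψ =ᵐ[volume] fun x => (n + 1) * f x),
    energy h lam V w Ψ D

/-- The Thomas-Fermi functional. -/
def thomasFermi {d : ℕ} (V w f : Sp d → ℝ) : ℝ :=
  Kcl d * (∫ x, f x ^ (1 + 2 / d : ℝ)) + (∫ x, V x * f x)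
    + (1 / 2) * ∫ x, ∫ y, f x * f y * w (x - y)

/-- `V ∈ L^p + L^q` for some `p, q ∈ [s, ∞)`. -/
def InLpSum {d : ℕ} (s : ℝ) (V : Sp d → ℝ) : Prop :=
  ∃ (p q : ℝ) (V₁ V₂ : Sp d → ℝ), s ≤ p ∧ s ≤ q ∧ MemLp V₁ (ENNReal.ofReal p) volume ∧
    MemLp V₂ (ENNReal.ofReal q) volume ∧ ∀ x, V x = V₁ x + V₂ x

/-- Admissible interaction potentials: `w ∈ L^p + L^q`, `p, q ∈ [1 + d/2, ∞)`, and
`w(x) = ∫_0^∞ (χ_r * χ_r)(x) dr` for a (jointly measurable) family of radial functions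
`0 ≤ χ_r ∈ L^p + L^q`, `p, q ∈ [2 + d, ∞)`. -/
def AdmissibleInteraction {d : ℕ} (w : Sp d → ℝ) : Prop :=
  InLpSum (1 + d / 2 : ℝ) w ∧
    ∃ χ : ℝ → Sp d → ℝ, Measurable (Function.uncurry χ) ∧ (∀ r x, 0 ≤ χ r x) ∧
      (∀ r x y, ‖x‖ = ‖y‖ → χ r x = χ r y) ∧ (∀ r, 0 < r → InLpSum (2 + d : ℝ) (χ r)) ∧
      ∀ᵐ x, 0 ≤ w x ∧ ENNReal.ofReal (w x) =
        ∫⁻ r in Set.Ioi (0 : ℝ), ∫⁻ y, ENNReal.ofReal (χ r y) * ENNReal.ofReal (χ r (x - y))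

end Pool.Agent.Helper1.LL
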