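import Pool.Agent.Helper1.LL.Upper

/-!
# Potentials against densities
-/

open MeasureTheory Filter Topology
open scoped ENNReal

noncomputable section

namespace Pool.Agent.Helper1.LL

variable {d : ℕ}

theorem mul_le_young (hd : 1 ≤ d) {p a t : ℝ} (hp : (1 + d / 2 : ℝ) ≤ p) (ha : 0 ≤ a)
    (ht : 0 ≤ t) : a * t ≤ a ^ p + (t + t ^ (1 + 2 / d : ℝ)) := by
  have hd' : (0 : ℝ) < d := by exact_mod_cast hd
  have hp1 : 1 < p := by
    have : (0 : ℝ) < d / 2 := by positivity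
    linarith
  set q : ℝ := p / (p - 1) with hq
  have hpq : p.HolderConjugate q := Real.HolderConjugate.conjExponent hp1
  have h1 := Real.young_inequality_of_nonneg ha ht hpq
  have hp0 : 0 < p := by linarith
  have hq0 : 0 < q := hpq.symm.pos
  have hq1 : 1 < q := hpq.symm.lt
  have h2 : a ^ p / p ≤ a ^ p := div_le_self (Real.rpow_nonneg ha _) hp1.le
  have h3 : t ^ q / q ≤ t ^ q := div_le_self (Real.rpow_nonneg ht _) hq1.le
  have hq2 : q ≤ 1 + 2 / d := by
    rw [hq, div_le_iff₀ (by linarith)]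
    have h4 : (2 / d : ℝ) * (d / 2) = 1 := by field_simp
    have h5 : (0 : ℝ) < 2 / d := by positivity
    have h6 : (2 / d : ℝ) * (p - 1) ≥ 1 := by
      calc (2 / d : ℝ) * (p - 1) ≥ (2 / d : ℝ) * (d / 2) := by gcongr; linarith
        _ = 1 := h4
    nlinarith
  have h4 : t ^ q ≤ t + t ^ (1 + 2 / d : ℝ) := by
    rcases le_total t 1 with h5 | h5
    · have h6 : t ^ q ≤ t ^ (1 : ℝ) := by
        rcases ht.eq_or_lt with h7 | h7
        · rw [← h7, Real.zero_rpow hq0.ne', Real.zero_rpow one_ne_zero]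
        · exact Real.rpow_le_rpow_of_exponent_ge h7 h5 hq1.le
      rw [Real.rpow_one] at h6
      have : 0 ≤ t ^ (1 + 2 / d : ℝ) := Real.rpow_nonneg ht _
      linarith
    · have h6 : t ^ q ≤ t ^ (1 + 2 / d : ℝ) := Real.rpow_le_rpow_of_exponent_le h5 hq2
      linarith
  linarith

theorem memLp_ofReal_integrable_rpow {u : Sp d → ℝ} {p : ℝ} (hp : 0 < p)
    (hu : MemLp u (ENNReal.ofReal p) volume) : Integrable fun x => |u x| ^ p := by
  have h1 := hu.integrable_norm_rpow (by simpa using hp) ENNReal.ofReal_ne_top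
  rw [ENNReal.toReal_ofReal hp.le] at h1
  exact h1

theorem InLpSum.aestronglyMeasurable {s : ℝ} {V : Sp d → ℝ} (hV : InLpSum s V) :
    AEStronglyMeasurable V volume := by
  obtain ⟨p, q, V₁, V₂, -, -, h1, h2, h3⟩ := hV
  refine (h1.aestronglyMeasurable.add h2.aestronglyMeasurable).congr
    (Eventually.of_forall fun x => ?_)
  rw [h3]; rfl

/-- `V` is dominated pointwise after multiplying with `t`. -/
theorem InLpSum.dominated (hd : 1 ≤ d) {V : Sp d → ℝ} (hV : InLpSum (1 + d / 2 : ℝ) V) :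
    ∃ g : Sp d → ℝ, Integrable g ∧ (∀ x, 0 ≤ g x) ∧
      ∀ x t, 0 ≤ t → |V x| * t ≤ g x + 2 * (t + t ^ (1 + 2 / d : ℝ)) := by
  obtain ⟨p, q, V₁, V₂, hp, hq, h1, h2, h3⟩ := hV
  have hd' : (0 : ℝ) < d := by exact_mod_cast hd
  have hp0 : 0 < p := by have : (0 : ℝ) < 1 + d / 2 := by positivity
                         linarith
  have hq0 : 0 < q := by have : (0 : ℝ) < 1 + d / 2 := by positivity
                         linarith
  refine ⟨fun x => |V₁ x| ^ p + |V₂ x| ^ q, (memLp_ofReal_integrable_rpow hp0 h1).add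
    (memLp_ofReal_integrable_rpow hq0 h2), fun x => by positivity, fun x t ht => ?_⟩
  have e1 := mul_le_young hd hp (abs_nonneg (V₁ x)) ht
  have e2 := mul_le_young hd hq (abs_nonneg (V₂ x)) ht
  have e3 : |V x| * t ≤ |V₁ x| * t + |V₂ x| * t := by
    rw [h3, ← add_mul]
    exact mul_le_mul_of_nonneg_right (abs_add_le _ _) ht
  simp only
  linarith

theorem integrable_V_mul (hd : 1 ≤ d) {V f : Sp d → ℝ} (hV : InLpSum (1 + d / 2 : ℝ) V)
    (hf : Integrable f) (hf0 : ∀ x, 0 ≤ f x)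
    (hfp : Integrable fun x => f x ^ (1 + 2 / d : ℝ)) :
    Integrable fun x => V x * f x := by
  obtain ⟨g, hg, hg0, hgV⟩ := hV.dominated hd
  refine Integrable.mono' (hg.add ((hf.add hfp).const_mul 2))
    (hV.aestronglyMeasurable.mul hf.aestronglyMeasurable) (Eventually.of_forall fun x => ?_)
  rw [norm_mul, Real.norm_eq_abs, Real.norm_eq_abs, abs_of_nonneg (hf0 x)]
  exact hgV x (f x) (hf0 x)

/-- finiteness of the direct energy -/
theorem directE_lt_top (hd : 1 ≤ d) {w : Sp d → ℝ} (hw : InLpSum (1 + d / 2 : ℝ) w)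
    {φ : Sp d → ℝ} (hφm : Measurable φ) (hf : Integrable fun x => φ x ^ 2)
    (hfp : Integrable fun x => (φ x ^ 2) ^ (1 + 2 / d : ℝ)) :
    ∫⁻ x, ∫⁻ y, ENNReal.ofReal |w (x - y)| * ENNReal.ofReal (φ x ^ 2 * φ y ^ 2) < ⊤ := by
  obtain ⟨g, hg, hg0, hgw⟩ := hw.dominated hd
  have hinner : ∀ x, ∫⁻ y, ENNReal.ofReal |w (x - y)| * ENNReal.ofReal (φ x ^ 2 * φ y ^ 2) ≤
      ENNReal.ofReal (φ x ^ 2) * ENNReal.ofReal ((∫ y, g y) +
        2 * ((∫ y, φ y ^ 2) + ∫ y, (φ y ^ 2) ^ (1 + 2 / d : ℝ))) := by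
    intro x
    have h1 : ∫⁻ y, ENNReal.ofReal |w (x - y)| * ENNReal.ofReal (φ x ^ 2 * φ y ^ 2) ≤
        ∫⁻ y, ENNReal.ofReal (φ x ^ 2) * ENNReal.ofReal (g (x - y) +
          2 * (φ y ^ 2 + (φ y ^ 2) ^ (1 + 2 / d : ℝ))) := by
      refine lintegral_mono fun y => ?_
      rw [← ENNReal.ofReal_mul (abs_nonneg _), ← ENNReal.ofReal_mul (sq_nonneg _)]
      refine ENNReal.ofReal_le_ofReal ?_
      have := hgw (x - y) (φ y ^ 2) (sq_nonneg _)
      calc |w (x - y)| * (φ x ^ 2 * φ y ^ 2) = φ x ^ 2 * (|w (x - y)| * φ y ^ 2) := by ring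
        _ ≤ _ := mul_le_mul_of_nonneg_left this (sq_nonneg _)
    refine h1.trans (le_of_eq ?_)
    have hgx : Integrable fun y => g (x - y) := hg.comp_sub_left x
    have hint : Integrable fun y => g (x - y) + 2 * (φ y ^ 2 + (φ y ^ 2) ^ (1 + 2 / d : ℝ)) :=
      hgx.add ((hf.add hfp).const_mul 2)
    rw [lintegral_const_mul'' _ hint.aemeasurable.ennreal_ofReal,
      ← ofReal_integral_eq_lintegral_ofReal hint (Eventually.of_forall fun y => ?_)]
    · congr 2
      have h2 : Integrable fun y => 2 * (φ y ^ 2 + (φ y ^ 2) ^ (1 + 2 / d : ℝ)) :=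
        (hf.add hfp).const_mul 2
      rw [integral_add hgx h2, integral_const_mul,
        integral_add hf hfp, integral_sub_left_eq_self g volume x]
    · have := hg0 (x - y)
      simp only [Pi.zero_apply]
      positivity
  refine lt_of_le_of_lt (lintegral_mono hinner) ?_
  rw [lintegral_mul_const _ (hφm.pow_const 2).ennreal_ofReal]
  exact ENNReal.mul_lt_top hf.lintegral_lt_top ENNReal.ofReal_lt_top

end Pool.Agent.Helper1.LL
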