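import Pool.Agent.Helper1.LL.Class

/-!
# Reduced class profiles
-/

open MeasureTheory Filter Topology
open scoped ENNReal

noncomputable section

set_option linter.unusedSectionVars false

namespace Pool.Agent.Helper1.LL

variable {L : ℕ}

/-- density taken away from class `m` to compensate the labels of class `m+1` -/
def dzP (τ : ℕ → ℝ) (δ : Slab L → ℝ) (m : Fin 3) (t : ℝ) : ℝ :=
  ∑ p : Slab L, if p.1 = m + 1 then δ p * zeP τ p t ^ 2 else 0

/-- profile of the main part of class `m` -/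
def hP (τ : ℕ → ℝ) (A : Fin 3 → ℝ) (δ : Slab L → ℝ) (m : Fin 3) (t : ℝ) : ℝ :=
  (Real.sqrt 3 * clS A (fun p : Slab L => omP τ p t) m) * Real.sqrt (1 - dzP τ δ m t)

theorem dzP_nonneg (τ : ℕ → ℝ) {δ : Slab L → ℝ} (hδ : ∀ p, 0 ≤ δ p) (m : Fin 3) (t : ℝ) :
    0 ≤ dzP τ δ m t := by
  unfold dzP
  refine Finset.sum_nonneg fun p _ => ?_
  split_ifs
  · exact mul_nonneg (hδ p) (sq_nonneg _)
  · exact le_rfl

theorem dzP_le (τ : ℕ → ℝ) {δ : Slab L → ℝ} (hδ : ∀ p, 0 ≤ δ p) (m : Fin 3) (t : ℝ) :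
    dzP τ δ m t ≤ ∑ p, δ p := by
  unfold dzP
  refine Finset.sum_le_sum fun p _ => ?_
  have h := zeP_mem (τ := τ) p t
  split_ifs
  · have : zeP τ p t ^ 2 ≤ 1 := by nlinarith
    nlinarith [hδ p]
  · exact hδ p

theorem clW_mul_dzP {τ : ℕ → ℝ} (hτ : StrictMono τ) (A : Fin 3 → ℝ) (δ : Slab L → ℝ) (m : Fin 3)
    (t : ℝ) : clW A (fun p : Slab L => omP τ p t) m * dzP τ δ m t = dzP τ δ m t := by
  unfold dzP
  rw [Finset.mul_sum]
  refine Finset.sum_congr rfl fun p _ => ?_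
  by_cases hp : p.1 = m + 1
  · rw [if_pos hp]
    by_cases hz : zeP τ p t = 0
    · rw [hz]; simp
    · obtain ⟨h1, h2⟩ := zeP_ne_zero hτ hz
      obtain ⟨h3, h4⟩ := omP_core hτ h1 h2
      rw [clW_core A (fun p : Slab L => omP τ p t) h3 h4, if_pos hp, one_mul]
  · rw [if_neg hp, mul_zero]

variable {τ : ℕ → ℝ} (hτ : StrictMono τ) {A : Fin 3 → ℝ} (hA : ∀ m, 0 < A m) (hA1 : ∑ m, A m = 1)
  {δ : Slab L → ℝ} (hδ : ∀ p, 0 ≤ δ p) (hδ1 : ∑ p, δ p ≤ 1 / 2)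

theorem A_le_one (hA : ∀ m, 0 < A m) (hA1 : ∑ m, A m = 1) (m : Fin 3) : A m ≤ 1 := by
  rw [← hA1]
  exact Finset.single_le_sum (f := A) (fun m _ => (hA m).le) (Finset.mem_univ m)

include hτ hA hA1

omit hA1 in
theorem clS_nonneg (m : Fin 3) (t : ℝ) : 0 ≤ clS A (fun p : Slab L => omP τ p t) m := by
  unfold clS
  refine mul_nonneg (Real.sqrt_nonneg _) (Finset.prod_nonneg fun p _ => ?_)
  split_ifs
  · exact Real.sqrt_nonneg _
  · exact (omP_mem hτ p t).1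

theorem clW_mem (m : Fin 3) (t : ℝ) :
    0 ≤ clW A (fun p : Slab L => omP τ p t) m ∧ clW A (fun p : Slab L => omP τ p t) m ≤ 1 :=
  ⟨clW_nonneg A hA _ (fun p => omP_mem hτ p t) m,
    clW_le_one A hA hA1 _ (omP_atMostOne hτ t) (fun p => omP_mem hτ p t) m⟩

include hδ hδ1

theorem hP_sq (m : Fin 3) (t : ℝ) :
    hP τ A δ m t ^ 2 = 3 * clW A (fun p : Slab L => omP τ p t) m - 3 * dzP τ δ m t := by
  unfold hP
  have h1 := dzP_le τ hδ m t
  rw [mul_pow, mul_pow, Real.sq_sqrt (by norm_num), Real.sq_sqrt (by linarith),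
    clS_sq A hA (A_le_one hA hA1) _ (omP_atMostOne hτ t) (fun p => omP_mem hτ p t) m]
  have := clW_mul_dzP hτ A δ m t
  linear_combination (-3 : ℝ) * this

theorem hP_nonneg (m : Fin 3) (t : ℝ) : 0 ≤ hP τ A δ m t := by
  unfold hP
  have := clS_nonneg (L := L) hτ hA m t
  positivity

theorem hP_sq_le (m : Fin 3) (t : ℝ) :
    hP τ A δ m t ^ 2 ≤ 3 * clW A (fun p : Slab L => omP τ p t) m := by
  rw [hP_sq hτ hA hA1 hδ hδ1]
  have := dzP_nonneg τ hδ m t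
  linarith

theorem hP_sq_le_three (m : Fin 3) (t : ℝ) : hP τ A δ m t ^ 2 ≤ 3 := by
  have h1 := hP_sq_le hτ hA hA1 hδ hδ1 m t
  have h2 := (clW_mem (L := L) hτ hA hA1 m t).2
  linarith

theorem sum_hP_sq (t : ℝ) :
    ∑ m, hP τ A δ m t ^ 2 = 3 - 3 * ∑ p : Slab L, δ p * zeP τ p t ^ 2 := by
  simp_rw [hP_sq hτ hA hA1 hδ hδ1]
  rw [Finset.sum_sub_distrib, ← Finset.mul_sum, ← Finset.mul_sum,
    sum_clW A hA1 _ (omP_atMostOne hτ t)]
  unfold dzP
  rw [Finset.sum_comm]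
  have h0 : ∀ p : Slab L, (∑ m : Fin 3, if p.1 = m + 1 then δ p * zeP τ p t ^ 2 else 0)
      = δ p * zeP τ p t ^ 2 := by
    rintro ⟨m, s⟩
    fin_cases m <;> simp [Fin.sum_univ_three]
  simp_rw [h0, mul_one]

theorem hP_core {p : Slab L} {m : Fin 3} (hp : p.1 = m ∨ p.1 = m + 2) {t : ℝ}
    (h1 : τ (3 * sidx p + 1) < t) (h2 : t < τ (3 * sidx p + 2)) : hP τ A δ m t = 0 := by
  have hne : p.1 ≠ m + 1 := by
    rcases hp with h | h
    · rw [h]; fin_cases m <;> decide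
    · rw [h]; fin_cases m <;> decide
  obtain ⟨h3, h4⟩ := omP_core hτ h1 h2
  have h5 := clW_core A (fun p : Slab L => omP τ p t) h3 h4 m
  rw [if_neg hne] at h5
  have h6 := hP_sq_le hτ hA hA1 hδ hδ1 m t
  rw [h5, mul_zero] at h6
  exact pow_eq_zero_iff (two_ne_zero) |>.1 (le_antisymm h6 (sq_nonneg _))

theorem hP_far {t : ℝ} (h : t ≤ τ 0 ∨ τ (9 * (L + 1)) ≤ t) (m : Fin 3) :
    hP τ A δ m t ^ 2 ≤ 3 * A m := by
  refine (hP_sq_le hτ hA hA1 hδ hδ1 m t).trans ?_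
  rw [clW_far A _ (fun p => omP_far hτ h p)]

omit hA hA1 hδ hδ1 in
/-- uniform `C¹` bounds -/
theorem hP_bound (hA : ∀ m, 0 < A m) (hA1 : ∑ m, A m = 1) :
    ∃ K : ℝ, 0 ≤ K ∧ ∀ (δ : Slab L → ℝ), (∀ p, 0 ≤ δ p) → ∑ p, δ p ≤ 1 / 2 → ∀ m,
    ContDiff ℝ 1 (hP τ A δ m) ∧ ∀ t, |hP τ A δ m t| ≤ K ∧ |deriv (hP τ A δ m) t| ≤ K := by
  have h1 : ∀ m, ∃ K, ∀ t, |Real.sqrt 3 * clS A (fun p : Slab L => omP τ p t) m| ≤ K ∧
      |deriv (fun t => Real.sqrt 3 * clS A (fun p : Slab L => omP τ p t) m) t| ≤ K := fun m =>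
    ((clS_BC1 hτ A hA (A_le_one hA hA1) m).const_mul _).2
  choose K hK using h1
  have h2 : ∀ p : Slab L, ∃ K', ∀ t, |zeP τ p t * zeP τ p t| ≤ K' ∧
      |deriv (fun t => zeP τ p t * zeP τ p t) t| ≤ K' := fun p =>
    ((zeP_BC1 (τ := τ) p).mul (zeP_BC1 (τ := τ) p)).2
  choose K' hK' using h2
  have hK0 : ∀ m, 0 ≤ K m := fun m => (abs_nonneg _).trans (hK m 0).1
  have hK'0 : ∀ m, 0 ≤ K' m := fun m => (abs_nonneg _).trans (hK' m 0).1
  set KK := ∑ m, K m with hKK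
  set KK' := ∑ p, K' p with hKK'
  have hKm : ∀ m, K m ≤ KK := fun m =>
    Finset.single_le_sum (f := K) (fun m _ => hK0 m) (Finset.mem_univ m)
  have hKK0 : 0 ≤ KK := Finset.sum_nonneg fun m _ => hK0 m
  have hKK'0 : 0 ≤ KK' := Finset.sum_nonneg fun m _ => hK'0 m
  refine ⟨KK + KK * KK', by positivity, fun δ hδ hδ1 m => ?_⟩
  -- the inner function
  have hdz : ∀ t, dzP τ δ m t = ∑ p : Slab L, (if p.1 = m + 1 then δ p else 0) *
      (zeP τ p t * zeP τ p t) := by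
    intro t
    unfold dzP
    refine Finset.sum_congr rfl fun p _ => ?_
    split_ifs <;> ring
  have hC : ContDiff ℝ 1 (dzP τ δ m) := by
    rw [show dzP τ δ m = fun t => ∑ p : Slab L, (if p.1 = m + 1 then δ p else 0) *
      (zeP τ p t * zeP τ p t) from funext hdz]
    exact ContDiff.sum fun p _ => contDiff_const.mul ((zeP_BC1 p).1.mul (zeP_BC1 p).1)
  have hd : ∀ t, |deriv (dzP τ δ m) t| ≤ KK' := by
    intro t
    have h3 : HasDerivAt (fun t => ∑ p : Slab L, (if p.1 = m + 1 then δ p else 0) *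
        (zeP τ p t * zeP τ p t)) (∑ p : Slab L, (if p.1 = m + 1 then δ p else 0) *
        deriv (fun t => zeP τ p t * zeP τ p t) t) t := by
      refine HasDerivAt.fun_sum fun p _ => ?_
      exact (((zeP_BC1 p).mul (zeP_BC1 p)).differentiable t).hasDerivAt.const_mul _
    rw [show dzP τ δ m = fun t => ∑ p : Slab L, (if p.1 = m + 1 then δ p else 0) *
      (zeP τ p t * zeP τ p t) from funext hdz, h3.deriv]
    refine (Finset.abs_sum_le_sum_abs _ _).trans (Finset.sum_le_sum fun p _ => ?_)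
    rw [abs_mul]
    have h4 : |(if p.1 = m + 1 then δ p else 0)| ≤ 1 := by
      have h5 : δ p ≤ ∑ p, δ p :=
        Finset.single_le_sum (f := δ) (fun p _ => hδ p) (Finset.mem_univ p)
      split_ifs
      · rw [abs_of_nonneg (hδ p)]; linarith
      · simp
    calc _ ≤ 1 * K' p := mul_le_mul h4 (hK' p t).2 (abs_nonneg _) zero_le_one
      _ = K' p := one_mul _
  have hpos : ∀ t, (1 / 2 : ℝ) ≤ 1 - dzP τ δ m t := by
    intro t
    have := dzP_le τ hδ m t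
    linarith
  obtain ⟨h5, h6⟩ := sqrt_C1 (g := fun t => 1 - dzP τ δ m t) (contDiff_const.sub hC) (1 / 2)
    (by norm_num) hpos
  have h7 : ∀ t, |Real.sqrt (1 - dzP τ δ m t)| ≤ 1 := by
    intro t
    rw [abs_of_nonneg (Real.sqrt_nonneg _), Real.sqrt_le_one]
    have := dzP_nonneg τ hδ m t
    linarith
  have h8 : ∀ t, |deriv (fun t => Real.sqrt (1 - dzP τ δ m t)) t| ≤ KK' := by
    intro t
    rw [h6, deriv_const_sub, abs_div, abs_neg,
      abs_of_nonneg (by positivity : (0 : ℝ) ≤ 2 * Real.sqrt (1 - dzP τ δ m t))]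
    have h9 : (1 : ℝ) ≤ 2 * Real.sqrt (1 - dzP τ δ m t) := by
      have : (1 / 2 : ℝ) ≤ Real.sqrt (1 - dzP τ δ m t) :=
        Real.le_sqrt_of_sq_le (by have := hpos t; nlinarith)
      linarith
    exact (div_le_self (abs_nonneg _) h9).trans (hd t)
  have h9 : BC1 fun t => Real.sqrt 3 * clS A (fun p : Slab L => omP τ p t) m :=
    (clS_BC1 hτ A hA (A_le_one hA hA1) m).const_mul (Real.sqrt 3)
  refine ⟨h9.1.mul h5, fun t => ⟨?_, ?_⟩⟩
  · unfold hP
    rw [abs_mul]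
    have h10 := mul_le_mul (hK m t).1 (h7 t) (abs_nonneg _) (hK0 m)
    have := hKm m
    nlinarith [mul_nonneg hKK0 hKK'0]
  · have h10 : deriv (hP τ A δ m) t =
        deriv (fun t => Real.sqrt 3 * clS A (fun p : Slab L => omP τ p t) m) t
          * Real.sqrt (1 - dzP τ δ m t)
        + (Real.sqrt 3 * clS A (fun p : Slab L => omP τ p t) m)
          * deriv (fun t => Real.sqrt (1 - dzP τ δ m t)) t := by
      unfold hP
      exact deriv_fun_mul (h9.differentiable t) (h5.differentiable (by norm_num) t)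
    rw [h10]
    refine (abs_add_le _ _).trans ?_
    rw [abs_mul, abs_mul]
    have h11 := mul_le_mul (hK m t).2 (h7 t) (abs_nonneg _) (hK0 m)
    have h12 := mul_le_mul (hK m t).1 (h8 t) (abs_nonneg _) (hK0 m)
    have h13 := hKm m
    nlinarith [mul_le_mul_of_nonneg_right h13 hKK'0]

end Pool.Agent.Helper1.LL
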