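import Pool.Agent.Helper1.LL.Slabs

/-!
# One-dimensional cut-off profiles
-/

open MeasureTheory Filter Topology
open scoped ENNReal

noncomputable section

namespace Pool.Agent.Helper1.LL

/-- bounded `C¹` functions on the line with bounded derivative -/
def BC1 (g : ℝ → ℝ) : Prop := ContDiff ℝ 1 g ∧ ∃ K, ∀ t, |g t| ≤ K ∧ |deriv g t| ≤ K

theorem BC1.const (c : ℝ) : BC1 fun _ => c :=
  ⟨contDiff_const, |c|, fun t => ⟨le_rfl, by simp⟩⟩

theorem BC1.differentiable {g : ℝ → ℝ} (h : BC1 g) : Differentiable ℝ g :=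
  h.1.differentiable (by norm_num)

theorem BC1.mul {f g : ℝ → ℝ} (hf : BC1 f) (hg : BC1 g) : BC1 fun t => f t * g t := by
  obtain ⟨K, hK⟩ := hf.2
  obtain ⟨K', hK'⟩ := hg.2
  have hK0 : 0 ≤ K := (abs_nonneg _).trans (hK 0).1
  have hK0' : 0 ≤ K' := (abs_nonneg _).trans (hK' 0).1
  refine ⟨hf.1.mul hg.1, 2 * K * K', fun t => ⟨?_, ?_⟩⟩
  · rw [abs_mul]
    have := mul_le_mul (hK t).1 (hK' t).1 (abs_nonneg _) hK0
    nlinarith [mul_nonneg hK0 hK0']
  · rw [deriv_fun_mul (hf.differentiable t) (hg.differentiable t)]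
    calc |deriv f t * g t + f t * deriv g t| ≤ |deriv f t * g t| + |f t * deriv g t| :=
          abs_add_le _ _
      _ = |deriv f t| * |g t| + |f t| * |deriv g t| := by rw [abs_mul, abs_mul]
      _ ≤ K * K' + K * K' := by
          gcongr
          · exact (hK t).2
          · exact (hK' t).1
          · exact (hK t).1
          · exact (hK' t).2
      _ = 2 * K * K' := by ring

theorem BC1.add {f g : ℝ → ℝ} (hf : BC1 f) (hg : BC1 g) : BC1 fun t => f t + g t := by
  obtain ⟨K, hK⟩ := hf.2
  obtain ⟨K', hK'⟩ := hg.2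
  refine ⟨hf.1.add hg.1, K + K', fun t => ⟨?_, ?_⟩⟩
  · exact (abs_add_le _ _).trans (add_le_add (hK t).1 (hK' t).1)
  · rw [deriv_fun_add (hf.differentiable t) (hg.differentiable t)]
    exact (abs_add_le _ _).trans (add_le_add (hK t).2 (hK' t).2)

theorem BC1.const_mul {f : ℝ → ℝ} (c : ℝ) (hf : BC1 f) : BC1 fun t => c * f t :=
  (BC1.const c).mul hf

theorem BC1.sub {f g : ℝ → ℝ} (hf : BC1 f) (hg : BC1 g) : BC1 fun t => f t - g t := by
  have := hf.add (hg.const_mul (-1))
  refine (congrArg BC1 ?_).mpr this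
  funext t; ring

theorem BC1.prod {ι : Type*} (s : Finset ι) {f : ι → ℝ → ℝ} (hf : ∀ i ∈ s, BC1 (f i)) :
    BC1 fun t => ∏ i ∈ s, f i t := by
  classical
  induction s using Finset.induction_on with
  | empty => simpa using BC1.const 1
  | insert i s hi ih =>
    have h1 := (hf i (Finset.mem_insert_self i s)).mul
      (ih fun j hj => hf j (Finset.mem_insert_of_mem hj))
    refine (congrArg BC1 ?_).mpr h1
    funext t
    rw [Finset.prod_insert hi]

theorem BC1.sum {ι : Type*} (s : Finset ι) {f : ι → ℝ → ℝ} (hf : ∀ i ∈ s, BC1 (f i)) :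
    BC1 fun t => ∑ i ∈ s, f i t := by
  classical
  induction s using Finset.induction_on with
  | empty => simpa using BC1.const 0
  | insert i s hi ih =>
    have h1 := (hf i (Finset.mem_insert_self i s)).add
      (ih fun j hj => hf j (Finset.mem_insert_of_mem hj))
    refine (congrArg BC1 ?_).mpr h1
    funext t
    rw [Finset.sum_insert hi]

/-- quantitative square root -/
theorem sqrt_C1 {g : ℝ → ℝ} (hg : ContDiff ℝ 1 g) (c : ℝ) (hc : 0 < c) (hgc : ∀ t, c ≤ g t) :
    ContDiff ℝ 1 (fun t => Real.sqrt (g t)) ∧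
      ∀ t, deriv (fun t => Real.sqrt (g t)) t = deriv g t / (2 * Real.sqrt (g t)) := by
  constructor
  · exact hg.sqrt fun t => (lt_of_lt_of_le hc (hgc t)).ne'
  · intro t
    have := (hg.differentiable (by norm_num) t).hasDerivAt
    exact (this.sqrt (lt_of_lt_of_le hc (hgc t)).ne').deriv

theorem BC1.sqrt {g : ℝ → ℝ} (hg : BC1 g) (c : ℝ) (hc : 0 < c) (hgc : ∀ t, c ≤ g t) :
    BC1 fun t => Real.sqrt (g t) := by
  obtain ⟨K, hK⟩ := hg.2
  obtain ⟨h1, h2⟩ := sqrt_C1 hg.1 c hc hgc
  have hK0 : 0 ≤ K := (abs_nonneg _).trans (hK 0).1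
  refine ⟨h1, max (Real.sqrt K) (K / (2 * Real.sqrt c)), fun t => ⟨?_, ?_⟩⟩
  · refine le_max_of_le_left ?_
    rw [abs_of_nonneg (Real.sqrt_nonneg _)]
    exact Real.sqrt_le_sqrt ((le_abs_self _).trans (hK t).1)
  · refine le_max_of_le_right ?_
    rw [h2, abs_div, abs_of_nonneg (by positivity : (0 : ℝ) ≤ 2 * Real.sqrt (g t))]
    have hsc : 0 < Real.sqrt c := Real.sqrt_pos.2 hc
    have : Real.sqrt c ≤ Real.sqrt (g t) := Real.sqrt_le_sqrt (hgc t)
    gcongr
    exact (hK t).2

/-- A `C¹` function that is constant outside a compact set is `BC1`. -/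
theorem BC1.of_compact {g : ℝ → ℝ} (hg : ContDiff ℝ 1 g) (hc : HasCompactSupport g) : BC1 g := by
  obtain ⟨K, hK⟩ := hg.continuous.bounded_above_of_compact_support hc
  obtain ⟨K', hK'⟩ := (hg.continuous_deriv (by norm_num)).bounded_above_of_compact_support hc.deriv
  refine ⟨hg, max K K', fun t => ⟨?_, ?_⟩⟩
  · exact (hK t).trans (le_max_left _ _)
  · exact (hK' t).trans (le_max_right _ _)

theorem BC1.deriv_eq_zero {g : ℝ → ℝ} (h0 : ∀ t, 0 ≤ g t) {t : ℝ} (ht : g t = 0) :
    deriv g t = 0 := by
  have : IsLocalMin g t := Eventually.of_forall fun s => by rw [ht]; exact h0 s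
  exact this.deriv_eq_zero

/-- outer cut-off: `0` on `[b,c]`, `1` outside `(a,e)` -/
def om (a b c e t : ℝ) : ℝ :=
  1 - Real.smoothTransition ((t - a) / (b - a)) * Real.smoothTransition ((e - t) / (e - c))

/-- label bump: positive exactly on `(b,c)` -/
def ze (b c t : ℝ) : ℝ := Real.smoothTransition (t - b) * Real.smoothTransition (c - t)

section om
variable {a b c e : ℝ}

theorem om_nonneg (t : ℝ) : 0 ≤ om a b c e t := by
  unfold om
  have h1 := Real.smoothTransition.nonneg ((t - a) / (b - a))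
  have h2 := Real.smoothTransition.le_one ((t - a) / (b - a))
  have h3 := Real.smoothTransition.nonneg ((e - t) / (e - c))
  have h4 := Real.smoothTransition.le_one ((e - t) / (e - c))
  nlinarith

theorem om_le_one (t : ℝ) : om a b c e t ≤ 1 := by
  unfold om
  have h1 := Real.smoothTransition.nonneg ((t - a) / (b - a))
  have h3 := Real.smoothTransition.nonneg ((e - t) / (e - c))
  nlinarith [mul_nonneg h1 h3]

theorem om_eq_zero (hab : a < b) (hce : c < e) {t : ℝ} (h1 : b ≤ t) (h2 : t ≤ c) :
    om a b c e t = 0 := by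
  unfold om
  rw [Real.smoothTransition.one_of_one_le, Real.smoothTransition.one_of_one_le]
  · ring
  · rw [one_le_div (by linarith)]; linarith
  · rw [one_le_div (by linarith)]; linarith

theorem om_eq_one (hab : a < b) (hce : c < e) {t : ℝ} (h : t ≤ a ∨ e ≤ t) :
    om a b c e t = 1 := by
  unfold om
  rcases h with h | h
  · rw [Real.smoothTransition.zero_of_nonpos (x := (t - a) / (b - a))]
    · ring
    · exact div_nonpos_of_nonpos_of_nonneg (by linarith) (by linarith)
  · rw [Real.smoothTransition.zero_of_nonpos (x := (e - t) / (e - c))]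
    · ring
    · exact div_nonpos_of_nonpos_of_nonneg (by linarith) (by linarith)

theorem om_BC1 (hab : a < b) (hce : c < e) : BC1 (om a b c e) := by
  have h1 : ContDiff ℝ 1 fun t : ℝ => Real.smoothTransition ((t - a) / (b - a)) *
      Real.smoothTransition ((e - t) / (e - c)) := by
    refine ContDiff.mul ?_ ?_
    · exact Real.smoothTransition.contDiff.comp
        ((contDiff_id.sub contDiff_const).div_const _)
    · exact Real.smoothTransition.contDiff.comp
        ((contDiff_const.sub contDiff_id).div_const _)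
  have h2 : HasCompactSupport fun t : ℝ => Real.smoothTransition ((t - a) / (b - a)) *
      Real.smoothTransition ((e - t) / (e - c)) := by
    refine HasCompactSupport.intro (isCompact_Icc (a := a) (b := e)) fun t ht => ?_
    rw [Set.mem_Icc, not_and_or, not_le, not_le] at ht
    rcases ht with h | h
    · rw [Real.smoothTransition.zero_of_nonpos, zero_mul]
      exact div_nonpos_of_nonpos_of_nonneg (by linarith) (by linarith)
    · rw [Real.smoothTransition.zero_of_nonpos (x := (e - t) / (e - c)), mul_zero]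
      exact div_nonpos_of_nonpos_of_nonneg (by linarith) (by linarith)
  exact (BC1.const 1).sub (BC1.of_compact h1 h2)

theorem ze_nonneg (t : ℝ) : 0 ≤ ze b c t :=
  mul_nonneg (Real.smoothTransition.nonneg _) (Real.smoothTransition.nonneg _)

theorem ze_le_one (t : ℝ) : ze b c t ≤ 1 :=
  mul_le_one₀ (Real.smoothTransition.le_one _) (Real.smoothTransition.nonneg _)
    (Real.smoothTransition.le_one _)

theorem ze_pos {t : ℝ} (h1 : b < t) (h2 : t < c) : 0 < ze b c t :=
  mul_pos (Real.smoothTransition.pos_of_pos (by linarith))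
    (Real.smoothTransition.pos_of_pos (by linarith))

theorem ze_eq_zero {t : ℝ} (h : t ≤ b ∨ c ≤ t) : ze b c t = 0 := by
  unfold ze
  rcases h with h | h
  · rw [Real.smoothTransition.zero_of_nonpos (by linarith), zero_mul]
  · rw [Real.smoothTransition.zero_of_nonpos (x := c - t) (by linarith), mul_zero]

theorem ze_BC1 : BC1 (ze b c) := by
  refine BC1.of_compact ?_ ?_
  · unfold ze
    refine ContDiff.mul ?_ ?_
    · exact Real.smoothTransition.contDiff.comp (contDiff_id.sub contDiff_const)
    · exact Real.smoothTransition.contDiff.comp (contDiff_const.sub contDiff_id)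
  · refine HasCompactSupport.intro (isCompact_Icc (a := b) (b := c)) fun t ht => ?_
    rw [Set.mem_Icc, not_and_or, not_le, not_le] at ht
    exact ze_eq_zero (ht.imp le_of_lt le_of_lt)

end om

/-- multiplication of a real `H¹` function by a profile in the coordinate `a` -/
theorem IsH1.mul_profile {d : ℕ} {φ : Sp d → ℝ} {G : Fin d → Sp d → ℝ} (h : IsH1 φ G)
    {g : ℝ → ℝ} (hg : BC1 g) (a : Fin d) :
    IsH1 (fun x => g (x a) * φ x)
      (fun b x => g (x a) * G b x + (if b = a then deriv g (x a) else 0) * φ x) := by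
  obtain ⟨K, hK⟩ := hg.2
  have hK0 : 0 ≤ K := (abs_nonneg _).trans (hK 0).1
  set pr : Sp d →L[ℝ] ℝ := EuclideanSpace.proj a with hpr
  have hfd : ∀ x : Sp d, HasFDerivAt (fun x : Sp d => g (x a)) (deriv g (x a) • pr) x := by
    intro x
    have h1 : HasDerivAt g (deriv g (x a)) (pr x) := (hg.differentiable (x a)).hasDerivAt
    have h2 : HasFDerivAt pr pr x := pr.hasFDerivAt
    exact h1.comp_hasFDerivAt x h2
  have hnorm : ‖pr‖ ≤ 1 := by
    refine ContinuousLinearMap.opNorm_le_bound _ zero_le_one fun x => ?_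
    rw [one_mul]
    exact EuclideanSpace.norm_eq x ▸ (by
      have : ‖pr x‖ ^ 2 ≤ ∑ i, ‖x i‖ ^ 2 :=
        Finset.single_le_sum (f := fun i => ‖x i‖ ^ 2) (fun i _ => sq_nonneg _) (Finset.mem_univ a)
      exact Real.le_sqrt_of_sq_le this)
  have := Inputs.IsH1.mul_C1_real h (fun x => g (x a))
    (hg.1.comp pr.contDiff) K (fun x => (hK _).1) (fun x => by
      rw [(hfd x).fderiv, norm_smul, Real.norm_eq_abs]
      calc |deriv g (x a)| * ‖pr‖ ≤ K * 1 := by
            gcongr
            exact (hK _).2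
        _ = K := mul_one K)
  refine ⟨this.memLp, fun b => ?_, fun b => ?_⟩
  · have h1 := this.memLp_grad b
    refine (memLp_congr_ae (Eventually.of_forall fun x => ?_)).1 h1
    simp only
    rw [(hfd x).fderiv]
    congr 1
    congr 1
    simp [hpr, eb, Pi.single_apply, eq_comm]
  · have h1 := this.weak b
    refine (congrArg (fun f => IsWeakDeriv _ f (eb b)) ?_).mpr h1
    funext x
    rw [(hfd x).fderiv]
    congr 1
    congr 1
    simp [hpr, eb, Pi.single_apply, eq_comm]

end Pool.Agent.Helper1.LL
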