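import Pool.Agent.Helper1.LL.Model
import Pool.Agent.Helper1.LL.Inputs

/-!
# Selection of thin slabs
-/

open MeasureTheory Filter Topology
open scoped ENNReal

noncomputable section

namespace Pool.Agent.Helper1.LL

/-- the finite measure `φ² dx` -/
def mf {d : ℕ} (φ : Sp d → ℝ) : Measure (Sp d) :=
  volume.withDensity fun x => ENNReal.ofReal (φ x ^ 2)

theorem mf_isProb {d : ℕ} {φ : Sp d → ℝ} (hφ : MemLp φ 2) (h1 : ∫ x, φ x ^ 2 = 1) :
    IsProbabilityMeasure (mf φ) := by
  refine ⟨?_⟩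
  unfold mf
  rw [withDensity_apply _ MeasurableSet.univ, setLIntegral_univ,
    ← ofReal_integral_eq_lintegral_ofReal hφ.integrable_sq (Eventually.of_forall fun x => sq_nonneg _),
    h1, ENNReal.ofReal_one]

theorem mf_apply {d : ℕ} {φ : Sp d → ℝ} (hφ : MemLp φ 2) {s : Set (Sp d)} (hs : MeasurableSet s) :
    mf φ s = ENNReal.ofReal (∫ x in s, φ x ^ 2) := by
  unfold mf
  rw [withDensity_apply _ hs, ← ofReal_integral_eq_lintegral_ofReal hφ.integrable_sq.integrableOn
    (Eventually.of_forall fun x => sq_nonneg _)]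

theorem measurable_coord {d : ℕ} (a : Fin d) : Measurable fun x : Sp d => x a := by
  fun_prop

/-- distribution function of `φ²` in the coordinate `a` -/
def cdfF {d : ℕ} (φ : Sp d → ℝ) (a : Fin d) (t : ℝ) : ℝ := ∫ x in {x : Sp d | x a ≤ t}, φ x ^ 2

theorem cdfF_eq {d : ℕ} {φ : Sp d → ℝ} (hφ : MemLp φ 2) (a : Fin d) (t : ℝ) :
    cdfF φ a t = ((mf φ).map fun x => x a).real (Set.Iic t) := by
  have hs : MeasurableSet {x : Sp d | x a ≤ t} := measurableSet_le (measurable_coord a) measurable_const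
  rw [measureReal_def, Measure.map_apply (measurable_coord a) measurableSet_Iic]
  have : (fun x : Sp d => x a) ⁻¹' Set.Iic t = {x : Sp d | x a ≤ t} := rfl
  rw [this, mf_apply hφ hs, ENNReal.toReal_ofReal (integral_nonneg fun x => sq_nonneg _)]
  rfl

theorem cdfF_sub {d : ℕ} {φ : Sp d → ℝ} (hφ : MemLp φ 2) (a : Fin d) {s t : ℝ} (hst : s ≤ t) :
    cdfF φ a t - cdfF φ a s = ∫ x in {x : Sp d | s < x a ∧ x a ≤ t}, φ x ^ 2 := by
  have hm1 : MeasurableSet {x : Sp d | x a ≤ s} :=
    measurableSet_le (measurable_coord a) measurable_const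
  have hm2 : MeasurableSet {x : Sp d | s < x a ∧ x a ≤ t} :=
    (measurableSet_lt measurable_const (measurable_coord a)).inter
      (measurableSet_le (measurable_coord a) measurable_const)
  have hd : Disjoint {x : Sp d | x a ≤ s} {x : Sp d | s < x a ∧ x a ≤ t} := by
    rw [Set.disjoint_left]
    rintro x h1 ⟨h2, _⟩
    exact absurd h1 (not_le.2 h2)
  have hu : {x : Sp d | x a ≤ t} = {x : Sp d | x a ≤ s} ∪ {x : Sp d | s < x a ∧ x a ≤ t} := by
    ext x
    simp only [Set.mem_setOf_eq, Set.mem_union]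
    constructor
    · intro h
      by_cases hx : x a ≤ s
      · exact Or.inl hx
      · exact Or.inr ⟨not_le.1 hx, h⟩
    · rintro (h | h)
      · exact h.trans hst
      · exact h.2
  unfold cdfF
  rw [hu, setIntegral_union hd hm2 hφ.integrable_sq.integrableOn hφ.integrable_sq.integrableOn]
  ring

theorem cdfF_mono {d : ℕ} {φ : Sp d → ℝ} (hφ : MemLp φ 2) (a : Fin d) : Monotone (cdfF φ a) := by
  intro s t hst
  have := cdfF_sub hφ a hst
  have h2 : 0 ≤ ∫ x in {x : Sp d | s < x a ∧ x a ≤ t}, φ x ^ 2 := integral_nonneg fun x => sq_nonneg _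
  linarith

theorem cdfF_continuous {d : ℕ} {φ : Sp d → ℝ} {G : Fin d → Sp d → ℝ} (h : IsH1 φ G) (a : Fin d) :
    Continuous (cdfF φ a) := by
  set C : ℝ := 2 * Real.sqrt (∫ x, φ x ^ 2) * Real.sqrt (∫ x, G a x ^ 2) with hC
  have hC0 : 0 ≤ C := by positivity
  have key : ∀ s t, s ≤ t → |cdfF φ a t - cdfF φ a s| ≤ C * (t - s) := by
    intro s t hst
    have h1 := Inputs.IsH1.slab h a hst
    rw [← cdfF_sub h.memLp a hst] at h1
    have h2 := cdfF_mono h.memLp a hst
    rw [abs_of_nonneg (by linarith)]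
    calc _ ≤ _ := h1
      _ = C * (t - s) := by rw [hC]; ring
  have : LipschitzWith (Real.toNNReal C) (cdfF φ a) := by
    refine LipschitzWith.of_dist_le_mul fun s t => ?_
    rw [Real.coe_toNNReal C hC0, Real.dist_eq, Real.dist_eq]
    rcases le_total s t with hst | hst
    · rw [abs_sub_comm, abs_sub_comm s t, abs_of_nonneg (sub_nonneg.2 hst)]
      exact key s t hst
    · rw [abs_of_nonneg (sub_nonneg.2 hst)]
      exact key t s hst
  exact this.continuous

theorem exists_levels {d : ℕ} {φ : Sp d → ℝ} {G : Fin d → Sp d → ℝ} (h : IsH1 φ G)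
    (h1 : ∫ x, φ x ^ 2 = 1) (a : Fin d) (β : ℝ) (hβ : 0 < β) (hβ' : β < 1 / 2) :
    ∃ τ : ℕ → ℝ, StrictMono τ ∧
      (∀ j, 0 < ∫ x in {x : Sp d | τ j < x a ∧ x a ≤ τ (j + 1)}, φ x ^ 2) ∧
      (∀ j, ∫ x in {x : Sp d | τ 0 < x a ∧ x a ≤ τ j}, φ x ^ 2 ≤ β) := by
  haveI := mf_isProb h.memLp h1
  haveI : IsProbabilityMeasure ((mf φ).map fun x : Sp d => x a) :=
    Measure.isProbabilityMeasure_map (measurable_coord a).aemeasurable
  have hcont := cdfF_continuous h a
  have hbot : Tendsto (cdfF φ a) atBot (𝓝 0) := by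
    have := ProbabilityTheory.tendsto_cdf_atBot ((mf φ).map fun x : Sp d => x a)
    refine this.congr fun t => ?_
    rw [cdfF_eq h.memLp, ProbabilityTheory.cdf_eq_real]
  have htop : Tendsto (cdfF φ a) atTop (𝓝 1) := by
    have := ProbabilityTheory.tendsto_cdf_atTop ((mf φ).map fun x : Sp d => x a)
    refine this.congr fun t => ?_
    rw [cdfF_eq h.memLp, ProbabilityTheory.cdf_eq_real]
  have hex : ∀ y, 0 < y → y < 1 → ∃ t, cdfF φ a t = y := by
    intro y hy0 hy1
    have e1 : ∃ t, cdfF φ a t ≤ y := (hbot.eventually (ge_mem_nhds hy0)).exists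
    have e2 : ∃ t, y ≤ cdfF φ a t := (htop.eventually (le_mem_nhds hy1)).exists
    exact mem_range_of_exists_le_of_exists_ge hcont e1 e2
  have hy : ∀ j : ℕ, 0 < 1 / 2 + β * (j / (j + 1) : ℝ) ∧ 1 / 2 + β * (j / (j + 1) : ℝ) < 1 := by
    intro j
    have hj : (0 : ℝ) ≤ j := Nat.cast_nonneg j
    have h1 : 0 ≤ (j / (j + 1) : ℝ) := by positivity
    have h2 : (j / (j + 1) : ℝ) ≤ 1 := by rw [div_le_one (by positivity)]; linarith
    constructor
    · nlinarith
    · nlinarith
  choose τ hτ using fun j : ℕ => hex _ (hy j).1 (hy j).2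
  have hlt : ∀ j : ℕ, β * (j / (j + 1) : ℝ) < β * (((j + 1 : ℕ) : ℝ) / (((j + 1 : ℕ) : ℝ) + 1)) := by
    intro j
    refine mul_lt_mul_of_pos_left ?_ hβ
    push_cast
    rw [div_lt_div_iff₀ (by positivity) (by positivity)]
    nlinarith
  have hmono : StrictMono τ := by
    refine strictMono_nat_of_lt_succ fun j => ?_
    by_contra hcon
    have h2 := cdfF_mono h.memLp a (not_lt.1 hcon)
    rw [hτ, hτ] at h2
    have := hlt j
    linarith
  refine ⟨τ, hmono, fun j => ?_, fun j => ?_⟩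
  · rw [← cdfF_sub h.memLp a (hmono.monotone (Nat.le_succ j)), hτ, hτ]
    have := hlt j
    linarith
  · rw [← cdfF_sub h.memLp a (hmono.monotone (Nat.zero_le j)), hτ, hτ]
    have hj : (0 : ℝ) ≤ j := Nat.cast_nonneg j
    have h2 : (j / (j + 1) : ℝ) ≤ 1 := by rw [div_le_one (by positivity)]; linarith
    simp only [CharP.cast_eq_zero, zero_div, mul_zero]
    nlinarith

end Pool.Agent.Helper1.LL
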