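import Pool.Agent.Helper1.LL.Diag
import Pool.Agent.Helper1.LL.Inputs

/-!
# Slater states over a finite index type
-/

open MeasureTheory Filter Topology
open scoped ENNReal

noncomputable section

namespace Pool.Agent.Helper1.LL

/-- pair energy for an `[0,∞]`-valued kernel -/
def pairEnergy {d n : ℕ} (W : Sp d → ℝ≥0∞) (Ψ : (Fin (n + 1) → Sp d) → ℂ) : ℝ≥0∞ :=
  ∫⁻ x, (∑ i, ∑ j ∈ Finset.Ioi i, W (x i - x j)) * ENNReal.ofReal (‖Ψ x‖ ^ 2)

theorem interaction_eq_pairEnergy {d n : ℕ} (w : Sp d → ℝ) (Ψ : (Fin (n + 1) → Sp d) → ℂ) :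
    interaction w Ψ = pairEnergy (fun z => ENNReal.ofReal (w z)) Ψ := rfl

theorem pairEnergy_congr {d n : ℕ} {W W' : Sp d → ℝ≥0∞} (h : W =ᵐ[volume] W')
    (Ψ : (Fin (n + 1) → Sp d) → ℂ) : pairEnergy W Ψ = pairEnergy W' Ψ := by
  unfold pairEnergy
  refine lintegral_congr_ae ?_
  have h1 : ∀ᵐ x : Fin (n + 1) → Sp d, ∀ i j, i ≠ j → W (x i - x j) = W' (x i - x j) := by
    rw [ae_all_iff]; intro i
    rw [ae_all_iff]; intro j
    by_cases hij : i = j
    · exact Eventually.of_forall fun x h => absurd hij h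
    · filter_upwards [(quasi_sub hij).ae h] with x hx _
      exact hx
  filter_upwards [h1] with x hx
  congr 1
  refine Finset.sum_congr rfl fun i _ => Finset.sum_congr rfl fun j hj => ?_
  exact hx i j (Finset.mem_Ioi.1 hj).ne

theorem ON.comp_equiv {X : Type*} [MeasureSpace X] {J J' : Type*} [DecidableEq J] [DecidableEq J']
    (e : J' ≃ J) {φ : J → X → ℂ} (h : ON φ) : ON (φ ∘ e) :=
  ⟨fun k => h.1 (e k), fun k l => by
    have := h.2 (e k) (e l)
    simp only [Function.comp_apply]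
    rw [this]
    simp [e.injective.eq_iff]⟩

/-- The Slater state built from an orthonormal family of `n+1` orbitals in `H¹`. -/
theorem slater_state {d n : ℕ} {J : Type*} [Fintype J] [DecidableEq J]
    (hJ : Fintype.card J = n + 1) (φ : J → Sp d → ℂ) (Dφ : J → Fin d → Sp d → ℂ)
    (hH : ∀ j, IsH1 (φ j) (Dφ j)) (hON : ON φ) :
    ∃ (Ψ : (Fin (n + 1) → Sp d) → ℂ) (D : Fin (n + 1) → Fin d → (Fin (n + 1) → Sp d) → ℂ),
      IsFermionState Ψ D ∧ (∀ x, density Ψ x = ∑ j, ‖φ j x‖ ^ 2) ∧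
      kinetic D = ∑ j, dir (Dφ j) ∧
      (∀ W : Sp d → ℝ≥0∞, Measurable W → (∀ z, W (-z) = W z) →
        pairEnergy W Ψ = 2⁻¹ * ∫⁻ x, ∫⁻ y, W (x - y) * ENNReal.ofReal (pairDens φ x y)) ∧
      (∀ (A : Set (Sp d)) (T : Finset J),
        (∀ j ∈ T, ∀ x ∉ A, φ j x = 0 ∧ ∀ a, Dφ j a x = 0) →
        (∀ j ∉ T, ∀ x ∈ A, φ j x = 0 ∧ ∀ a, Dφ j a x = 0) →
        ∀ x : Fin (n + 1) → Sp d, {i | x i ∈ A}.ncard ≠ T.card →
          Ψ x = 0 ∧ ∀ i a, D i a x = 0) := by
  classical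
  let e : Fin (n + 1) ≃ J := (Fintype.equivFinOfCardEq hJ).symm
  set φ' : Fin (n + 1) → Sp d → ℂ := φ ∘ e with hφ'
  set D' : Fin (n + 1) → Fin d → Sp d → ℂ := Dφ ∘ e with hD'
  have hH' : ∀ k, IsH1 (φ' k) (D' k) := fun k => hH (e k)
  have hON' : ON φ' := hON.comp_equiv e
  refine ⟨slater φ', fun i a => slaterGrad φ' (fun k => D' k a) i, ⟨?_, ?_, ?_, ?_, ?_⟩,
    ?_, ?_, ?_, ?_⟩
  · exact Inputs.slater_memLp φ' hON'.1
  · exact Inputs.slater_normalized φ' hON'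
  · exact fun σ => Eventually.of_forall fun x => Inputs.slater_antisymm φ' σ x
  · exact fun i a => Inputs.slaterGrad_memLp φ' _ hON'.1 (fun k => (hH' k).memLp_grad a) i
  · exact fun i a => Inputs.slater_isWeakDeriv φ' D' hH' i a
  · intro x
    unfold density
    rw [Inputs.slater_density φ' hON' x]
    exact e.sum_comp (fun j => ‖φ j x‖ ^ 2)
  · unfold kinetic
    have h1 : ∀ (i : Fin (n + 1)) (a : Fin d), ∫ x, ‖slaterGrad φ' (fun k => D' k a) i x‖ ^ 2
        = (((n + 1 : ℕ) : ℝ))⁻¹ * ∑ k, ∫ x, ‖D' k a x‖ ^ 2 := fun i a =>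
      Inputs.slaterGrad_norm φ' _ hON' (fun k => (hH' k).memLp_grad a) i
    simp_rw [h1]
    rw [Finset.sum_const, Finset.card_univ, Fintype.card_fin, nsmul_eq_mul, ← Finset.mul_sum,
      ← mul_assoc, mul_inv_cancel₀ (by positivity), one_mul, Finset.sum_comm]
    exact e.sum_comp (fun j => dir (Dφ j))
  · intro W hW hWe
    unfold pairEnergy
    have h1 := Inputs.slater_pair φ' hON' (fun x y => W (x - y))
      (hW.comp (measurable_fst.sub measurable_snd))
      (fun x y => by rw [← neg_sub, hWe])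
    rw [h1]
    congr 1
    refine lintegral_congr fun x => lintegral_congr fun y => ?_
    congr 2
    unfold pairDens
    congr 1
    rw [← e.sum_comp (fun k => ∑ l, ‖φ k x * φ l y - φ l x * φ k y‖ ^ 2)]
    refine Finset.sum_congr rfl fun k _ => ?_
    rw [← e.sum_comp (fun l => ‖φ (e k) x * φ l y - φ l x * φ (e k) y‖ ^ 2)]
    rfl
  · intro A T hT hT' x hx
    set T' : Finset (Fin (n + 1)) := T.map e.symm.toEmbedding with hTdef
    have hmem : ∀ k, k ∈ T' ↔ e k ∈ T := by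
      intro k
      rw [hTdef, Finset.mem_map_equiv]
      simp
    have hcard : T'.card = T.card := Finset.card_map _
    have h1 : ∀ k ∈ T', ∀ x ∉ A, φ' k x = 0 ∧ ∀ a, D' k a x = 0 := fun k hk x hx =>
      hT (e k) ((hmem k).1 hk) x hx
    have h2 : ∀ k ∉ T', ∀ x ∈ A, φ' k x = 0 ∧ ∀ a, D' k a x = 0 := fun k hk x hx =>
      hT' (e k) (fun h => hk ((hmem k).2 h)) x hx
    rw [← hcard] at hx
    refine ⟨Inputs.slater_eq_zero φ' A T' (fun k hk x hx => (h1 k hk x hx).1)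
      (fun k hk x hx => (h2 k hk x hx).1) x hx, fun i a => ?_⟩
    exact Inputs.slaterGrad_eq_zero φ' (fun k => D' k a) A T'
      (fun k hk x hx => ⟨(h1 k hk x hx).1, (h1 k hk x hx).2 a⟩)
      (fun k hk x hx => ⟨(h2 k hk x hx).1, (h2 k hk x hx).2 a⟩) i x hx

/-- general bound on weighted pair densities -/
theorem pair_le {ι : Type*} [Fintype ι] (lam : ι → ℝ) (u v : ι → ℂ) :
    (1 / 2) * ∑ k, ∑ l, lam k * lam l * ‖u k * v l - u l * v k‖ ^ 2 ≤
      (∑ k, lam k * ‖u k‖ ^ 2) * (∑ k, lam k * ‖v k‖ ^ 2) := by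
  have key : (1 / 2) * ∑ k, ∑ l, lam k * lam l * ‖u k * v l - u l * v k‖ ^ 2 =
      (∑ k, lam k * ‖u k‖ ^ 2) * (∑ k, lam k * ‖v k‖ ^ 2)
        - ‖∑ k, (lam k : ℂ) * (u k * star (v k))‖ ^ 2 := by
    have e1 : ∀ k l, ‖u k * v l - u l * v k‖ ^ 2 = ‖u k‖ ^ 2 * ‖v l‖ ^ 2 + ‖u l‖ ^ 2 * ‖v k‖ ^ 2
        - 2 * ((u k * star (v k)) * star (u l * star (v l))).re := by
      intro k l
      rw [← Complex.normSq_eq_norm_sq, Complex.normSq_sub, Complex.normSq_eq_norm_sq,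
        Complex.normSq_eq_norm_sq, norm_mul, norm_mul, mul_pow, mul_pow]
      congr 2
      congr 1
      simp only [Complex.star_def, map_mul, Complex.conj_conj]
      ring
    have e2 : ‖∑ k, (lam k : ℂ) * (u k * star (v k))‖ ^ 2
        = ∑ k, ∑ l, lam k * lam l * ((u k * star (v k)) * star (u l * star (v l))).re := by
      rw [← Complex.normSq_eq_norm_sq, ← Complex.ofReal_re (Complex.normSq _),
        Complex.normSq_eq_conj_mul_self, mul_comm, map_sum, Finset.sum_mul_sum, Complex.re_sum]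
      refine Finset.sum_congr rfl fun k _ => ?_
      rw [Complex.re_sum]
      refine Finset.sum_congr rfl fun l _ => ?_
      have : (lam k : ℂ) * (u k * star (v k)) * (starRingEnd ℂ) ((lam l : ℂ) * (u l * star (v l)))
          = ((lam k * lam l : ℝ) : ℂ) * ((u k * star (v k)) * star (u l * star (v l))) := by
        simp only [Complex.star_def, map_mul, Complex.conj_conj, Complex.conj_ofReal]
        push_cast
        ring
      rw [this, Complex.re_ofReal_mul]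
    rw [e2]
    simp_rw [e1]
    have e3 : ∑ k, ∑ l, lam k * lam l * (‖u k‖ ^ 2 * ‖v l‖ ^ 2 + ‖u l‖ ^ 2 * ‖v k‖ ^ 2
        - 2 * ((u k * star (v k)) * star (u l * star (v l))).re)
        = (∑ k, ∑ l, (lam k * ‖u k‖ ^ 2) * (lam l * ‖v l‖ ^ 2))
          + (∑ k, ∑ l, (lam l * ‖u l‖ ^ 2) * (lam k * ‖v k‖ ^ 2))
          - 2 * ∑ k, ∑ l, lam k * lam l * ((u k * star (v k)) * star (u l * star (v l))).re := by
      rw [← Finset.sum_add_distrib, Finset.mul_sum, ← Finset.sum_sub_distrib]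
      refine Finset.sum_congr rfl fun k _ => ?_
      rw [← Finset.sum_add_distrib, Finset.mul_sum, ← Finset.sum_sub_distrib]
      refine Finset.sum_congr rfl fun l _ => ?_
      ring
    have e4 : ∑ k, ∑ l, (lam l * ‖u l‖ ^ 2) * (lam k * ‖v k‖ ^ 2)
        = ∑ k, ∑ l, (lam k * ‖u k‖ ^ 2) * (lam l * ‖v l‖ ^ 2) := Finset.sum_comm
    rw [e3, e4, Finset.sum_mul_sum]
    ring
  rw [key]
  have := sq_nonneg ‖∑ k, (lam k : ℂ) * (u k * star (v k))‖
  linarith

end Pool.Agent.Helper1.LL
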