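import Pool.Agent.Helper1.LL.Model

/-!
# Superposition of states with pairwise disjoint supports in configuration space
-/

open MeasureTheory Filter Topology
open scoped ENNReal

noncomputable section

set_option linter.unusedSectionVars false

namespace Pool.Agent.Helper1.LL

section general

variable {E F : Type*} [NormedAddCommGroup E] [NormedSpace ℝ E] [MeasureSpace E] [BorelSpace E]
  [IsLocallyFiniteMeasure (volume : Measure E)] [LocallyCompactSpace E]
  [NormedAddCommGroup F] [NormedSpace ℝ F]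

theorem integrable_test_smul {u : E → F} (hu : MemLp u 2) {χ : E → ℝ} (hχ : Continuous χ)
    (hc : HasCompactSupport χ) : Integrable (fun x => χ x • u x) := by
  have h1 : LocallyIntegrable u volume := hu.locallyIntegrable (by norm_num)
  exact h1.integrable_smul_left_of_hasCompactSupport hχ hc

theorem test_fderiv {χ : E → ℝ} (hχ : ContDiff ℝ (⊤ : ℕ∞) χ) (hc : HasCompactSupport χ) (v : E) :
    Continuous (fun x => fderiv ℝ χ x v) ∧ HasCompactSupport (fun x => fderiv ℝ χ x v) := by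
  constructor
  · have h : Continuous (fderiv ℝ χ) := hχ.continuous_fderiv (by simp)
    exact h.clm_apply continuous_const
  · exact hc.fderiv_apply (𝕜 := ℝ) v

theorem IsWeakDeriv.sum_smul {ι : Type*} (s : Finset ι) (c : ι → ℂ) {u g : ι → E → ℂ} {v : E}
    (hu : ∀ i ∈ s, MemLp (u i) 2) (hg : ∀ i ∈ s, MemLp (g i) 2)
    (h : ∀ i ∈ s, IsWeakDeriv (u i) (g i) v) :
    IsWeakDeriv (fun x => ∑ i ∈ s, c i * u i x) (fun x => ∑ i ∈ s, c i * g i x) v := by
  intro χ hχ hc
  obtain ⟨h1, h2⟩ := test_fderiv hχ hc v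
  have e1 : ∀ x, (fderiv ℝ χ x v) • (∑ i ∈ s, c i * u i x)
      = ∑ i ∈ s, c i * ((fderiv ℝ χ x v) • u i x) := by
    intro x
    rw [Finset.smul_sum]
    refine Finset.sum_congr rfl fun i _ => ?_
    rw [mul_smul_comm]
  have e2 : ∀ x, χ x • (∑ i ∈ s, c i * g i x) = ∑ i ∈ s, c i * (χ x • g i x) := by
    intro x
    rw [Finset.smul_sum]
    refine Finset.sum_congr rfl fun i _ => ?_
    rw [mul_smul_comm]
  simp_rw [e1, e2]
  rw [integral_finsetSum, integral_finsetSum, ← Finset.sum_neg_distrib]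
  · refine Finset.sum_congr rfl fun i hi => ?_
    rw [integral_const_mul, integral_const_mul, h i hi χ hχ hc]
    ring
  · intro i hi
    exact (integrable_test_smul (hg i hi) hχ.continuous hc).const_mul _
  · intro i hi
    exact (integrable_test_smul (hu i hi) h1 h2).const_mul _

end general

theorem norm_sq_sum_disjoint {𝒜 : Type*} [Fintype 𝒜] (q : 𝒜 → ℝ) (hq : ∀ α, 0 ≤ q α)
    (z : 𝒜 → ℂ) (hz : ∀ α β, α ≠ β → z α = 0 ∨ z β = 0) :
    ‖∑ α, ((Real.sqrt (q α) : ℝ) : ℂ) * z α‖ ^ 2 = ∑ α, q α * ‖z α‖ ^ 2 := by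
  classical
  by_cases h : ∃ α, z α ≠ 0
  · obtain ⟨α, hα⟩ := h
    have h0 : ∀ β, β ≠ α → z β = 0 := fun β hβ => (hz β α hβ).resolve_right hα
    rw [Finset.sum_eq_single α, Finset.sum_eq_single α]
    · rw [norm_mul, mul_pow, Complex.norm_real, Real.norm_eq_abs, sq_abs, Real.sq_sqrt (hq α)]
    · intro β _ hβ
      rw [h0 β hβ]; simp
    · simp
    · intro β _ hβ
      rw [h0 β hβ]; simp
    · simp
  · push Not at h
    simp [h]

theorem measurable_sub_coord {d n : ℕ} (i j : Fin (n + 1)) :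
    Measurable (fun x : Fin (n + 1) → Sp d => x i - x j) :=
  (measurable_pi_apply i).sub (measurable_pi_apply j)

theorem quasi_sub {d n : ℕ} {i j : Fin (n + 1)} (hij : i ≠ j) :
    Measure.QuasiMeasurePreserving (fun x : Fin (n + 1) → Sp d => x i - x j) volume volume := by
  refine ⟨measurable_sub_coord i j, ?_⟩
  refine Measure.AbsolutelyContinuous.mk fun s hs h0 => ?_
  rw [Measure.map_apply (measurable_sub_coord i j) hs]
  have mp := volume_preserving_piFinSuccAbove (fun _ : Fin (n + 1) => Sp d) i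
  obtain ⟨k, hk⟩ : ∃ k, i.succAbove k = j := Fin.exists_succAbove_eq (Ne.symm hij)
  have hpre : (fun x : Fin (n + 1) → Sp d => x i - x j) ⁻¹' s =
      (MeasurableEquiv.piFinSuccAbove (fun _ : Fin (n + 1) => Sp d) i) ⁻¹'
        {p : Sp d × (Fin n → Sp d) | p.1 - p.2 k ∈ s} := by
    ext x
    simp [MeasurableEquiv.piFinSuccAbove, Fin.removeNth, hk]
  have hm : Measurable (fun p : Sp d × (Fin n → Sp d) => p.1 - p.2 k) :=
    measurable_fst.sub ((measurable_pi_apply k).comp measurable_snd)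
  have hmeas : MeasurableSet {p : Sp d × (Fin n → Sp d) | p.1 - p.2 k ∈ s} := hm hs
  rw [hpre, mp.measure_preimage hmeas.nullMeasurableSet]
  rw [Measure.volume_eq_prod, Measure.prod_apply_symm hmeas]
  have : ∀ y : Fin n → Sp d, volume ((fun x : Sp d => (x, y)) ⁻¹'
      {p : Sp d × (Fin n → Sp d) | p.1 - p.2 k ∈ s}) = 0 := by
    intro y
    have : ((fun x : Sp d => (x, y)) ⁻¹' {p : Sp d × (Fin n → Sp d) | p.1 - p.2 k ∈ s})
        = (fun x => x - y k) ⁻¹' s := rfl
    rw [this, (measurePreserving_sub_right volume (y k)).measure_preimage hs.nullMeasurableSet, h0]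
  rw [lintegral_congr this, lintegral_zero]

/-- the measure preserving splitting `x ↦ (x 0, tail x)`; its inverse is `Fin.cons`. -/
theorem mp_cons (d n : ℕ) : MeasurePreserving
    (fun p : Sp d × (Fin n → Sp d) => (Fin.cons p.1 p.2 : Fin (n + 1) → Sp d)) volume volume := by
  have mp := (volume_preserving_piFinSuccAbove (fun _ : Fin (n + 1) => Sp d) 0).symm
  have h : (fun p : Sp d × (Fin n → Sp d) => (Fin.cons p.1 p.2 : Fin (n + 1) → Sp d)) =
      ⇑(MeasurableEquiv.piFinSuccAbove (fun _ : Fin (n + 1) => Sp d) 0).symm := by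
    funext p
    simp [MeasurableEquiv.piFinSuccAbove]
    rfl
  rw [h]
  exact mp

theorem measurableEmbedding_cons (d n : ℕ) : MeasurableEmbedding
    (fun p : Sp d × (Fin n → Sp d) => (Fin.cons p.1 p.2 : Fin (n + 1) → Sp d)) := by
  have h : (fun p : Sp d × (Fin n → Sp d) => (Fin.cons p.1 p.2 : Fin (n + 1) → Sp d)) =
      ⇑(MeasurableEquiv.piFinSuccAbove (fun _ : Fin (n + 1) => Sp d) 0).symm := by
    funext p
    simp [MeasurableEquiv.piFinSuccAbove]
    rfl
  rw [h]
  exact (MeasurableEquiv.piFinSuccAbove (fun _ : Fin (n + 1) => Sp d) 0).symm.measurableEmbedding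

theorem integrable_slice {d n : ℕ} {Ψ : (Fin (n + 1) → Sp d) → ℂ} (h : MemLp Ψ 2) :
    ∀ᵐ x : Sp d, Integrable (fun y : Fin n → Sp d => ‖Ψ (Fin.cons x y)‖ ^ 2) := by
  have h1 : Integrable (fun x => ‖Ψ x‖ ^ 2) := h.norm.integrable_sq
  have h2 : Integrable (fun p : Sp d × (Fin n → Sp d) => ‖Ψ (Fin.cons p.1 p.2)‖ ^ 2)
      (volume.prod volume) := by
    rw [← Measure.volume_eq_prod]
    exact (mp_cons d n).integrable_comp_of_integrable h1
  exact h2.prod_right_ae

section super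

variable {d n : ℕ} {𝒜 : Type*} [Fintype 𝒜]

/-- Superposition `∑ √q_α Ψ_α`. -/
def superΨ (q : 𝒜 → ℝ) (Ψ : 𝒜 → (Fin (n + 1) → Sp d) → ℂ) (x : Fin (n + 1) → Sp d) : ℂ :=
  ∑ α, ((Real.sqrt (q α) : ℝ) : ℂ) * Ψ α x

/-- Gradient of the superposition. -/
def superD (q : 𝒜 → ℝ) (D : 𝒜 → Fin (n + 1) → Fin d → (Fin (n + 1) → Sp d) → ℂ)
    (i : Fin (n + 1)) (a : Fin d) (x : Fin (n + 1) → Sp d) : ℂ :=
  ∑ α, ((Real.sqrt (q α) : ℝ) : ℂ) * D α i a x

/-- Pairwise disjointness of the supports in configuration space. -/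
def DisjSupp (Ψ : 𝒜 → (Fin (n + 1) → Sp d) → ℂ)
    (D : 𝒜 → Fin (n + 1) → Fin d → (Fin (n + 1) → Sp d) → ℂ) : Prop :=
  ∀ α β, α ≠ β → ∀ x, (Ψ α x = 0 ∧ ∀ i a, D α i a x = 0) ∨ (Ψ β x = 0 ∧ ∀ i a, D β i a x = 0)

variable {q : 𝒜 → ℝ} {Ψ : 𝒜 → (Fin (n + 1) → Sp d) → ℂ}
  {D : 𝒜 → Fin (n + 1) → Fin d → (Fin (n + 1) → Sp d) → ℂ}

theorem superΨ_norm_sq (hq : ∀ α, 0 ≤ q α) (hdis : DisjSupp Ψ D) (x : Fin (n + 1) → Sp d) :
    ‖superΨ q Ψ x‖ ^ 2 = ∑ α, q α * ‖Ψ α x‖ ^ 2 := by
  refine norm_sq_sum_disjoint q hq (fun α => Ψ α x) fun α β h => ?_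
  rcases hdis α β h x with h | h
  · exact Or.inl h.1
  · exact Or.inr h.1

theorem superD_norm_sq (hq : ∀ α, 0 ≤ q α) (hdis : DisjSupp Ψ D) (i : Fin (n + 1)) (a : Fin d)
    (x : Fin (n + 1) → Sp d) :
    ‖superD q D i a x‖ ^ 2 = ∑ α, q α * ‖D α i a x‖ ^ 2 := by
  refine norm_sq_sum_disjoint q hq (fun α => D α i a x) fun α β h => ?_
  rcases hdis α β h x with h | h
  · exact Or.inl (h.2 i a)
  · exact Or.inr (h.2 i a)

theorem super_isFermionState (hq : ∀ α, 0 ≤ q α) (hq1 : ∑ α, q α = 1)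
    (hst : ∀ α, IsFermionState (Ψ α) (D α)) (hdis : DisjSupp Ψ D) :
    IsFermionState (superΨ q Ψ) (superD q D) where
  memLp := by
    unfold superΨ
    exact memLp_finsetSum _ fun α _ => (hst α).memLp.const_mul _
  normalized := by
    simp_rw [superΨ_norm_sq hq hdis]
    rw [integral_finsetSum]
    · simp_rw [integral_const_mul, (hst _).normalized, mul_one]
      exact hq1
    · intro α _
      exact ((hst α).memLp.norm.integrable_sq).const_mul _
  antisymm := by
    intro σ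
    have h : ∀ᵐ x, ∀ α, Ψ α (x ∘ σ) = ((Equiv.Perm.sign σ : ℤ) : ℂ) * Ψ α x :=
      ae_all_iff.2 fun α => (hst α).antisymm σ
    filter_upwards [h] with x hx
    unfold superΨ
    simp_rw [hx]
    rw [Finset.mul_sum]
    refine Finset.sum_congr rfl fun α _ => ?_
    ring
  memLp_grad := by
    intro i a
    unfold superD
    exact memLp_finsetSum _ fun α _ => ((hst α).memLp_grad i a).const_mul _
  weak := by
    intro i a
    exact IsWeakDeriv.sum_smul Finset.univ _ (fun α _ => (hst α).memLp)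
      (fun α _ => (hst α).memLp_grad i a) (fun α _ => (hst α).weak i a)

theorem super_kinetic (hq : ∀ α, 0 ≤ q α) (hst : ∀ α, IsFermionState (Ψ α) (D α))
    (hdis : DisjSupp Ψ D) :
    kinetic (superD q D) = ∑ α, q α * kinetic (D α) := by
  unfold kinetic
  simp_rw [superD_norm_sq hq hdis, Finset.mul_sum]
  rw [Finset.sum_comm]
  rw [Finset.sum_comm (s := (Finset.univ : Finset 𝒜))]
  rw [Finset.sum_comm]
  refine Finset.sum_congr rfl fun i _ => ?_
  rw [Finset.sum_comm (s := (Finset.univ : Finset 𝒜))]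
  refine Finset.sum_congr rfl fun a _ => ?_
  rw [integral_finsetSum]
  · simp_rw [integral_const_mul]
  · intro α _
    exact (((hst α).memLp_grad i a).norm.integrable_sq).const_mul _

theorem super_density (hq : ∀ α, 0 ≤ q α) (hst : ∀ α, IsFermionState (Ψ α) (D α))
    (hdis : DisjSupp Ψ D) :
    density (superΨ q Ψ) =ᵐ[volume] fun x => ∑ α, q α * density (Ψ α) x := by
  have h : ∀ᵐ x : Sp d, ∀ α, Integrable (fun y : Fin n → Sp d => ‖Ψ α (Fin.cons x y)‖ ^ 2) :=
    ae_all_iff.2 fun α => integrable_slice (hst α).memLp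
  filter_upwards [h] with x hx
  unfold density
  simp_rw [superΨ_norm_sq hq hdis]
  rw [integral_finsetSum _ fun α _ => (hx α).const_mul _, Finset.mul_sum]
  refine Finset.sum_congr rfl fun α _ => ?_
  rw [integral_const_mul]
  ring

theorem aemeasurable_pair {w : Sp d → ℝ} (hw : AEMeasurable w volume) :
    AEMeasurable (fun x : Fin (n + 1) → Sp d =>
      ∑ i, ∑ j ∈ Finset.Ioi i, ENNReal.ofReal (w (x i - x j))) volume := by
  refine Finset.aemeasurable_fun_sum _ fun i _ => Finset.aemeasurable_fun_sum _ fun j hj => ?_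
  have hij : i ≠ j := (Finset.mem_Ioi.1 hj).ne
  exact (hw.comp_quasiMeasurePreserving (quasi_sub hij)).ennreal_ofReal

theorem super_interaction (hq : ∀ α, 0 ≤ q α) (hdis : DisjSupp Ψ D)
    (hst : ∀ α, IsFermionState (Ψ α) (D α)) {w : Sp d → ℝ} (hw : AEMeasurable w volume) :
    interaction w (superΨ q Ψ) = ∑ α, ENNReal.ofReal (q α) * interaction w (Ψ α) := by
  unfold interaction
  have h1 : ∀ x, ENNReal.ofReal (‖superΨ q Ψ x‖ ^ 2)
      = ∑ α, ENNReal.ofReal (q α) * ENNReal.ofReal (‖Ψ α x‖ ^ 2) := by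
    intro x
    rw [superΨ_norm_sq hq hdis, ENNReal.ofReal_sum_of_nonneg fun α _ =>
      mul_nonneg (hq α) (sq_nonneg _)]
    refine Finset.sum_congr rfl fun α _ => ?_
    rw [ENNReal.ofReal_mul (hq α)]
  simp_rw [h1, Finset.mul_sum]
  rw [lintegral_finsetSum' _ fun α _ => ?_]
  · refine Finset.sum_congr rfl fun α _ => ?_
    rw [← lintegral_const_mul'' _ ?_]
    · refine lintegral_congr fun x => ?_
      ring
    · exact (aemeasurable_pair hw).mul
        (((hst α).memLp.aestronglyMeasurable.norm.aemeasurable.pow_const 2).ennreal_ofReal)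
  · exact (aemeasurable_pair hw).mul
      ((((hst α).memLp.aestronglyMeasurable.norm.aemeasurable.pow_const 2).ennreal_ofReal).const_mul _)

end super

end Pool.Agent.Helper1.LL
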