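import Pool.Agent.Helper1.LL.UpperAux

/-!
# Upper bound: trial states with exact density
-/

open MeasureTheory Filter Topology
open scoped ENNReal

noncomputable section

namespace Pool.Agent.Helper1.LL

variable {d : ℕ}

theorem rpow_split (hd : 1 ≤ d) {t : ℝ} (ht : 0 ≤ t) :
    t ^ (2 + 4 / d : ℝ) = t ^ (4 / d : ℝ) * t ^ 2 := by
  have hd' : (0 : ℝ) < d := by exact_mod_cast hd
  have h : (t : ℝ) ^ (2 : ℕ) = t ^ (2 : ℝ) := by norm_cast
  rw [h, ← Real.rpow_add_of_nonneg ht (by positivity) (by norm_num), add_comm]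

theorem Kcl_nonneg (d : ℕ) : 0 ≤ Kcl d := by
  unfold Kcl
  positivity

theorem avgOcc_le {L c : ℕ} (hL : 1 ≤ L) (s : Fin (L + 1)) : avgOcc L c s ≤ L * (c + 1) := by
  refine Fin.lastCases ?_ (fun i => ?_) s
  · simp [avgOcc]
  · simp only [avgOcc, Fin.lastCases_castSucc]
    nlinarith

theorem upper_bound (hd : 1 ≤ d) {φ : Sp d → ℝ} {G : Fin d → Sp d → ℝ} (h : IsH1 φ G)
    (hφm : Measurable φ) (hφ0 : ∀ x, 0 ≤ φ x) (hφ1 : ∫ x, φ x ^ 2 = 1)
    {W : Sp d → ℝ≥0∞} (hW : Measurable W) (hWe : ∀ z, W (-z) = W z)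
    (hWf : directE W φ ≠ ⊤) {ε : ℝ} (hε : 0 < ε) :
    ∃ N₀ : ℕ, ∀ n : ℕ, N₀ ≤ n → ∃ (Ψ : (Fin (n + 1) → Sp d) → ℂ)
      (D : Fin (n + 1) → Fin d → (Fin (n + 1) → Sp d) → ℂ),
      IsFermionState Ψ D ∧ (density Ψ =ᵐ[volume] fun x => (n + 1) * φ x ^ 2) ∧
      kinetic D ≤ (n + 1 : ℝ) ^ (1 + 2 / d : ℝ) *
        (Kcl d * (∫ x, φ x ^ (2 + 4 / d : ℝ)) + ε) ∧
      pairEnergy W Ψ ≤ ENNReal.ofReal ((n + 1 : ℝ) ^ 2 / 2) *
        (directE W φ + ENNReal.ofReal ε) := by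
  have hd' : (0 : ℝ) < d := by exact_mod_cast hd
  set p : ℝ := 1 + 2 / d with hp
  have hp1 : 1 < p := by
    have : (0 : ℝ) < 2 / d := by positivity
    rw [hp]; linarith
  have h2p : (2 + 4 / d : ℝ) = 2 * p := by rw [hp]; ring
  have hI : MemLp φ (ENNReal.ofReal (2 + 4 / d)) volume := Inputs.IsH1.sobolev hd h
  set J1 : ℝ := ∫ x, φ x ^ (2 + 4 / d : ℝ) with hJ1
  have hJ1n : 0 ≤ J1 := integral_nonneg fun x => Real.rpow_nonneg (hφ0 x) _
  have hexp : (0 : ℝ) < 2 + 4 / d := by positivity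
  have hIint : Integrable fun x => φ x ^ (2 + 4 / d : ℝ) := by
    have h1 := hI.integrable_norm_rpow (by simpa using hexp) ENNReal.ofReal_ne_top
    rw [ENNReal.toReal_ofReal hexp.le] at h1
    refine h1.congr (Eventually.of_forall fun x => ?_)
    simp only [Real.norm_eq_abs, abs_of_nonneg (hφ0 x)]
  have hK0 := Kcl_nonneg d
  -- choice of eta
  obtain ⟨η, hη, hη1, hηε⟩ : ∃ η : ℝ, 0 < η ∧ η ≤ 1 ∧
      (1 + η) * Kcl d * (J1 + 2 * η) ≤ Kcl d * J1 + ε / 2 := by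
    refine ⟨min 1 (ε / (2 * (Kcl d + 1) * (4 + J1))), lt_min one_pos (by positivity),
      min_le_left _ _, ?_⟩
    set η := min 1 (ε / (2 * (Kcl d + 1) * (4 + J1))) with hη
    have h1 : η ≤ 1 := min_le_left _ _
    have h2 : η ≤ ε / (2 * (Kcl d + 1) * (4 + J1)) := min_le_right _ _
    have h0 : 0 ≤ η := le_min zero_le_one (by positivity)
    have h3 : η * (2 * (Kcl d + 1) * (4 + J1)) ≤ ε := by
      rwa [le_div_iff₀ (by positivity)] at h2
    have h4 : (1 + η) * Kcl d * (J1 + 2 * η) = Kcl d * J1 + Kcl d * (η * (2 + J1 + 2 * η)) := by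
      ring
    rw [h4]
    have h5 : Kcl d * (η * (2 + J1 + 2 * η)) ≤ (Kcl d + 1) * (η * (4 + J1)) := by
      have : η * (2 + J1 + 2 * η) ≤ η * (4 + J1) := by nlinarith
      have h6 : 0 ≤ η * (2 + J1 + 2 * η) := by positivity
      nlinarith
    nlinarith
  -- Bessel system
  obtain ⟨Cb, N₀b, Aexp, hCb, -, hbes⟩ := Inputs.bessel_system d hd η
    ((3 : ℝ) ^ p * J1) hη hη1 (by positivity)
  have hbes' : BesselProp d η ((3 : ℝ) ^ p * J1) Cb N₀b Aexp := hbes
  set L : ℕ := 6 * Aexp + 6 with hL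
  have hL1 : 1 ≤ L := by omega
  set a : Fin d := ⟨0, hd⟩ with ha
  -- absolute continuity
  have hg1 : ∫⁻ x, ENNReal.ofReal (φ x ^ (4 / d : ℝ)) * ENNReal.ofReal (φ x ^ 2) ≠ ⊤ := by
    have h1 : ∫⁻ x, ENNReal.ofReal (φ x ^ (4 / d : ℝ)) * ENNReal.ofReal (φ x ^ 2)
        = ∫⁻ x, ENNReal.ofReal (φ x ^ (2 + 4 / d : ℝ)) := by
      refine lintegral_congr fun x => ?_
      rw [rpow_split hd (hφ0 x), ENNReal.ofReal_mul (Real.rpow_nonneg (hφ0 x) _)]
    rw [h1]
    exact hIint.lintegral_lt_top.ne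
  obtain ⟨δ₁, hδ₁, hac1⟩ := abs_cont hφm h.memLp (hφm.pow_const (4 / d : ℝ)).ennreal_ofReal hg1
    (ε := ENNReal.ofReal (η / (2 * 3 ^ p))) (by
      rw [Ne, ENNReal.ofReal_eq_zero, not_le]; positivity)
  have hg2m : Measurable fun x => ∫⁻ y, W (x - y) * ENNReal.ofReal (φ y ^ 2) := by
    refine Measurable.lintegral_prod_right' (f := fun z : Sp d × Sp d =>
      W (z.1 - z.2) * ENNReal.ofReal (φ z.2 ^ 2)) ?_
    exact (hW.comp (measurable_fst.sub measurable_snd)).mul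
      ((hφm.comp measurable_snd).pow_const 2).ennreal_ofReal
  have hg2e : ∀ x, (∫⁻ y, W (x - y) * ENNReal.ofReal (φ y ^ 2)) * ENNReal.ofReal (φ x ^ 2)
      = ∫⁻ y, W (x - y) * ENNReal.ofReal (φ x ^ 2 * φ y ^ 2) := by
    intro x
    have hm : Measurable fun y => W (x - y) * ENNReal.ofReal (φ y ^ 2) :=
      (hW.comp (measurable_const.sub measurable_id)).mul (hφm.pow_const 2).ennreal_ofReal
    rw [← lintegral_mul_const _ hm]
    refine lintegral_congr fun y => ?_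
    rw [ENNReal.ofReal_mul (sq_nonneg _)]
    ring
  obtain ⟨δ₂, hδ₂, hac2⟩ := abs_cont hφm h.memLp hg2m (by simp_rw [hg2e]; exact hWf)
    (ε := ENNReal.ofReal (ε / 216)) (by
      rw [Ne, ENNReal.ofReal_eq_zero, not_le]; positivity)
  simp_rw [hg2e] at hac2
  -- choice of beta
  set I : ℝ := (directE W φ).toReal with hIdef
  have hI0 : 0 ≤ I := ENNReal.toReal_nonneg
  obtain ⟨β, hβ0, hβ1, hβ2, hβ3, hβ4, hβ5⟩ : ∃ β : ℝ, 0 < β ∧ β < 1 / 4 ∧ β ≤ δ₁ ∧ β ≤ δ₂ ∧
      ((1 - β)⁻¹) ^ p * J1 ≤ J1 + η / 2 ∧ ((1 - β)⁻¹) ^ 2 * I ≤ I + ε / 2 := by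
    have hc1 : Tendsto (fun β : ℝ => ((1 - β)⁻¹) ^ p * J1) (𝓝[>] 0) (𝓝 (((1 - 0)⁻¹) ^ p * J1)) := by
      refine (ContinuousAt.tendsto ?_).mono_left nhdsWithin_le_nhds
      refine ContinuousAt.mul ?_ continuousAt_const
      refine ContinuousAt.rpow_const ?_ (Or.inr (by linarith))
      exact (continuousAt_const.sub continuousAt_id).inv₀ (by norm_num)
    have hc2 : Tendsto (fun β : ℝ => ((1 - β)⁻¹) ^ 2 * I) (𝓝[>] 0) (𝓝 (((1 - 0)⁻¹) ^ 2 * I)) := by
      refine (ContinuousAt.tendsto ?_).mono_left nhdsWithin_le_nhds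
      refine ContinuousAt.mul ?_ continuousAt_const
      exact ((continuousAt_const.sub continuousAt_id).inv₀ (by norm_num)).pow 2
    have e1 : (((1 : ℝ) - 0)⁻¹) ^ p * J1 < J1 + η / 2 := by simp; linarith
    have e2 : (((1 : ℝ) - 0)⁻¹) ^ 2 * I < I + ε / 2 := by simp; linarith
    have hev : ∀ᶠ β : ℝ in 𝓝[>] 0, 0 < β ∧ β < 1 / 4 ∧ β ≤ δ₁ ∧ β ≤ δ₂ ∧
      ((1 - β)⁻¹) ^ p * J1 ≤ J1 + η / 2 ∧ ((1 - β)⁻¹) ^ 2 * I ≤ I + ε / 2 := by
      refine eventually_mem_nhdsWithin.and ?_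
      refine (Filter.Eventually.and ?_ ?_)
      · exact nhdsWithin_le_nhds (eventually_lt_nhds (by norm_num))
      refine (Filter.Eventually.and ?_ ?_)
      · exact nhdsWithin_le_nhds (eventually_le_nhds hδ₁)
      refine (Filter.Eventually.and ?_ ?_)
      · exact nhdsWithin_le_nhds (eventually_le_nhds hδ₂)
      exact ((hc1.eventually (eventually_lt_nhds e1)).mono fun _ => le_of_lt).and
        ((hc2.eventually (eventually_lt_nhds e2)).mono fun _ => le_of_lt)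
    exact hev.exists
  obtain ⟨τ, hτ, hpos, hτβ⟩ := exists_levels h hφ1 a β hβ0 (by linarith)
  set S : Set (Sp d) := slabReg L τ a with hS
  have hSm : MeasurableSet S := measurableSet_slabReg τ a
  have hSβ : ∫ x in S, φ x ^ 2 ≤ β := hτβ _
  have hS3 : ∫ x in slabReg L τ a, φ x ^ 2 < 1 / 3 := by
    have : ∫ x in slabReg L τ a, φ x ^ 2 ≤ β := hSβ
    linarith
  have hA := ampA_pos (L := L) hτ h.memLp a hS3
  have hA1 := ampA_sum (L := L) hτ h.memLp a hS3
  have hAle := ampA_le (L := L) hτ h.memLp a hSβ (by linarith)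
  have hm : ∀ q : Slab L, 0 < massZ τ a φ q := massZ_pos hτ h.memLp a hpos
  obtain ⟨K, hKn, hK⟩ := hP_bound (L := L) hτ hA hA1
  obtain ⟨Ch, hCh, u, Du, hu, huON, huψ, huA, huE⟩ := label_system (L := L) hd a h hτ hpos
  obtain ⟨N₁, hN₁⟩ := params Aexp (∑ q : Slab L, (massZ τ a φ q)⁻¹) Cb Ch
    (1 + 2 * K ^ 2 * (dir G + 1)) (ε / 2) p (Finset.sum_nonneg fun q _ => by
      have := hm q; positivity) hCb.le hCh (by positivity) hp1
  refine ⟨max N₁ ⌈N₀b⌉₊, fun n hn => ?_⟩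
  obtain ⟨c, hc1, hc2, hc3, hc4⟩ := hN₁ n (le_trans (le_max_left _ _) hn)
  have hnb : N₀b ≤ n + 1 := by
    have h1 : (⌈N₀b⌉₊ : ℝ) ≤ n := by exact_mod_cast le_trans (le_max_right _ _) hn
    have h2 := Nat.le_ceil N₀b
    linarith
  have hδsum : ∑ q : Slab L, delP c n τ a φ q ≤ 1 / 2 := by
    refine le_trans ?_ hc1
    rw [Finset.mul_sum, Finset.sum_div]
    refine Finset.sum_le_sum fun q _ => ?_
    unfold delP
    have h1 := hm q
    have h2 : (avgOcc L c q.2 : ℝ) ≤ (L : ℝ) * (c + 1) := by exact_mod_cast avgOcc_le hL1 q.2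
    rw [div_le_div_iff₀ (by positivity) (by positivity)]
    calc (avgOcc L c q.2 : ℝ) * (3 * (n + 1)) ≤ (L : ℝ) * (c + 1) * (3 * (n + 1)) := by gcongr
      _ = (L : ℝ) * (c + 1) * (massZ τ a φ q)⁻¹ * (3 * (n + 1) * massZ τ a φ q) := by
          field_simp
  have hδ0 : ∀ q : Slab L, 0 ≤ delP c n τ a φ q := fun q => by
    have := hm q
    unfold delP; positivity
  have hclass := fun m => class_build (n := n) a L c hL1 h hφ0 hφ1 hτ hpos hS3 hI hbes' hCb.le
    le_rfl hnb hK hCh u Du hu huON huψ huA huE hδsum hc2 hc3 W hW hWe m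
  choose 𝒞 i𝒞 q occ Ψ D hq0 hq1 hst hden hkin hpe ho1 ho2 ho3 ho4 using hclass
  obtain ⟨Ψ', D', hst', hden', hkin', hpe'⟩ := three_classes (Aset τ a) 𝒞 q occ Ψ D hq0 hq1 hst
    ho1 ho2 ho3 ho4
  have hNpos : (0 : ℝ) < n + 1 := by positivity
  -- pointwise facts
  have hhP0 : ∀ (m : Fin 3) x, 0 ≤ phiM τ a φ (delP (L := L) c n τ a φ) m x := fun m x =>
    mul_nonneg (hP_nonneg hτ hA hA1 hδ0 hδsum m _) (hφ0 x)
  have hsq3 : ∀ (m : Fin 3) x, phiM τ a φ (delP (L := L) c n τ a φ) m x ^ 2 ≤ 3 * φ x ^ 2 := by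
    intro m x
    unfold phiM
    rw [mul_pow]
    exact mul_le_mul_of_nonneg_right (hP_sq_le_three hτ hA hA1 hδ0 hδsum m (x a)) (sq_nonneg _)
  have hfar : ∀ (m : Fin 3) x, x ∉ S →
      phiM τ a φ (delP (L := L) c n τ a φ) m x ^ 2 ≤ (1 - β)⁻¹ * φ x ^ 2 := by
    intro m x hx
    unfold phiM
    rw [mul_pow]
    refine mul_le_mul_of_nonneg_right ?_ (sq_nonneg _)
    have h1 : x a ≤ τ 0 ∨ τ (9 * (L + 1)) ≤ x a := by
      by_contra hcon
      rw [not_or, not_le, not_le] at hcon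
      exact hx ⟨hcon.1, hcon.2.le⟩
    exact (hP_far hτ hA hA1 hδ0 hδsum h1 m).trans (hAle m)
  have hβinv : 0 < (1 - β)⁻¹ := inv_pos.2 (by linarith)
  have hβinv2 : (1 - β)⁻¹ ≤ 3 / 2 := by
    rw [inv_le_comm₀ (by linarith) (by norm_num)]
    norm_num
    linarith
  refine ⟨Ψ', D', hst', ?_, ?_, ?_⟩
  · -- density
    have hall : ∀ᵐ x, ∀ m, ∑ α, q m α * density (Ψ m α) x
        = (n + 1) * phiM τ a φ (delP (L := L) c n τ a φ) m x ^ 2
          + ∑ s, (avgOcc L c s : ℝ) * psiP τ a φ (m, s) x ^ 2 := ae_all_iff.2 hden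
    filter_upwards [hden', hall] with x hx1 hx2
    rw [hx1]
    simp_rw [hx2]
    rw [Finset.sum_add_distrib, ← Finset.mul_sum]
    have h1 : ∑ m, phiM τ a φ (delP (L := L) c n τ a φ) m x ^ 2 =
        (3 - 3 * ∑ q : Slab L, delP c n τ a φ q * zeP τ q (x a) ^ 2) * φ x ^ 2 := by
      unfold phiM
      simp_rw [mul_pow]
      rw [← Finset.sum_mul, sum_hP_sq hτ hA hA1 hδ0 hδsum]
    have h2 : ∑ m, ∑ s, (avgOcc L c s : ℝ) * psiP τ a φ ((m, s) : Slab L) x ^ 2 =
        3 * (n + 1) * (∑ q : Slab L, delP c n τ a φ q * zeP τ q (x a) ^ 2) * φ x ^ 2 := by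
      rw [← Fintype.sum_prod_type' (f := fun (m : Fin 3) (s : Fin (L + 1)) =>
        (avgOcc L c s : ℝ) * psiP τ a φ ((m, s) : Slab L) x ^ 2), Finset.mul_sum, Finset.sum_mul]
      refine Finset.sum_congr rfl fun q _ => ?_
      rw [psiP_sq (hm q)]
      unfold delP
      have := (hm q).ne'
      field_simp
    rw [h1, h2]
    ring
  · -- kinetic energy
    rw [hkin']
    have hpw : ∀ (m : Fin 3) x, phiM τ a φ (delP (L := L) c n τ a φ) m x ^ (2 + 4 / d : ℝ) ≤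
        ((1 - β)⁻¹) ^ p * φ x ^ (2 + 4 / d : ℝ)
          + S.indicator (fun x => (3 : ℝ) ^ p * φ x ^ (2 + 4 / d : ℝ)) x := by
      intro m x
      have e1 : ∀ t : ℝ, 0 ≤ t → t ^ (2 + 4 / d : ℝ) = (t ^ 2) ^ p := by
        intro t ht
        rw [← Real.rpow_natCast, ← Real.rpow_mul ht, h2p]
        norm_num
      rw [e1 _ (hhP0 m x), e1 _ (hφ0 x)]
      by_cases hx : x ∈ S
      · rw [Set.indicator_of_mem hx]
        have h1 : (phiM τ a φ (delP (L := L) c n τ a φ) m x ^ 2) ^ p ≤ (3 * φ x ^ 2) ^ p :=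
          Real.rpow_le_rpow (sq_nonneg _) (hsq3 m x) (by linarith)
        rw [Real.mul_rpow (by norm_num) (sq_nonneg _)] at h1
        rw [e1 _ (hφ0 x)]
        have h2 : 0 ≤ ((1 - β)⁻¹) ^ p * (φ x ^ 2) ^ p := by positivity
        linarith
      · rw [Set.indicator_of_notMem hx, add_zero]
        have h1 : (phiM τ a φ (delP (L := L) c n τ a φ) m x ^ 2) ^ p ≤
            ((1 - β)⁻¹ * φ x ^ 2) ^ p :=
          Real.rpow_le_rpow (sq_nonneg _) (hfar m x hx) (by linarith)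
        rwa [Real.mul_rpow hβinv.le (sq_nonneg _)] at h1
    have hJ2 : ∫ x in S, φ x ^ (2 + 4 / d : ℝ) ≤ η / (2 * 3 ^ p) := by
      have h1 := hac1 S hSm (hSβ.trans hβ2)
      have h2 : ∫⁻ x in S, ENNReal.ofReal (φ x ^ (4 / d : ℝ)) * ENNReal.ofReal (φ x ^ 2)
          = ENNReal.ofReal (∫ x in S, φ x ^ (2 + 4 / d : ℝ)) := by
        rw [ofReal_integral_eq_lintegral_ofReal hIint.integrableOn
          (Eventually.of_forall fun x => Real.rpow_nonneg (hφ0 x) _)]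
        refine lintegral_congr fun x => ?_
        rw [rpow_split hd (hφ0 x), ENNReal.ofReal_mul (Real.rpow_nonneg (hφ0 x) _)]
      rw [h2] at h1
      exact (ENNReal.ofReal_le_ofReal_iff (by positivity)).1 h1
    have hint : ∀ m : Fin 3, ∫ x, phiM τ a φ (delP (L := L) c n τ a φ) m x ^ (2 + 4 / d : ℝ) ≤
        J1 + η := by
      intro m
      calc ∫ x, phiM τ a φ (delP (L := L) c n τ a φ) m x ^ (2 + 4 / d : ℝ)
          ≤ ∫ x, (((1 - β)⁻¹) ^ p * φ x ^ (2 + 4 / d : ℝ)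
            + S.indicator (fun x => (3 : ℝ) ^ p * φ x ^ (2 + 4 / d : ℝ)) x) :=
            integral_mono_of_nonneg (Eventually.of_forall fun x => Real.rpow_nonneg (hhP0 m x) _)
              ((hIint.const_mul _).add ((hIint.const_mul _).indicator hSm))
              (Eventually.of_forall (hpw m))
        _ = ((1 - β)⁻¹) ^ p * J1 + 3 ^ p * ∫ x in S, φ x ^ (2 + 4 / d : ℝ) := by
            rw [integral_add (hIint.const_mul _) ((hIint.const_mul _).indicator hSm),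
              integral_const_mul, integral_indicator hSm, integral_const_mul]
        _ ≤ (J1 + η / 2) + 3 ^ p * (η / (2 * 3 ^ p)) := by gcongr
        _ = J1 + η := by
            have : (3 : ℝ) ^ p ≠ 0 := by positivity
            field_simp
            ring
    have hterm : ∀ m : Fin 3, ∑ α, q m α * kinetic (D m α) ≤
        (n + 1 : ℝ) ^ p * (Kcl d * J1 + ε) := by
      intro m
      refine (hkin m).trans ?_
      have h1 : (1 + η) * Kcl d * (n + 1 : ℝ) ^ p *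
          ((∫ x, phiM τ a φ (delP (L := L) c n τ a φ) m x ^ (2 + 4 / d : ℝ)) + η) ≤
          (n + 1 : ℝ) ^ p * (Kcl d * J1 + ε / 2) := by
        calc (1 + η) * Kcl d * (n + 1 : ℝ) ^ p *
            ((∫ x, phiM τ a φ (delP (L := L) c n τ a φ) m x ^ (2 + 4 / d : ℝ)) + η)
            ≤ (1 + η) * Kcl d * (n + 1 : ℝ) ^ p * ((J1 + η) + η) := by
              have := hint m
              gcongr
          _ = (n + 1 : ℝ) ^ p * ((1 + η) * Kcl d * (J1 + 2 * η)) := by ring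
          _ ≤ _ := by gcongr
      have h2 : Cb * (n + 1) * (1 + 2 * K ^ 2 * (dir G + 1)) +
          ((L : ℝ) + 1) * (Ch * (2 * (L : ℝ) * (c + 1)) ^ 3) ≤ ε / 2 * (n + 1 : ℝ) ^ p := hc4
      have h3 : (n + 1 : ℝ) ^ p * (Kcl d * J1 + ε) = (n + 1 : ℝ) ^ p * (Kcl d * J1 + ε / 2)
          + ε / 2 * (n + 1 : ℝ) ^ p := by ring
      rw [h3, add_assoc]
      exact add_le_add h1 h2
    calc (1 / 3 : ℝ) * ∑ m, ∑ α, q m α * kinetic (D m α)
        ≤ (1 / 3 : ℝ) * ∑ _m : Fin 3, (n + 1 : ℝ) ^ p * (Kcl d * J1 + ε) := by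
          gcongr with m _
          exact hterm m
      _ = _ := by
          rw [Finset.sum_const, Finset.card_univ, Fintype.card_fin]
          ring
  · -- interaction energy
    rw [hpe' W hW]
    have hP : ∀ (m : Fin 3) x, ((n + 1) * phiM τ a φ (delP (L := L) c n τ a φ) m x ^ 2
              + 4 * ∑ s, (avgOcc L c s : ℝ) * psiP τ a φ (m, s) x ^ 2) ≤
        (n + 1) * φ x ^ 2 * ((1 - β)⁻¹ + S.indicator (fun _ => 9) x) := by
      intro m x
      have h1 : ∑ s, (avgOcc L c s : ℝ) * psiP τ a φ ((m, s) : Slab L) x ^ 2 =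
          3 * (n + 1) * (∑ s, delP c n τ a φ ((m, s) : Slab L) * zeP τ ((m, s) : Slab L) (x a) ^ 2)
            * φ x ^ 2 := by
        rw [Finset.mul_sum, Finset.sum_mul]
        refine Finset.sum_congr rfl fun s _ => ?_
        rw [psiP_sq (hm (m, s))]
        unfold delP
        have := (hm (m, s)).ne'
        field_simp
      rw [h1]
      by_cases hx : x ∈ S
      · rw [Set.indicator_of_mem hx]
        have h2 : ∑ s, delP c n τ a φ ((m, s) : Slab L) * zeP τ ((m, s) : Slab L) (x a) ^ 2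
            ≤ 1 / 2 := by
          refine le_trans ?_ hδsum
          rw [Fintype.sum_prod_type]
          refine le_trans ?_ (Finset.single_le_sum (f := fun m' => ∑ s, delP c n τ a φ (m', s))
            (fun m' _ => Finset.sum_nonneg fun s _ => hδ0 (m', s)) (Finset.mem_univ m))
          refine Finset.sum_le_sum fun s _ => ?_
          have h3 := zeP_mem (τ := τ) ((m, s) : Slab L) (x a)
          have h4 : zeP τ ((m, s) : Slab L) (x a) ^ 2 ≤ 1 := by nlinarith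
          nlinarith [hδ0 (m, s)]
        have h3 := hsq3 m x
        have h4 : 0 ≤ φ x ^ 2 := sq_nonneg _
        calc (n + 1) * phiM τ a φ (delP (L := L) c n τ a φ) m x ^ 2 + 4 * (3 * (n + 1) *
              (∑ s, delP c n τ a φ ((m, s) : Slab L) * zeP τ ((m, s) : Slab L) (x a) ^ 2) * φ x ^ 2)
            ≤ (n + 1) * (3 * φ x ^ 2) + 4 * (3 * (n + 1) * (1 / 2) * φ x ^ 2) := by gcongr
          _ = (n + 1) * φ x ^ 2 * (0 + 9) := by ring
          _ ≤ _ := by gcongr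
      · rw [Set.indicator_of_notMem hx, add_zero]
        have h2 : ∑ s, delP c n τ a φ ((m, s) : Slab L) * zeP τ ((m, s) : Slab L) (x a) ^ 2
            = 0 := by
          refine Finset.sum_eq_zero fun s _ => ?_
          have h3 : zeP τ ((m, s) : Slab L) (x a) = 0 := by
            by_contra hz
            obtain ⟨h4, h5⟩ := zeP_ne_zero hτ hz
            refine hx ⟨lt_of_le_of_lt (hτ.monotone (Nat.zero_le _)) h4, h5.le.trans ?_⟩
            exact hτ.monotone (by have := sidx_lt ((m, s) : Slab L); omega)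
          rw [h3]; ring
        rw [h2]
        have h3 := hfar m x hx
        calc (n + 1) * phiM τ a φ (delP (L := L) c n τ a φ) m x ^ 2
              + 4 * (3 * (n + 1) * 0 * φ x ^ 2)
            = (n + 1) * phiM τ a φ (delP (L := L) c n τ a φ) m x ^ 2 := by ring
          _ ≤ (n + 1) * ((1 - β)⁻¹ * φ x ^ 2) := by gcongr
          _ = _ := by ring
    have hterm : ∀ m : Fin 3, ∑ α, ENNReal.ofReal (q m α) * pairEnergy W (Ψ m α) ≤
        ENNReal.ofReal ((n + 1 : ℝ) ^ 2 / 2) * (directE W φ + ENNReal.ofReal ε) := by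
      intro m
      refine (hpe m).trans ((pair_integral_le hφm hW hWe hSm hβinv.le hβinv2 hNpos.le
        (fun x => by have := hhP0 m x; positivity) (hP m) (hac2 S hSm (hSβ.trans hβ3))).trans ?_)
      refine mul_le_mul_right ?_ _
      have h1 : directE W φ = ENNReal.ofReal I := (ENNReal.ofReal_toReal hWf).symm
      rw [h1, ← ENNReal.ofReal_mul (by positivity)]
      have h2 : (108 : ℝ≥0∞) * ENNReal.ofReal (ε / 216) = ENNReal.ofReal (ε / 2) := by
        have : (108 : ℝ≥0∞) = ENNReal.ofReal 108 := by norm_num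
        rw [this, ← ENNReal.ofReal_mul (by norm_num)]
        congr 1
        ring
      rw [h2, ← ENNReal.ofReal_add (by positivity) (by positivity),
        ← ENNReal.ofReal_add hI0 hε.le]
      refine ENNReal.ofReal_le_ofReal ?_
      linarith
    calc (3⁻¹ : ℝ≥0∞) * ∑ m, ∑ α, ENNReal.ofReal (q m α) * pairEnergy W (Ψ m α)
        ≤ 3⁻¹ * ∑ _m : Fin 3, ENNReal.ofReal ((n + 1 : ℝ) ^ 2 / 2) *
            (directE W φ + ENNReal.ofReal ε) := by
          refine mul_le_mul_right (Finset.sum_le_sum fun m _ => hterm m) _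
      _ = _ := by
          rw [Finset.sum_const, Finset.card_univ, Fintype.card_fin, nsmul_eq_mul, ← mul_assoc]
          rw [show (3⁻¹ : ℝ≥0∞) * ((3 : ℕ) : ℝ≥0∞) = 1 from by
            push_cast
            exact ENNReal.inv_mul_cancel (by norm_num) (by norm_num), one_mul]

end Pool.Agent.Helper1.LL
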