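import Pool.Agent.Helper1.LL.Combine

/-!
# Auxiliary estimates for the upper bound
-/

open MeasureTheory Filter Topology
open scoped ENNReal

noncomputable section

namespace Pool.Agent.Helper1.LL

variable {d : ℕ}

/-- direct interaction energy of the density `φ²` -/
def directE (W : Sp d → ℝ≥0∞) (φ : Sp d → ℝ) : ℝ≥0∞ :=
  ∫⁻ x, ∫⁻ y, W (x - y) * ENNReal.ofReal (φ x ^ 2 * φ y ^ 2)

/-- absolute continuity -/
theorem abs_cont {φ : Sp d → ℝ} (hφm : Measurable φ) (hφ : MemLp φ 2) {g : Sp d → ℝ≥0∞}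
    (hg : Measurable g) (hfin : ∫⁻ x, g x * ENNReal.ofReal (φ x ^ 2) ≠ ⊤) {ε : ℝ≥0∞}
    (hε : ε ≠ 0) :
    ∃ δ : ℝ, 0 < δ ∧ ∀ S : Set (Sp d), MeasurableSet S → ∫ x in S, φ x ^ 2 ≤ δ →
      ∫⁻ x in S, g x * ENNReal.ofReal (φ x ^ 2) ≤ ε := by
  have hfm : Measurable fun x => ENNReal.ofReal (φ x ^ 2) := (hφm.pow_const 2).ennreal_ofReal
  set μ : Measure (Sp d) := volume.withDensity fun x => ENNReal.ofReal (φ x ^ 2) with hμ
  have h1 : ∫⁻ x, g x ∂μ ≠ ⊤ := by
    rw [hμ, lintegral_withDensity_eq_lintegral_mul _ hfm hg]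
    refine ne_of_eq_of_ne (lintegral_congr fun x => ?_) hfin
    simp only [Pi.mul_apply]
    rw [mul_comm]
  obtain ⟨δ, hδ, hδ'⟩ := exists_pos_setLIntegral_lt_of_measure_lt h1 hε
  have hδtop : min δ 1 ≠ ⊤ := ne_top_of_le_ne_top ENNReal.one_ne_top (min_le_right _ _)
  have hδpos : 0 < (min δ 1).toReal :=
    ENNReal.toReal_pos (lt_min hδ one_pos).ne' hδtop
  refine ⟨(min δ 1).toReal / 2, by positivity, fun S hS hle => ?_⟩
  have h2 : μ S < δ := by
    rw [hμ, withDensity_apply _ hS,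
      ← ofReal_integral_eq_lintegral_ofReal hφ.integrable_sq.integrableOn
        (Eventually.of_forall fun x => sq_nonneg _)]
    calc ENNReal.ofReal (∫ x in S, φ x ^ 2) ≤ ENNReal.ofReal ((min δ 1).toReal / 2) :=
          ENNReal.ofReal_le_ofReal hle
      _ < ENNReal.ofReal ((min δ 1).toReal) := by
          rw [ENNReal.ofReal_lt_ofReal_iff hδpos]
          linarith
      _ = min δ 1 := ENNReal.ofReal_toReal hδtop
      _ ≤ δ := min_le_left _ _
  have h3 := hδ' S h2
  rw [hμ, restrict_withDensity hS, lintegral_withDensity_eq_lintegral_mul _ hfm hg] at h3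
  refine le_trans (le_of_eq (lintegral_congr fun x => ?_)) h3.le
  simp only [Pi.mul_apply]
  rw [mul_comm]

theorem lintegral_lin {X : Type*} [MeasurableSpace X] {μ : Measure X} {f g h : X → ℝ≥0∞}
    (hf : Measurable f) (hg : Measurable g) (hh : Measurable h) (c a b e : ℝ≥0∞) :
    ∫⁻ x, c * (a * f x + b * g x + e * h x) ∂μ =
      c * (a * (∫⁻ x, f x ∂μ) + b * (∫⁻ x, g x ∂μ) + e * ∫⁻ x, h x ∂μ) := by
  have h1 : Measurable fun x => a * f x := measurable_const.mul hf
  have h2 : Measurable fun x => b * g x := measurable_const.mul hg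
  have h3 : Measurable fun x => e * h x := measurable_const.mul hh
  have h4 : Measurable fun x => a * f x + b * g x := h1.add h2
  have h5 : Measurable fun x => a * f x + b * g x + e * h x := h4.add h3
  rw [lintegral_const_mul c h5, lintegral_add_right _ h3, lintegral_add_right _ h2,
    lintegral_const_mul _ hf, lintegral_const_mul _ hg, lintegral_const_mul _ hh]

theorem pair_integral_le {φ : Sp d → ℝ} (hφm : Measurable φ) {W : Sp d → ℝ≥0∞}
    (hW : Measurable W) (hWe : ∀ z, W (-z) = W z) {S : Set (Sp d)} (hS : MeasurableSet S)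
    {b N : ℝ} (hb0 : 0 ≤ b) (hb : b ≤ 3 / 2) (hN : 0 ≤ N) {X : ℝ≥0∞} {P : Sp d → ℝ}
    (hP0 : ∀ x, 0 ≤ P x) (hP : ∀ x, P x ≤ N * φ x ^ 2 * (b + S.indicator (fun _ => 9) x))
    (hX : ∫⁻ x in S, ∫⁻ y, W (x - y) * ENNReal.ofReal (φ x ^ 2 * φ y ^ 2) ≤ X) :
    2⁻¹ * ∫⁻ x, ∫⁻ y, W (x - y) * ENNReal.ofReal (P x * P y) ≤
      ENNReal.ofReal (N ^ 2 / 2) * (ENNReal.ofReal (b ^ 2) * directE W φ + 108 * X) := by
  set one : Sp d → ℝ≥0∞ := S.indicator (fun _ => 1) with hone
  have honem : Measurable one := measurable_const.indicator hS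
  set F : Sp d → Sp d → ℝ≥0∞ := fun x y => W (x - y) * ENNReal.ofReal (φ x ^ 2 * φ y ^ 2) with hF
  have hFm : Measurable (Function.uncurry F) :=
    (hW.comp (measurable_fst.sub measurable_snd)).mul
      (((hφm.comp measurable_fst).pow_const 2).mul
        ((hφm.comp measurable_snd).pow_const 2)).ennreal_ofReal
  have hFs : ∀ x y, F x y = F y x := by
    intro x y
    simp only [hF]
    rw [← neg_sub, hWe, mul_comm (φ y ^ 2)]
  have hpt : ∀ x y, W (x - y) * ENNReal.ofReal (P x * P y) ≤ ENNReal.ofReal (N ^ 2) *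
      (ENNReal.ofReal (b ^ 2) * F x y + 54 * (one x * F x y) + 54 * (one y * F x y)) := by
    intro x y
    have h1 : P x * P y ≤ N ^ 2 * (b ^ 2 + 54 * S.indicator (fun _ => (1 : ℝ)) x
        + 54 * S.indicator (fun _ => (1 : ℝ)) y) * (φ x ^ 2 * φ y ^ 2) := by
      have h2 : P x * P y ≤ (N * φ x ^ 2 * (b + S.indicator (fun _ => 9) x)) *
          (N * φ y ^ 2 * (b + S.indicator (fun _ => 9) y)) :=
        mul_le_mul (hP x) (hP y) (hP0 y) ((hP0 x).trans (hP x))
      refine h2.trans ?_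
      have h3 : (N * φ x ^ 2 * (b + S.indicator (fun _ => 9) x)) *
          (N * φ y ^ 2 * (b + S.indicator (fun _ => 9) y)) = N ^ 2 *
          ((b + S.indicator (fun _ => 9) x) * (b + S.indicator (fun _ => 9) y))
          * (φ x ^ 2 * φ y ^ 2) := by ring
      rw [h3]
      refine mul_le_mul_of_nonneg_right (mul_le_mul_of_nonneg_left ?_ (sq_nonneg _))
        (by positivity)
      by_cases hx : x ∈ S <;> by_cases hy : y ∈ S <;> simp [hx, hy] <;> nlinarith
    calc W (x - y) * ENNReal.ofReal (P x * P y)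
        ≤ W (x - y) * ENNReal.ofReal (N ^ 2 * (b ^ 2 + 54 * S.indicator (fun _ => (1 : ℝ)) x
          + 54 * S.indicator (fun _ => (1 : ℝ)) y) * (φ x ^ 2 * φ y ^ 2)) := by gcongr
      _ = _ := by
          have h4 : ∀ z, 0 ≤ S.indicator (fun _ => (1 : ℝ)) z := fun z =>
            Set.indicator_nonneg (fun _ _ => zero_le_one) z
          have h5 : ∀ z, ENNReal.ofReal (54 * S.indicator (fun _ => (1 : ℝ)) z) = 54 * one z := by
            intro z
            by_cases hz : z ∈ S <;> simp [hone, hz]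
          have h6 := h4 x
          have h7 := h4 y
          rw [mul_assoc, ENNReal.ofReal_mul (sq_nonneg _), ENNReal.ofReal_mul (by positivity),
            ENNReal.ofReal_add (by positivity) (by positivity),
            ENNReal.ofReal_add (by positivity) (by positivity), h5, h5]
          simp only [hF]
          ring
  have hm1 : ∀ x, Measurable (F x) := fun x => hFm.comp (measurable_const.prodMk measurable_id)
  have hm2 : Measurable fun x => ∫⁻ y, F x y := hFm.lintegral_prod_right'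
  have e1 : ∀ x, ∫⁻ y, ENNReal.ofReal (N ^ 2) *
      (ENNReal.ofReal (b ^ 2) * F x y + 54 * (one x * F x y) + 54 * (one y * F x y))
      = ENNReal.ofReal (N ^ 2) * (ENNReal.ofReal (b ^ 2) * (∫⁻ y, F x y)
        + 54 * (one x * ∫⁻ y, F x y) + 54 * ∫⁻ y, one y * F x y) := by
    intro x
    rw [lintegral_lin (f := fun y => F x y) (g := fun y => one x * F x y)
      (h := fun y => one y * F x y) (hm1 x) (measurable_const.mul (hm1 x)) (honem.mul (hm1 x)),
      lintegral_const_mul (one x) (hm1 x)]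
  have hm3 : Measurable (Function.uncurry fun x y => one y * F x y) :=
    (honem.comp measurable_snd).mul hFm
  have hm4 : Measurable fun x => ∫⁻ y, one y * F x y := hm3.lintegral_prod_right'
  have e2 : ∫⁻ x, ENNReal.ofReal (N ^ 2) * (ENNReal.ofReal (b ^ 2) * (∫⁻ y, F x y)
        + 54 * (one x * ∫⁻ y, F x y) + 54 * ∫⁻ y, one y * F x y)
      = ENNReal.ofReal (N ^ 2) * (ENNReal.ofReal (b ^ 2) * (∫⁻ x, ∫⁻ y, F x y)
        + 54 * (∫⁻ x, one x * ∫⁻ y, F x y) + 54 * ∫⁻ x, ∫⁻ y, one y * F x y) := by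
    exact lintegral_lin (f := fun x => ∫⁻ y, F x y) (g := fun x => one x * ∫⁻ y, F x y)
      (h := fun x => ∫⁻ y, one y * F x y) hm2 (honem.mul hm2) hm4 _ _ _ _
  have e3 : ∫⁻ x, one x * ∫⁻ y, F x y = ∫⁻ x in S, ∫⁻ y, F x y := by
    rw [← lintegral_indicator hS]
    refine lintegral_congr fun x => ?_
    by_cases hx : x ∈ S <;> simp [hone, hx]
  have e4 : ∫⁻ x, ∫⁻ y, one y * F x y = ∫⁻ x in S, ∫⁻ y, F x y := by
    rw [lintegral_lintegral_swap hm3.aemeasurable, ← e3]
    refine lintegral_congr fun y => ?_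
    rw [← lintegral_const_mul _ (hm1 y)]
    refine lintegral_congr fun x => ?_
    rw [hFs]
  calc 2⁻¹ * ∫⁻ x, ∫⁻ y, W (x - y) * ENNReal.ofReal (P x * P y)
      ≤ 2⁻¹ * ∫⁻ x, ∫⁻ y, ENNReal.ofReal (N ^ 2) *
        (ENNReal.ofReal (b ^ 2) * F x y + 54 * (one x * F x y) + 54 * (one y * F x y)) := by
        exact mul_le_mul_right (lintegral_mono fun x => lintegral_mono fun y => hpt x y) _
    _ = 2⁻¹ * (ENNReal.ofReal (N ^ 2) * (ENNReal.ofReal (b ^ 2) * (∫⁻ x, ∫⁻ y, F x y)
        + 54 * (∫⁻ x in S, ∫⁻ y, F x y) + 54 * (∫⁻ x in S, ∫⁻ y, F x y))) := by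
        simp_rw [e1]
        rw [e2, e3, e4]
    _ ≤ 2⁻¹ * (ENNReal.ofReal (N ^ 2) * (ENNReal.ofReal (b ^ 2) * (∫⁻ x, ∫⁻ y, F x y)
        + 54 * X + 54 * X)) := by gcongr
    _ = _ := by
        rw [← mul_assoc]
        congr 1
        · rw [div_eq_inv_mul, ENNReal.ofReal_mul (by norm_num),
            ENNReal.ofReal_inv_of_pos (by norm_num)]
          norm_num
        · rw [add_assoc, ← add_mul]
          norm_num
          rfl

end Pool.Agent.Helper1.LL
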